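import Pool.Agent.V7H80.MQ.Lf

/-!
# The product of the local factors of the places above a prime number
-/

set_option autoImplicit false
set_option linter.unusedSectionVars false

open NumberField IsDedekindDomain Pool.Agent.H921R2.TatePole Pool.Agent.H82R3.EK
open WeierstrassCurve Pool.Agent.W189.NF
open Pool.Agent.Y698 Pool.Agent.Y698.SG
open W165.CE (pw)

namespace Pool.Agent.V7H80.MQ

section
variable {F : Type} [Field F] [NumberField F] {n : ℕ} {d : Fin n → ℕ} {x : Fin n → F}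

lemma U_symm (hd0 : ∀ i, d i ≠ 0) (A B : Finset (Fin n)) :
    U d (symmDiff A B) = symmDiff (U d A) (U d B) := by
  ext p
  by_cases hp : p.Prime
  · rw [Finset.mem_symmDiff, mem_U hd0 hp, mem_U hd0 hp, mem_U hd0 hp, sum_sd]
    generalize ∑ i ∈ A, mm d p i = a
    generalize ∑ i ∈ B, mm d p i = b
    revert a b
    decide
  · rw [Finset.mem_symmDiff]
    constructor
    · intro h
      exact absurd (U_prime h) hp
    · rintro (h | h)
      · exact absurd (U_prime h.1) hp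
      · exact absurd (U_prime h.1) hp

lemma Hyp.gp (h : Hyp d x) (T : Finset (Fin n)) : ∀ q ∈ U d T, Gp q := fun _ hq =>
  ⟨U_prime hq, U_mod h.four hq⟩

lemma gp_sd {S A : Finset ℕ} (hS : ∀ q ∈ S, Gp q) (hA : ∀ q ∈ A, Gp q) :
    ∀ q ∈ symmDiff S A, Gp q := by
  intro q hq
  rcases Finset.mem_symmDiff.1 hq with h | h
  · exact hS q h.1
  · exact hA q h.1

lemma exists_j {S : Finset ℕ} (hS : ∀ q ∈ S, Gp q) : ∃ j : ℕ, ∏ q ∈ S, q = 1 + 4 * j := by
  have := prod_mod4 (S := S) fun q hq => (hS q hq).m4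
  exact ⟨(∏ q ∈ S, q) / 4, by omega⟩

/-- the product over the places above `p` -/
theorem prod_places (h : Hyp d x) {S : Finset ℕ} (hS : ∀ q ∈ S, Gp q) {j : ℕ}
    (hj : ∏ q ∈ S, q = 1 + 4 * j) (s : ℂ) (p : Nat.Primes) :
    ∏ w : {w : HeightOneSpectrum (𝓞 F) // below w = p}, LFD j s w.1 =
      ∏ T : Finset (Fin n), EF (∏ q ∈ symmDiff S (U d T), qch q (p : ℕ)) s p := by
  classical
  obtain ⟨f, v, k1, k2, k3, k4, k5⟩ := splitP h p
  have hd0 : ∀ i, d i ≠ 0 := fun i => (h.sqf i).ne_zero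
  have key : ∀ {A : Finset ℕ}, (∀ q ∈ A, Gp q) → ((p : ℕ) ∉ A ∨ ¬ ∃ i, (p : ℕ) ∣ d i) →
      (∀ w : HeightOneSpectrum (𝓞 F), below w = p →
      ((aV (EX F (j : F)) w : ℤ) : ℂ) = (∏ q ∈ A, qch q (below w : ℕ)) ^ deg w *
      pw (bc (below w : ℕ)) (ec (below w : ℕ)) (deg w) ∧
      ((eV (EX F (j : F)) w : ℤ) : ℂ) =
      ((∏ q ∈ A, qch q (below w : ℕ)) ^ 2 * ec (below w : ℕ)) ^ deg w) →
      ∏ w : {w : HeightOneSpectrum (𝓞 F) // below w = p}, LFD j s w.1 =
      ∏ T : Finset (Fin n), EF (∏ q ∈ symmDiff A (U d T), qch q (p : ℕ)) s p := by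
    intro A hA hc hco
    rw [prod_T h hA p hc s k1 k2 k3 k5]
    have h3 : ∀ w : {w : HeightOneSpectrum (𝓞 F) // below w = p}, LFD j s w.1 =
        (1 - (∏ q ∈ A, qch q (p : ℕ)) ^ f * pw (bc (p : ℕ)) (ec (p : ℕ)) f *
        (((p : ℕ) : ℂ) ^ (-s)) ^ f + ((∏ q ∈ A, qch q (p : ℕ)) ^ 2 * ec (p : ℕ)) ^ f *
        ((((p : ℕ) : ℂ) ^ (-s)) ^ f) ^ 2)⁻¹ := by
      rintro ⟨w, hw⟩
      obtain ⟨c1, c2⟩ := hco w hw
      unfold LFD
      rw [c1, c2, (nm_eq w).1, Pool.Agent.W164.RC.pow_cpow', hw, k4 w hw]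
    rw [Finset.prod_congr rfl (fun w _ => h3 w), Finset.prod_const, Finset.card_univ]
  by_cases hc : (p : ℕ) ∉ S ∨ ¬ ∃ i, (p : ℕ) ∣ d i
  · refine key hS hc ?_
    intro w hw
    refine coeffsD w hS hj ?_ ?_
    · intro h7
      have h7' : ¬ ∃ i, (below w : ℕ) ∣ d i := by
        rw [h7]
        rintro ⟨i, hi⟩
        have := h.four i 7 (Nat.mem_primeFactors.2 ⟨by norm_num, hi, hd0 i⟩)
        omega
      have h8 := val_un h (below w) h7' w rfl
      rwa [h7] at h8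
    · intro q hq hwq
      have hp : (p : ℕ) = q := by rw [← hw, hwq]
      have h7' : ¬ ∃ i, (below w : ℕ) ∣ d i := by
        rw [hwq, ← hp]
        exact hc.resolve_left (fun h => h (hp ▸ hq))
      have h8 := val_un h (below w) h7' w rfl
      rwa [hwq] at h8
  · push Not at hc
    obtain ⟨hpS, i0, hi0⟩ := hc
    set S' := symmDiff S (U d {i0}) with hS'
    have hS'g : ∀ q ∈ S', Gp q := gp_sd hS (h.gp _)
    have hpU : (p : ℕ) ∈ U d {i0} := by
      rw [mem_U hd0 p.2, Finset.sum_singleton]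
      exact if_pos hi0
    have hpS' : (p : ℕ) ∉ S' := by
      rw [hS', Finset.mem_symmDiff]
      rintro (h1 | h1)
      · exact h1.2 hpU
      · exact h1.2 hpS
    obtain ⟨j', hj'⟩ := exists_j hS'g
    -- the isomorphism over `F`
    have hprod := prod_sd (fun q : ℕ => q) S (U d {i0})
    rw [← hS'] at hprod
    obtain ⟨g0, hg0, hg0'⟩ := exists_g h.sqf ({i0} : Finset (Fin n))
    rw [Finset.prod_singleton] at hg0'
    have hx0 : x i0 ≠ 0 := xne h.gen hd0 i0
    set c : ℕ := ∏ q ∈ S ∩ U d {i0}, q with hc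
    have hc0 : (c : F) ≠ 0 := by
      rw [hc]
      push_cast
      rw [Finset.prod_ne_zero_iff]
      intro q hq
      exact Nat.cast_ne_zero.2 (hS q (Finset.mem_inter.1 hq).1).pr.ne_zero
    have hg0F : (g0 : F) ≠ 0 := Nat.cast_ne_zero.2 hg0
    have e1 : (1 + 4 * (j : F)) * ((∏ q ∈ U d {i0}, q : ℕ) : F) = (1 + 4 * (j' : F)) * (c : F) ^ 2 := by
      have h1 := congrArg (Nat.cast : ℕ → F) hprod
      rw [hj, hj'] at h1
      push_cast at h1 ⊢
      exact h1
    have e2 : (x i0) ^ 2 = ((∏ q ∈ U d {i0}, q : ℕ) : F) * (g0 : F) ^ 2 := by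
      rw [h.gen.sq, hg0']
      push_cast
      ring
    obtain ⟨C, hC⟩ := EX_twist (K := F) (j := j') (j₀ := j) (g := (c : F) * g0 / x i0)
      (div_ne_zero (mul_ne_zero hc0 hg0F) hx0) (by
        have h1 : (1 + 4 * (j : F)) * (x i0) ^ 2 = (1 + 4 * (j' : F)) * ((c : F) * g0) ^ 2 := by
          rw [e2]
          linear_combination (g0 : F) ^ 2 * e1
        field_simp
        linear_combination h1)
    have hp7 : (p : ℕ) ≠ 7 := by
      intro h7
      have := (hS _ hpS).m4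
      omega
    rw [key hS'g (Or.inl hpS') (fun w hw => coeffsG w hS'g hj' hC (by rw [hw]; exact hp7)
      (by rw [hw]; exact hpS'))]
    refine Finset.prod_bij' (fun T _ => symmDiff {i0} T) (fun T _ => symmDiff {i0} T)
      (fun T _ => Finset.mem_univ _) (fun T _ => Finset.mem_univ _) (fun T _ => by simp)
      (fun T _ => by simp) (fun T _ => ?_)
    rw [U_symm hd0, hS', symmDiff_assoc]

end

end Pool.Agent.V7H80.MQ
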