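import Pool.Agent.V7H80.MQ.Pts
import Pool.Agent.V7H80.MQ.Pp
import Pool.Agent.Y655.XT.Shavc

/-!
# The points and the Tate-Shafarevich group over multiquadratic fields
-/

set_option autoImplicit false
set_option linter.unusedSectionVars false

open NumberField WeierstrassCurve

namespace Pool.Agent.V7H80.MQ

open Pool.Agent.TH841.NF.D (Sha)
open Pool.Agent.Y682 (gc)
open Pool.Agent.Y698 Pool.Agent.Y698.SG
open scoped Classical

/-- the change of variables between the models -/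
lemma gcE {k : Type} [Field k] [CharZero k] (j : ℕ) :
    ∃ C : VariableChange k, C • EX k (j : k) =
      gc (21 * (1 + 4 * (j : ℤ))) (112 * (1 + 4 * (j : ℤ)) ^ 2) k := by
  have h2 : (2 : k) ≠ 0 := two_ne_zero
  refine ⟨⟨(Units.mk0 2 h2)⁻¹, 2 * (1 + 4 * j), -1 / 2, -(1 + 4 * j)⟩, ?_⟩
  unfold EX gc
  ext
  · simp only [variableChange_a₁, inv_inv, Units.val_mk0]
    field_simp
    ring
  · simp only [variableChange_a₂, inv_inv, Units.val_mk0]
    push_cast
    field_simp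
    ring
  · simp only [variableChange_a₃, inv_inv, Units.val_mk0]
    ring
  · simp only [variableChange_a₄, inv_inv, Units.val_mk0]
    push_cast
    field_simp
    ring
  · simp only [variableChange_a₆, inv_inv, Units.val_mk0]
    field_simp
    ring

/-- scaling -/
lemma gcS {k : Type} [Field k] [CharZero k] {A B A' B' : ℤ} {g : k} (hg : g ≠ 0)
    (h1 : (A' : k) = A * g ^ 2) (h2 : (B' : k) = B * g ^ 4) :
    ∃ C : VariableChange k, C • gc A B k = gc A' B' k := by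
  refine ⟨⟨(Units.mk0 g hg)⁻¹, 0, 0, 0⟩, ?_⟩
  unfold gc
  ext
  · simp only [variableChange_a₁, inv_inv, Units.val_mk0]
    ring
  · simp only [variableChange_a₂, inv_inv, Units.val_mk0]
    rw [h1]
    ring
  · simp only [variableChange_a₃, inv_inv, Units.val_mk0]
    ring
  · simp only [variableChange_a₄, inv_inv, Units.val_mk0]
    rw [h2]
    ring
  · simp only [variableChange_a₆, inv_inv, Units.val_mk0]
    ring

/-- the statement to be carried over -/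
def Good' (K : Type) [Field K] [NumberField K] (W : WeierstrassCurve K) (m : ℕ) : Prop :=
  Finite W.toAffine.Point ∧ ∀ (k : ℕ) (y : Sha W), 2 ^ k • y = 0 → m • y = 0

lemma Good'.iso {K : Type} [Field K] [NumberField K] {W W' : WeierstrassCurve K} {m : ℕ}
    (h : Good' K W m) {C : VariableChange K} (hD : W.Δ ≠ 0) (hC : C • W = W') : Good' K W' m := by
  obtain ⟨⟨e1⟩, ⟨e2⟩⟩ := Pool.Agent.Y655.XT.s_shavc K W W' C hD hC
  refine ⟨?_, fun k y hy => ?_⟩
  · have := h.1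
    exact Finite.of_equiv _ e1.toEquiv
  · have h1 := h.2 k (e2.symm y) (by rw [← map_nsmul, hy, map_zero])
    rw [← map_nsmul] at h1
    exact (map_eq_zero_iff e2.symm e2.symm.injective).1 h1

lemma Good'.isoS {K : Type} [Field K] [NumberField K] {W W' : WeierstrassCurve K} {m : ℕ}
    (h : Good' K W' m) {C : VariableChange K} (hD : W.Δ ≠ 0) (hC : C • W = W') : Good' K W m := by
  refine h.iso (C := C⁻¹) ?_ (by rw [← hC, inv_smul_smul])
  rw [← hC, variableChange_Δ]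
  exact mul_ne_zero (pow_ne_zero _ (C.u⁻¹).ne_zero) hD

lemma EX_Δne {K : Type} [Field K] [CharZero K] (j : ℕ) : (EX K (j : K)).Δ ≠ 0 := by
  rw [EX_Δ]
  refine mul_ne_zero (by norm_num) (pow_ne_zero _ ?_)
  have : (1 + 4 * (j : K)) = ((1 + 4 * j : ℕ) : K) := by push_cast; ring
  rw [this]
  exact Nat.cast_ne_zero.2 (by omega)

section
variable {F : Type} [Field F] [NumberField F] {n : ℕ} {d : Fin n → ℕ} {x : Fin n → F}

/-- **The points and `Ш` over `F`**. -/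
theorem algF (h : Hyp d x) {S : Finset ℕ} (hS : ∀ q ∈ S, Gp q) {j : ℕ}
    (hj : ∏ q ∈ S, q = 1 + 4 * j)
    (hyp : ∀ (T : Finset (Fin n)) (i : ℕ), ∏ q ∈ symmDiff S (U d T), q = 1 + 4 * i →
      Good' ℚ (EX ℚ (i : ℚ)) 1) :
    Good' F (EX F (j : F)) (2 ^ n) := by
  have hd0 : ∀ i, d i ≠ 0 := fun i => (h.sqf i).ne_zero
  have hG : IsGalois ℚ F := gal h.gen
  have hdZ : ∀ i, ((d i : ℕ) : ℤ) ≠ 0 := fun i => Nat.cast_ne_zero.2 (hd0 i)
  have hxZ : ∀ i, x i ^ 2 = (((d i : ℕ) : ℤ) : F) := fun i => by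
    rw [h.gen.sq, Int.cast_natCast]
  have hgen : ∀ L : Subfield F, (∀ k : ℚ, algebraMap ℚ F k ∈ L) → (∀ i, x i ∈ L) → L = ⊤ :=
    fun L _ hL => h.gen.top L hL
  set A : ℤ := 21 * (1 + 4 * (j : ℤ)) with hA
  set B : ℤ := 112 * (1 + 4 * (j : ℤ)) ^ 2 with hB
  have key : ∀ T : Finset (Fin n), Good' ℚ
      (gc (A * ∏ i ∈ T, ((d i : ℕ) : ℤ)) (B * (∏ i ∈ T, ((d i : ℕ) : ℤ)) ^ 2) ℚ) 1 := by
    intro T
    obtain ⟨i, hi⟩ := exists_j (gp_sd hS (h.gp T))
    obtain ⟨g0, hg0, hg0'⟩ := exists_g h.sqf T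
    have hprod := prod_sd (fun q : ℕ => q) S (U d T)
    set c : ℕ := ∏ q ∈ S ∩ U d T, q with hc
    have hc0 : c ≠ 0 := by
      rw [hc, Finset.prod_ne_zero_iff]
      intro q hq
      exact (hS q (Finset.mem_inter.1 hq).1).pr.ne_zero
    have hT := hyp T i hi
    obtain ⟨C1, hC1⟩ := gcE (k := ℚ) i
    have h1 := hT.iso (EX_Δne i) hC1
    -- `(1 + 4 j) ∏_T d = (1 + 4 i) (c g0) ^ 2`
    have h2 : (1 + 4 * (j : ℤ)) * ∏ i ∈ T, ((d i : ℕ) : ℤ) = (1 + 4 * (i : ℤ)) * ((c : ℤ) * g0) ^ 2 := by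
      have h3 : (1 + 4 * j) * ∏ i ∈ T, d i = (1 + 4 * i) * (c * g0) ^ 2 := by
        rw [hg0', ← hj, ← hi]
        have h4 : (∏ q ∈ S, q) * ((∏ q ∈ U d T, q) * g0 ^ 2) =
            ((∏ q ∈ S, q) * (∏ q ∈ U d T, q)) * g0 ^ 2 := by ring
        rw [h4, hprod]
        ring
      have h5 := congrArg (Nat.cast : ℕ → ℤ) h3
      push_cast at h5 ⊢
      exact h5
    obtain ⟨C2, hC2⟩ := gcS (k := ℚ) (A := 21 * (1 + 4 * (i : ℤ))) (B := 112 * (1 + 4 * (i : ℤ)) ^ 2)
      (A' := A * ∏ i ∈ T, ((d i : ℕ) : ℤ)) (B' := B * (∏ i ∈ T, ((d i : ℕ) : ℤ)) ^ 2)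
      (g := ((c : ℤ) * g0 : ℤ)) (by exact_mod_cast mul_ne_zero hc0 hg0) (by
        rw [hA, mul_assoc, h2]
        push_cast
        ring) (by
        have h5 : B * (∏ i ∈ T, ((d i : ℕ) : ℤ)) ^ 2 =
            112 * ((1 + 4 * (j : ℤ)) * ∏ i ∈ T, ((d i : ℕ) : ℤ)) ^ 2 := by rw [hB]; ring
        rw [h5, h2]
        push_cast
        ring)
    refine h1.iso ?_ hC2
    rw [← hC1, variableChange_Δ]
    exact mul_ne_zero (pow_ne_zero _ (C1.u⁻¹).ne_zero) (EX_Δne i)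
  have hF : Good' F (gc A B F) (2 ^ n) := by
    constructor
    · exact pts2 (K := ℚ) (fun i => ((d i : ℕ) : ℤ)) x hdZ hxZ hgen A B fun T => (key T).1
    · intro k y hy
      exact Pool.Agent.Y715.CS.YS.quad (K := ℚ) (fun i => ((d i : ℕ) : ℤ)) x hdZ hxZ hgen A B
        (fun T k y hy => by
          have := (key T).2 k y hy
          rwa [one_smul] at this) k y hy
  obtain ⟨C, hC⟩ := gcE (k := F) j
  exact hF.isoS (EX_Δne j) hC

end

end Pool.Agent.V7H80.MQ
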