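import Pool.Agent.V7H80.MQ.Pp
import Pool.Agent.Y698.SG.Inp

/-!
# The L-function over multiquadratic fields
-/

set_option autoImplicit false
set_option linter.unusedSectionVars false

open NumberField IsDedekindDomain Pool.Agent.H921R2.TatePole Pool.Agent.H82R3.EK
open WeierstrassCurve Pool.Agent.W189.NF
open Pool.Agent.Y698 Pool.Agent.Y698.SG Pool.Agent.W192.HK

namespace Pool.Agent.V7H80.MQ

open Classical in
/-- the primes of the set which are inert in `ℚ(√-7)` -/
noncomputable def Qs (A : Finset ℕ) : Finset ℕ := A.filter fun p => ¬ IsSquare (-7 : ZMod p)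

open Classical in
/-- the primes of the set which split in `ℚ(√-7)` -/
noncomputable def Ps (A : Finset ℕ) : Finset ℕ := A.filter fun p => IsSquare (-7 : ZMod p)

lemma QP (A : Finset ℕ) : Qs A ∪ Ps A = A := by
  classical
  unfold Qs Ps
  rw [Finset.union_comm]
  exact Finset.filter_union_filter_not_eq _ _

lemma Qs_inq {A : Finset ℕ} (hA : ∀ q ∈ A, Gp q) : ∀ q ∈ Qs A, Inq q := by
  classical
  intro q hq
  obtain ⟨h1, h2⟩ := Finset.mem_filter.1 hq
  exact ⟨(hA q h1).pr, (hA q h1).m4, h2⟩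

lemma Ps_spl {A : Finset ℕ} (hA : ∀ q ∈ A, Gp q) : ∀ q ∈ Ps A, Spl q := by
  classical
  intro q hq
  obtain ⟨h1, h2⟩ := Finset.mem_filter.1 hq
  exact ⟨(hA q h1).pr, (hA q h1).m4, h2⟩

/-- the L-function of the twist over `ℚ` -/
theorem anQ {A : Finset ℕ} (hA : ∀ q ∈ A, Gp q) (hdet : (mat (Qs A) (Ps A)).det ≠ 0) :
    ∃ G : ℂ → ℂ, Differentiable ℂ G ∧
    (∀ z : ℂ, 3 / 2 < z.re → HasProd (fun p : Nat.Primes =>
      EF (∏ q ∈ A, qch q (p : ℕ)) z p) (G z)) ∧ G 1 ≠ 0 := by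
  obtain ⟨G, g1, g2, g4⟩ := val_quad' inp (Qs_inq hA) (Ps_spl hA) hdet
  refine ⟨G, g1, fun z hz => ?_, ?_⟩
  · have h1 := g2 z hz
    rw [QP] at h1
    exact h1
  · obtain ⟨L, Ω, h⟩ := exists_LD
    have hirrA : Irreducible aR := irr_of_prime_norm (by rw [aR_nR]; norm_num)
    have hp : (sp aR).IsPrime := (maximal_sp hirrA).isPrime
    obtain ⟨B, hB⟩ := exists_vs (sp aR)
    have h1 := hB aR (Ideal.mem_span_singleton_self _)
    rw [aR_coe] at h1
    have h2 := g4 _ B.valuation L Ω h h1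
    intro h0
    rw [h0, map_zero, zero_div, map_zero, mul_zero] at h2
    exact pow_ne_zero _ ((Valuation.ne_zero_iff B.valuation).2 two_ne_zero) h2.symm

section
variable {F : Type} [Field F] [NumberField F] {n : ℕ} {d : Fin n → ℕ} {x : Fin n → F}

/-- **The L-function over `F`**. -/
theorem anF (h : Hyp d x) {S : Finset ℕ} (hS : ∀ q ∈ S, Gp q) {j : ℕ}
    (hj : ∏ q ∈ S, q = 1 + 4 * j)
    (hdet : ∀ T : Finset (Fin n),
      (mat (Qs (symmDiff S (U d T))) (Ps (symmDiff S (U d T)))).det ≠ 0) :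
    ∃ Λ : ℂ → ℂ, Differentiable ℂ Λ ∧
      (∀ s : ℂ, 2 < s.re → Λ s = (EX F (j : F)).LSeries s) ∧ Λ 1 ≠ 0 := by
  classical
  choose G g1 g2 g3 using fun T => anQ (gp_sd hS (h.gp T)) (hdet T)
  refine ⟨fun s => ∏ T : Finset (Fin n), G T s, ?_, ?_, ?_⟩
  · exact Differentiable.fun_finsetProd fun T _ => g1 T
  · intro s hs
    have hs' : 3 / 2 < s.re := by linarith
    have h1 : HasProd (fun q : Nat.Primes => ∏ T : Finset (Fin n),
        EF (∏ p ∈ symmDiff S (U d T), qch p (q : ℕ)) s q) (∏ T : Finset (Fin n), G T s) :=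
      hasProd_prod fun T _ => g2 T s hs'
    simp_rw [← prod_places h hS hj s] at h1
    have h2 := (LSeries_hasProd (EX F (j : F)) hs).2
    have h3 := (Equiv.sigmaFiberEquiv (below (K := F))).hasProd_iff.2 h2
    have h4 := h3.sigma (g := fun q : Nat.Primes =>
      ∏ v : {v : HeightOneSpectrum (𝓞 F) // below v = q}, LFD j s v.1) (fun q => hasProd_fintype _)
    exact h1.unique h4
  · exact Finset.prod_ne_zero_iff.2 fun T _ => g3 T

end

end Pool.Agent.V7H80.MQ
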