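import Pool.Agent.V7H80.MQ.Pp
import Pool.Agent.Results.MP_03e5d0_nt.FullClassX49

/-!
# The group of the numbers of the class
-/

set_option autoImplicit false
set_option linter.unusedSectionVars false

open Filter Topology

namespace Pool.Agent.V7H80.MQ

open Pool.Agent.Results.MP_4a9ea6_nt.TwoPartTwistsX49 (E twist Adm)
open Pool.Agent.Results.MP_92892c_nt.FullClassTwoPartX49 (Family RankZeroShaTwo num)
open Pool.Agent.Results.MP_03e5d0_nt.FullClassX49 (tw c Pattern)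
open Pool.Agent.R413.SQ.Joint (adm_tw tw_pf ac_tw)
open Pool.Agent.Y698.SG (Gp)

lemma pf_inj {A B : ℕ} (hA : Family A) (hB : Family B) (h : A.primeFactors = B.primeFactors) :
    A = B := by
  rw [← Nat.prod_primeFactors_of_squarefree hA.1, ← Nat.prod_primeFactors_of_squarefree hB.1, h]

lemma fam_one : Family 1 := ⟨squarefree_one, by simp⟩

lemma fam_tw {M D : ℕ} (hM : Family M) (hD : Family D) : Family (tw M D) := adm_tw hM hD

lemma pf_tw {M D : ℕ} (hM : Family M) (hD : Family D) :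
    (tw M D).primeFactors = symmDiff D.primeFactors M.primeFactors := tw_pf hM hD

lemma tw_comm' {M D : ℕ} (hM : Family M) (hD : Family D) : tw M D = tw D M := by
  apply pf_inj (fam_tw hM hD) (fam_tw hD hM)
  rw [pf_tw hM hD, pf_tw hD hM, symmDiff_comm]

lemma tw_assoc' {A B C : ℕ} (hA : Family A) (hB : Family B) (hC : Family C) :
    tw (tw A B) C = tw A (tw B C) := by
  apply pf_inj (fam_tw (fam_tw hA hB) hC) (fam_tw hA (fam_tw hB hC))
  rw [pf_tw (fam_tw hA hB) hC, pf_tw hA hB, pf_tw hA (fam_tw hB hC), pf_tw hB hC, symmDiff_assoc]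

lemma tw_one' {A : ℕ} (hA : Family A) : tw A 1 = A := by
  apply pf_inj (fam_tw hA fam_one) hA
  rw [pf_tw hA fam_one, Nat.primeFactors_one]
  exact bot_symmDiff _

lemma one_tw' {A : ℕ} (hA : Family A) : tw 1 A = A := by
  rw [tw_comm' fam_one hA, tw_one' hA]

lemma tw_self {A : ℕ} (hA : Family A) : tw A A = 1 := by
  apply pf_inj (fam_tw hA hA) fam_one
  rw [pf_tw hA hA, Nat.primeFactors_one, symmDiff_self]
  rfl

lemma tw_tw_self {A B : ℕ} (hA : Family A) (hB : Family B) : tw (tw A B) B = A := by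
  rw [tw_assoc' hA hB hB, tw_self hB, tw_one' hA]

lemma fam_prod {S : Finset ℕ} (hS : ∀ q ∈ S, Gp q) : Family (∏ q ∈ S, q) ∧
    (∏ q ∈ S, q).primeFactors = S := by
  have h2 : (∏ q ∈ S, q).primeFactors = S := Nat.primeFactors_prod fun p hp => (hS p hp).pr
  refine ⟨⟨?_, ?_⟩, h2⟩
  · refine Finset.squarefree_prod_of_pairwise_isCoprime (fun p hp q hq hpq => ?_)
      fun p hp => (hS p hp).pr.squarefree
    show IsRelPrime p q
    rw [← Nat.coprime_iff_isRelPrime]
    exact (Nat.coprime_primes (hS p hp).pr (hS q hq).pr).mpr hpq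
  · intro p hp
    rw [h2] at hp
    exact (hS p hp).m4

lemma fam_gp {N : ℕ} (hN : Family N) : ∀ q ∈ N.primeFactors, Gp q := fun q hq =>
  ⟨Nat.prime_of_mem_primeFactors hq, hN.2 q hq⟩

/-- squares -/
lemma sq_eq {A B : ℕ} (hA : Family A) (hB : Family B) (h : IsSquare (A * B)) : A = B := by
  have h1 := (ac_tw hA hB).2
  have h0 : Nat.gcd A B ≠ 0 := Nat.gcd_ne_zero_left hA.1.ne_zero
  have h2 : IsSquare (tw A B) := by
    obtain ⟨g, hg⟩ := h
    have h3 : tw A B * Nat.gcd A B ^ 2 = g * g := by rw [← hg]; exact h1.symm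
    have h4 : Nat.gcd A B ∣ g := by
      rw [← Nat.pow_dvd_pow_iff two_ne_zero, pow_two g, ← h3]
      exact Dvd.intro_left _ rfl
    obtain ⟨k, hk⟩ := h4
    refine ⟨k, ?_⟩
    rw [hk] at h3
    have h5 : tw A B * Nat.gcd A B ^ 2 = (k * k) * Nat.gcd A B ^ 2 := by rw [h3]; ring
    exact Nat.eq_of_mul_eq_mul_right (by positivity) h5
  have h3 : tw A B = 1 := by
    obtain ⟨k, hk⟩ := h2
    have h4 := (fam_tw hA hB).1 k (by rw [hk])
    rw [hk, Nat.isUnit_iff.1 h4]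
  have h4 := tw_tw_self hA hB
  rw [h3, one_tw' hB] at h4
  exact h4.symm

lemma tw_sq {A B : ℕ} (hA : Family A) (hB : Family B) : IsSquare (tw A B * A * B) := by
  have h1 := (ac_tw hA hB).2
  refine ⟨tw A B * Nat.gcd A B, ?_⟩
  rw [mul_assoc, h1]
  have : Pool.Agent.R413.SQ.Joint.tw A B = tw A B := rfl
  rw [this]
  ring

section
variable {n : ℕ}

/-- the squarefree part of the product -/
def dT (d : Fin n → ℕ) (T : Finset (Fin n)) : ℕ := ∏ q ∈ U d T, q

lemma U_gp {d : Fin n → ℕ} (hd : ∀ i, Family (d i)) (T : Finset (Fin n)) : ∀ q ∈ U d T, Gp q :=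
  fun _ hq => ⟨U_prime hq, U_mod (fun i => (hd i).2) hq⟩

lemma fam_dT {d : Fin n → ℕ} (hd : ∀ i, Family (d i)) (T : Finset (Fin n)) : Family (dT d T) :=
  (fam_prod (U_gp hd T)).1

lemma pf_dT {d : Fin n → ℕ} (hd : ∀ i, Family (d i)) (T : Finset (Fin n)) :
    (dT d T).primeFactors = U d T := (fam_prod (U_gp hd T)).2

lemma dT_symm {d : Fin n → ℕ} (hd : ∀ i, Family (d i)) (A B : Finset (Fin n)) :
    dT d (symmDiff A B) = tw (dT d A) (dT d B) := by
  have hd0 : ∀ i, d i ≠ 0 := fun i => (hd i).1.ne_zero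
  apply pf_inj (fam_dT hd _) (fam_tw (fam_dT hd _) (fam_dT hd _))
  rw [pf_dT hd, pf_tw (fam_dT hd _) (fam_dT hd _), pf_dT hd, pf_dT hd, U_symm hd0, symmDiff_comm]

lemma dT_empty {d : Fin n → ℕ} (hd : ∀ i, Family (d i)) : dT d ∅ = 1 := by
  have hd0 : ∀ i, d i ≠ 0 := fun i => (hd i).1.ne_zero
  apply pf_inj (fam_dT hd _) fam_one
  rw [pf_dT hd, Nat.primeFactors_one]
  unfold U
  rw [Finset.filter_eq_empty_iff]
  intro p _
  rw [Finset.sum_empty]
  decide

lemma dT_single {d : Fin n → ℕ} (hd : ∀ i, Family (d i)) (i : Fin n) : dT d {i} = d i := by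
  have hd0 : ∀ i, d i ≠ 0 := fun i => (hd i).1.ne_zero
  apply pf_inj (fam_dT hd _) (hd i)
  rw [pf_dT hd]
  ext p
  by_cases hp : p.Prime
  · rw [mem_U hd0 hp, Finset.sum_singleton, Nat.mem_primeFactors]
    unfold mm
    by_cases h : p ∣ d i
    · rw [if_pos h]
      exact ⟨fun _ => ⟨hp, h, hd0 i⟩, fun _ => rfl⟩
    · rw [if_neg h]
      exact ⟨fun h1 => absurd h1 (by decide), fun h1 => absurd h1.2.1 h⟩
  · exact ⟨fun h => absurd (U_prime h) hp, fun h => absurd (Nat.prime_of_mem_primeFactors h) hp⟩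

/-- the numbers are independent modulo squares -/
def Indep (d : Fin n → ℕ) : Prop :=
  ∀ T : Finset (Fin n), T.Nonempty → ¬ IsSquare (∏ i ∈ T, d i)

/-- all the twists of `E_M` by the products of the `d i` have rank zero and `Ш[2] = 0` -/
def Good (M : ℕ) (d : Fin n → ℕ) : Prop :=
  ∀ (T : Finset (Fin n)) (N : ℕ), Family N → IsSquare (N * M * ∏ i ∈ T, d i) → RankZeroShaTwo N

lemma prod_dT {d : Fin n → ℕ} (hd : ∀ i, Family (d i)) (T : Finset (Fin n)) :
    ∃ g : ℕ, g ≠ 0 ∧ ∏ i ∈ T, d i = dT d T * g ^ 2 := exists_g (fun i => (hd i).1) T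

lemma sq_mul_sq {a g : ℕ} (hg : g ≠ 0) : IsSquare (a * g ^ 2) ↔ IsSquare a := by
  constructor
  · rintro ⟨b, hb⟩
    have h4 : g ∣ b := by
      rw [← Nat.pow_dvd_pow_iff two_ne_zero, pow_two b, ← hb]
      exact Dvd.intro_left _ rfl
    obtain ⟨k, hk⟩ := h4
    refine ⟨k, ?_⟩
    rw [hk] at hb
    have h5 : a * g ^ 2 = (k * k) * g ^ 2 := by rw [hb]; ring
    exact Nat.eq_of_mul_eq_mul_right (by positivity) h5
  · rintro ⟨b, hb⟩
    exact ⟨b * g, by rw [hb]; ring⟩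

lemma good_iff {M : ℕ} (hM : Family M) {d : Fin n → ℕ} (hd : ∀ i, Family (d i)) :
    Good M d ↔ ∀ T, RankZeroShaTwo (tw M (dT d T)) := by
  constructor
  · intro h T
    refine h T _ (fam_tw hM (fam_dT hd T)) ?_
    obtain ⟨g, hg, e⟩ := prod_dT hd T
    rw [e, ← mul_assoc, sq_mul_sq hg]
    exact tw_sq hM (fam_dT hd T)
  · intro h T N hN hsq
    obtain ⟨g, hg, e⟩ := prod_dT hd T
    rw [e, ← mul_assoc, sq_mul_sq hg] at hsq
    have h1 : IsSquare (N * tw M (dT d T)) := by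
      obtain ⟨a, ha⟩ := hsq
      have h2 := (ac_tw hM (fam_dT hd T)).2
      have h3 : N * tw M (dT d T) * Nat.gcd M (dT d T) ^ 2 = a * a := by
        rw [← ha]
        have : tw M (dT d T) * Nat.gcd M (dT d T) ^ 2 = M * dT d T := h2.symm
        rw [mul_assoc, this, mul_assoc]
      have h4 : Nat.gcd M (dT d T) ≠ 0 := Nat.gcd_ne_zero_left hM.1.ne_zero
      exact (sq_mul_sq h4).1 ⟨a, h3⟩
    rw [sq_eq hN (fam_tw hM (fam_dT hd T)) h1]
    exact h T

lemma dT_inj {d : Fin n → ℕ} (hd : ∀ i, Family (d i)) (hind : Indep d) {A B : Finset (Fin n)}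
    (h : dT d A = dT d B) : A = B := by
  by_contra hne
  have h1 : (symmDiff A B).Nonempty := by
    rw [Finset.nonempty_iff_ne_empty]
    intro h0
    exact hne (symmDiff_eq_bot.1 h0)
  apply hind _ h1
  obtain ⟨g, hg, e⟩ := prod_dT hd (symmDiff A B)
  rw [e, dT_symm hd, h, tw_self (fam_dT hd B), one_mul]
  exact ⟨g, pow_two g⟩

end

end Pool.Agent.V7H80.MQ
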