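import Pool.Agent.V7H80.MQ.Pl

/-!
# The product of the Euler factors of the twists
-/

set_option autoImplicit false
set_option linter.unusedSectionVars false

open NumberField IsDedekindDomain Pool.Agent.H921R2.TatePole Pool.Agent.H82R3.EK
open Pool.Agent.Y698 Pool.Agent.Y698.SG Pool.Agent.W189.NF
open W165.CE (pw)

namespace Pool.Agent.V7H80.MQ

section comb
variable {n : ℕ}

lemma sum_sd {α : Type*} [DecidableEq α] (a : α → ZMod 2) (A B : Finset α) :
    ∑ i ∈ symmDiff A B, a i = ∑ i ∈ A, a i + ∑ i ∈ B, a i := by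
  have h1 : ∑ i ∈ A, a i = ∑ i ∈ A \ B, a i + ∑ i ∈ A ∩ B, a i := by
    rw [← Finset.sdiff_inter_self_left A B, Finset.sum_sdiff Finset.inter_subset_left]
  have h2 : ∑ i ∈ B, a i = ∑ i ∈ B \ A, a i + ∑ i ∈ A ∩ B, a i := by
    have : B \ A = B \ (A ∩ B) := by
      ext a
      simp only [Finset.mem_sdiff, Finset.mem_inter]
      tauto
    rw [this, Finset.sum_sdiff Finset.inter_subset_right]
  have h3 : ∑ i ∈ symmDiff A B, a i = ∑ i ∈ A \ B, a i + ∑ i ∈ B \ A, a i := by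
    have h4 : symmDiff A B = (A \ B) ∪ (B \ A) := rfl
    rw [h4, Finset.sum_union]
    rw [Finset.disjoint_left]
    intro a ha hb
    exact (Finset.mem_sdiff.1 ha).2 (Finset.mem_sdiff.1 hb).1
  rw [h1, h2, h3]
  have h5 : ∀ z : ZMod 2, z + z = 0 := by decide
  linear_combination -(h5 (∑ i ∈ A ∩ B, a i))

lemma half (K : Finset (Finset (Fin n))) (a : Fin n → ZMod 2) (T0 : Finset (Fin n))
    (hK : ∀ T ∈ K, symmDiff T T0 ∈ K) (h0 : ∑ i ∈ T0, a i = 1) :
    (K.filter fun T => ∑ i ∈ T, a i = 0).card = (K.filter fun T => ∑ i ∈ T, a i = 1).card := by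
  classical
  have hz : ∀ z : ZMod 2, z + 1 = 1 ↔ z = 0 := by decide
  have hz' : ∀ z : ZMod 2, z + 1 = 0 ↔ z = 1 := by decide
  refine Finset.card_bij' (fun T _ => symmDiff T T0) (fun T _ => symmDiff T T0) ?_ ?_ ?_ ?_
  · intro T hT
    rw [Finset.mem_filter] at hT ⊢
    refine ⟨hK T hT.1, ?_⟩
    rw [sum_sd, hT.2, h0, zero_add]
  · intro T hT
    rw [Finset.mem_filter] at hT ⊢
    refine ⟨hK T hT.1, ?_⟩
    rw [sum_sd, hT.2, h0]
    decide
  · intro T _
    simp
  · intro T _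
    simp

lemma split_card (K : Finset (Finset (Fin n))) (a : Fin n → ZMod 2) :
    (K.filter fun T => ∑ i ∈ T, a i = 0).card + (K.filter fun T => ∑ i ∈ T, a i = 1).card =
      K.card := by
  classical
  rw [← Finset.card_filter_add_card_filter_not (s := K) (fun T => ∑ i ∈ T, a i = 0)]
  congr 2
  apply Finset.filter_congr
  intro T _
  have hz : ∀ z : ZMod 2, z = 1 ↔ ¬ z = 0 := by decide
  exact hz _

lemma card_all : (Finset.univ : Finset (Finset (Fin n))).card = 2 ^ n := by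
  rw [Finset.card_univ, Fintype.card_finset, Fintype.card_fin]

/-- the kernel -/
lemma card_ker (d : Fin n → ℕ) (p : ℕ) :
    ((Finset.univ : Finset (Finset (Fin n))).filter fun T => ∑ i ∈ T, mm d p i = 0).card *
      (if ∃ i, p ∣ d i then 2 else 1) = 2 ^ n := by
  classical
  by_cases h : ∃ i, p ∣ d i
  · rw [if_pos h]
    obtain ⟨i, hi⟩ := h
    have h1 := half (Finset.univ : Finset (Finset (Fin n))) (mm d p) {i}
      (fun T _ => Finset.mem_univ _) (by rw [Finset.sum_singleton]; exact if_pos hi)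
    have h2 := split_card (Finset.univ : Finset (Finset (Fin n))) (mm d p)
    rw [card_all] at h2
    omega
  · rw [if_neg h, mul_one, ← card_all]
    congr 1
    rw [Finset.filter_eq_self]
    intro T _
    push Not at h
    exact Finset.sum_eq_zero fun i _ => if_neg (h i)

lemma prod_two {K : Finset (Finset (Fin n))} (a : Fin n → ZMod 2) (g : ZMod 2 → ℂ) :
    ∏ T ∈ K, g (∑ i ∈ T, a i) = g 0 ^ (K.filter fun T => ∑ i ∈ T, a i = 0).card *
      g 1 ^ (K.filter fun T => ∑ i ∈ T, a i = 1).card := by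
  classical
  rw [← Finset.prod_filter_mul_prod_filter_not K (fun T => ∑ i ∈ T, a i = 0)]
  congr 1
  · rw [Finset.prod_congr rfl (g := fun _ => g 0), Finset.prod_const]
    intro T hT
    rw [(Finset.mem_filter.1 hT).2]
  · have hz : ∀ z : ZMod 2, ¬ z = 0 ↔ z = 1 := by decide
    have h1 : (K.filter fun T => ¬ ∑ i ∈ T, a i = 0) = K.filter fun T => ∑ i ∈ T, a i = 1 :=
      Finset.filter_congr fun T _ => hz _
    rw [h1, Finset.prod_congr rfl (g := fun _ => g 1), Finset.prod_const]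
    intro T hT
    rw [(Finset.mem_filter.1 hT).2]

end comb

section
variable {F : Type} [Field F] [NumberField F] {n : ℕ} {d : Fin n → ℕ} {x : Fin n → F}

lemma EF_zero (s : ℂ) (q : ℕ) : EF 0 s q = 1 := by
  unfold EF
  rw [zero_mul, mul_zero, sub_zero, zero_pow two_ne_zero, mul_zero, add_zero, inv_one]

/-- the product over the twists -/
theorem prod_T (h : Hyp d x) {S : Finset ℕ} (hS : ∀ q ∈ S, Gp q) (p : Nat.Primes)
    (hcase : (p : ℕ) ∉ S ∨ ¬ ∃ i, (p : ℕ) ∣ d i) (s : ℂ) {f N : ℕ} {v : Fin n → ZMod 2}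
    (k1 : f = 1 ∨ f = 2)
    (k2 : f = 1 ↔ ∀ T : Finset (Fin n), ∑ i ∈ T, mm d p i = 0 → ∑ i ∈ T, v i = 0)
    (k3 : ∀ T : Finset (Fin n), ∑ i ∈ T, mm d p i = 0 →
        jacobiSym (p : ℕ) (∏ q ∈ U d T, q) = (-1) ^ (∑ i ∈ T, v i).val)
    (k5 : N * f * (if ∃ i, (p : ℕ) ∣ d i then 2 else 1) = 2 ^ n) :
    ∏ T : Finset (Fin n), EF (∏ q ∈ symmDiff S (U d T), qch q (p : ℕ)) s p =
      (1 - (∏ q ∈ S, qch q (p : ℕ)) ^ f * pw (bc (p : ℕ)) (ec (p : ℕ)) f *
        (((p : ℕ) : ℂ) ^ (-s)) ^ f + ((∏ q ∈ S, qch q (p : ℕ)) ^ 2 * ec (p : ℕ)) ^ f *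
        ((((p : ℕ) : ℂ) ^ (-s)) ^ f) ^ 2)⁻¹ ^ N := by
  classical
  have hd0 : ∀ i, d i ≠ 0 := fun i => (h.sqf i).ne_zero
  have hUG : ∀ T, ∀ q ∈ U d T, Gp q := fun T q hq => ⟨U_prime hq, U_mod h.four hq⟩
  have hzero : ∀ {A : Finset ℕ}, (p : ℕ) ∈ A → ∏ q ∈ A, qch q (p : ℕ) = 0 := by
    intro A hA
    refine Finset.prod_eq_zero hA ?_
    rcases qch_val p.2 ((p : ℕ) : ℤ) with h | h
    · exact h.2
    · exact absurd dvd_rfl h.1
  set ε : ℂ := ∏ q ∈ S, qch q (p : ℕ) with hε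
  have hf0 : f ≠ 0 := by rcases k1 with h | h <;> omega
  by_cases hpS : (p : ℕ) ∈ S
  · have hno := hcase.resolve_left (fun h => h hpS)
    have h1 : ∀ T : Finset (Fin n), EF (∏ q ∈ symmDiff S (U d T), qch q (p : ℕ)) s p = 1 := by
      intro T
      have h2 : (p : ℕ) ∉ U d T := by
        rw [mem_U hd0 p.2, Finset.sum_eq_zero]
        · decide
        · intro i _
          exact if_neg fun h => hno ⟨i, h⟩
      rw [hzero (Finset.mem_symmDiff.2 (Or.inl ⟨hpS, h2⟩)), EF_zero]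
    rw [Finset.prod_congr rfl (fun T _ => h1 T), Finset.prod_const_one]
    have hε0 : ε = 0 := hzero hpS
    rw [hε0, zero_pow hf0, zero_mul, zero_mul, zero_pow two_ne_zero, zero_mul, zero_pow hf0,
      zero_mul, sub_zero, add_zero, inv_one, one_pow]
  · set K := (Finset.univ : Finset (Finset (Fin n))).filter fun T => ∑ i ∈ T, mm d p i = 0
      with hK
    have hK0 := card_ker d (p : ℕ)
    rw [← hK] at hK0
    set g : ZMod 2 → ℂ := fun a => EF (ε * (-1) ^ a.val) s p with hg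
    have hin : ∀ T ∈ K, EF (∏ q ∈ symmDiff S (U d T), qch q (p : ℕ)) s p =
        g (∑ i ∈ T, v i) := by
      intro T hT
      have hT0 := (Finset.mem_filter.1 hT).2
      have h1 := prod_sd (fun q => qch q ((p : ℕ) : ℤ)) S (U d T)
      have h2 : (∏ q ∈ S ∩ U d T, qch q ((p : ℕ) : ℤ)) ^ 2 = 1 := by
        refine qprod_sq (fun q hq => (hS q (Finset.mem_inter.1 hq).1).pr) fun q hq hd => ?_
        have h3 : q ∣ (p : ℕ) := by exact_mod_cast hd
        have h4 := (Nat.prime_dvd_prime_iff_eq (hS q (Finset.mem_inter.1 hq).1).pr p.2).1 h3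
        exact hpS (h4 ▸ (Finset.mem_inter.1 hq).1)
      rw [h2, mul_one] at h1
      have h3 : ∏ q ∈ U d T, qch q ((p : ℕ) : ℤ) = (-1) ^ (∑ i ∈ T, v i).val := by
        rw [eps_eq (hUG T), k3 T hT0]
        push_cast
        rfl
      rw [h3] at h1
      rw [← h1]
    have hout : ∀ T ∈ (Finset.univ : Finset (Finset (Fin n))), T ∉ K →
        EF (∏ q ∈ symmDiff S (U d T), qch q (p : ℕ)) s p = 1 := by
      intro T _ hT
      have h1 : ¬ ∑ i ∈ T, mm d p i = 0 := fun h => hT (Finset.mem_filter.2 ⟨Finset.mem_univ _, h⟩)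
      have h2 : (p : ℕ) ∈ U d T := by
        rw [mem_U hd0 p.2]
        exact (two_cases _).resolve_left h1
      rw [hzero (Finset.mem_symmDiff.2 (Or.inr ⟨h2, hpS⟩)), EF_zero]
    rw [← Finset.prod_subset (Finset.subset_univ K) hout, Finset.prod_congr rfl hin, prod_two v g]
    have hg0 : g 0 = (1 - bc p * (ε * ((p : ℕ) : ℂ) ^ (-s)) +
        ec p * (ε * ((p : ℕ) : ℂ) ^ (-s)) ^ 2)⁻¹ := by
      rw [hg]
      simp only [ZMod.val_zero, pow_zero, mul_one]
      rfl
    have hg1 : g 1 = (1 - bc p * (-ε * ((p : ℕ) : ℂ) ^ (-s)) +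
        ec p * (-ε * ((p : ℕ) : ℂ) ^ (-s)) ^ 2)⁻¹ := by
      have h1' : (1 : ZMod 2).val = 1 := rfl
      rw [hg]
      simp only [h1', pow_one, mul_neg, mul_one]
      rfl
    have hcd := split_card K v
    have he0 : 0 < (if ∃ i, (p : ℕ) ∣ d i then 2 else 1) := by split_ifs <;> norm_num
    rcases k1 with hf | hf
    · have h1 := k2.1 hf
      have h2 : (K.filter fun T => ∑ i ∈ T, v i = 1) = ∅ := by
        rw [Finset.filter_eq_empty_iff]
        intro T hT
        rw [h1 T (Finset.mem_filter.1 hT).2]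
        decide
      rw [h2, Finset.card_empty, add_zero] at hcd
      rw [h2, Finset.card_empty, pow_zero, mul_one, hcd]
      have h3 : K.card = N := by
        rw [hf, mul_one] at k5
        exact Nat.eq_of_mul_eq_mul_right he0 (hK0.trans k5.symm)
      rw [h3, hg0, hf]
      have e : pw (bc (p : ℕ)) (ec (p : ℕ)) 1 = bc (p : ℕ) := rfl
      rw [e, pow_one, pow_one, pow_one]
      congr 2
      ring
    · have h1 : ¬ ∀ T : Finset (Fin n), ∑ i ∈ T, mm d p i = 0 → ∑ i ∈ T, v i = 0 := by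
        intro h
        have := k2.2 h
        omega
      push Not at h1
      obtain ⟨T0, hT0, hv0⟩ := h1
      have hv1 := (two_cases (∑ i ∈ T0, v i)).resolve_left hv0
      have h2 := half K v T0 (by
        intro T hT
        rw [hK, Finset.mem_filter] at hT ⊢
        refine ⟨Finset.mem_univ _, ?_⟩
        rw [sum_sd, hT.2, hT0, add_zero]) hv1
      have h3 : K.card = N * 2 := by
        rw [hf] at k5
        exact Nat.eq_of_mul_eq_mul_right he0 (hK0.trans k5.symm)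
      have h4 : (K.filter fun T => ∑ i ∈ T, v i = 0).card = N := by omega
      rw [← h2, h4, ← mul_pow, hg0, hg1, ← mul_inv, hf]
      have e : pw (bc (p : ℕ)) (ec (p : ℕ)) 2 = bc (p : ℕ) * bc (p : ℕ) - ec (p : ℕ) * 2 := rfl
      rw [e]
      congr 2
      ring

end

end Pool.Agent.V7H80.MQ
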