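import Pool.Agent.V7H80.MQ.Law
import Pool.Agent.R413.SQ.Low2

/-!
# Few numbers of the class have few prime factors
-/

set_option autoImplicit false
set_option linter.unusedSectionVars false

open Filter Topology

namespace Pool.Agent.V7H80.MQ

open Pool.Agent.Results.MP_92892c_nt.FullClassTwoPartX49 (Family RankZeroShaTwo num)
open Pool.Agent.Results.MP_03e5d0_nt.FullClassX49 (tw c Pattern an_of sel_det)
open Pool.Agent.R413.SQ (SS Cl dl of_pr1 pr1)
open Pool.Agent.Y703.CX (sm la jj XX eL zz kk S_SIE)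

lemma num_SS (Q : Finset ℕ → Prop) [hQ : DecidablePred Q] (X : ℕ) :
    num (fun D => Q D.primeFactors) X = ((SS ∅ ∅ X).filter Q).card := by
  have h := Pool.Agent.R413.SQ.NS.card_eq ∅ ∅ X Q
  obtain rfl : hQ = fun a => Classical.propDecidable (Q a) := Subsingleton.elim _ _
  refine Eq.trans ?_ h
  classical
  unfold num
  refine congrArg Finset.card ?_
  ext D
  rw [Finset.mem_filter, Finset.mem_filter]
  refine and_congr_right fun _ => ?_
  constructor
  · rintro ⟨h1, h2⟩
    exact ⟨h1.1, fun p hp => of_pr1 ∅ (Nat.prime_of_mem_primeFactors hp) (h1.2 p hp), h2⟩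
  · rintro ⟨h1, h2, h3⟩
    exact ⟨⟨h1, fun p hp => (pr1 (h2 p hp)).2⟩, h3⟩

/-- the sum of two counts -/
lemma num_split {Q R S : ℕ → Prop} (h : ∀ D, Family D → Q D → R D ∨ S D) (X : ℕ) :
    num Q X ≤ num R X + num S X := by
  classical
  unfold num
  refine (Finset.card_le_card (t := ((Finset.Icc 1 X).filter fun D => Family D ∧ R D) ∪
    ((Finset.Icc 1 X).filter fun D => Family D ∧ S D)) fun D hD => ?_).trans
    (Finset.card_union_le _ _)
  rw [Finset.mem_filter] at hD
  rw [Finset.mem_union, Finset.mem_filter, Finset.mem_filter]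
  exact (h D hD.2.1 hD.2.2).imp (fun h1 => ⟨hD.1, hD.2.1, h1⟩) fun h1 => ⟨hD.1, hD.2.1, h1⟩

theorem few (k : ℕ) : Tendsto (fun X : ℕ => (num (fun D => D.primeFactors.card < k) X : ℝ) /
    (num (fun _ => True) X : ℝ)) atTop (𝓝 0) := by
  obtain ⟨C, X₀, hC⟩ := Pool.Agent.R413.SQ.FEW.t_FEW Pool.Agent.Y488.CX.t_SIE Pool.Agent.Y405.CQ.t_MER ∅ ∅ k trivial
  obtain ⟨a, X₁, ha, h1⟩ := Pool.Agent.R413.SQ.LOW.t_LOW Pool.Agent.Y405.CQ.t_MER
    Pool.Agent.Y302.CQ.t_CHE ∅ ∅ trivial
  have hT : ∀ X, num (fun _ => True) X = (SS ∅ ∅ X).card := by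
    intro X
    classical
    rw [num_SS (fun _ => True) X]
    exact congrArg Finset.card (Finset.filter_true _)
  -- the bound
  have h2 : Tendsto (fun X : ℕ => |C| / a * (Real.log X) ^ (-(1 / 32) : ℝ)) atTop (𝓝 0) := by
    have h3 : Tendsto (fun X : ℕ => (Real.log X) ^ (-(1 / 32) : ℝ)) atTop (𝓝 0) :=
      (tendsto_rpow_neg_atTop (by norm_num : (0 : ℝ) < 1 / 32)).comp
        (Real.tendsto_log_atTop.comp tendsto_natCast_atTop_atTop)
    have h4 := h3.const_mul (|C| / a)
    rwa [mul_zero] at h4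
  refine squeeze_zero' (Eventually.of_forall fun X => by positivity) ?_ h2
  filter_upwards [eventually_ge_atTop X₀, eventually_ge_atTop X₁, eventually_ge_atTop 3] with
    X hX hX1 hX3
  have hX0 : (0 : ℝ) < X := by exact_mod_cast (by omega : 0 < X)
  have hL : 0 < Real.log X := Real.log_pos (by exact_mod_cast (by omega : 1 < X))
  have k1 : (num (fun D => D.primeFactors.card < k) X : ℝ) ≤
      |C| * X * (Real.log X) ^ (-1 + dl ∅ - 1 / 32 : ℝ) := by
    refine le_trans ?_ ((hC X hX).trans ?_)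
    · rw [num_SS (fun S => S.card < k) X]
      refine Nat.cast_le.2 (Finset.card_le_card fun S hS => ?_)
      have hS := Finset.mem_filter.1 hS
      refine Finset.mem_filter.2 ⟨hS.1, Or.inl ?_⟩
      refine le_trans (Finset.card_le_card ((Finset.filter_subset _ _).trans ?_))
        (hS.2.le.trans (Nat.le_add_left _ _))
      unfold la
      exact Finset.filter_subset _ _
    · refine mul_le_mul_of_nonneg_right (mul_le_mul_of_nonneg_right (le_abs_self C) hX0.le) ?_
      exact (Real.rpow_pos_of_pos hL _).le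
  have k2 := h1 X hX1
  rw [← hT] at k2
  have k3 : 0 < a * X * (Real.log X) ^ (-1 + dl ∅ : ℝ) :=
    mul_pos (mul_pos ha hX0) (Real.rpow_pos_of_pos hL _)
  rw [div_le_iff₀ (lt_of_lt_of_le k3 k2)]
  refine k1.trans ?_
  have k4 : |C| / a * (Real.log X) ^ (-(1 / 32) : ℝ) *
      (a * X * (Real.log X) ^ (-1 + dl ∅ : ℝ)) =
      |C| * X * (Real.log X) ^ (-1 + dl ∅ - 1 / 32 : ℝ) := by
    have e : (-1 + dl ∅ - 1 / 32 : ℝ) = -(1 / 32) + (-1 + dl ∅) := by ring
    have e2 := Real.rpow_add hL (-(1 / 32)) (-1 + dl ∅)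
    rw [e, e2]
    generalize (Real.log X) ^ (-(1 / 32) : ℝ) = u
    generalize (Real.log X) ^ (-1 + dl ∅ : ℝ) = w
    field_simp
  rw [← k4]
  exact mul_le_mul_of_nonneg_left k2 (by positivity)

/-- adding the condition that there are many prime factors -/
theorem law_many {Q : ℕ → Prop} {b : ℝ} (h : Tendsto (fun X : ℕ => (num Q X : ℝ) /
    (num (fun _ => True) X : ℝ)) atTop (𝓝 b)) (k : ℕ) :
    Tendsto (fun X : ℕ => (num (fun D => Q D ∧ k ≤ D.primeFactors.card) X : ℝ) /
      (num (fun _ => True) X : ℝ)) atTop (𝓝 b) := by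
  have h1 := h.sub (few k)
  rw [sub_zero] at h1
  refine tendsto_of_tendsto_of_tendsto_of_le_of_le h1 h (fun X => ?_) (fun X => ?_)
  · show (num Q X : ℝ) / (num (fun _ => True) X : ℝ) -
      (num (fun D => D.primeFactors.card < k) X : ℝ) / (num (fun _ => True) X : ℝ) ≤
      (num (fun D => Q D ∧ k ≤ D.primeFactors.card) X : ℝ) / (num (fun _ => True) X : ℝ)
    rw [← sub_div]
    refine div_le_div_of_nonneg_right ?_ (Nat.cast_nonneg _)
    rw [sub_le_iff_le_add]
    have h2 : num Q X ≤ num (fun D => Q D ∧ k ≤ D.primeFactors.card) X +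
        num (fun D => D.primeFactors.card < k) X := by
      refine num_split (fun D _ h => ?_) X
      by_cases hk : D.primeFactors.card < k
      · exact Or.inr hk
      · exact Or.inl ⟨h, not_lt.1 hk⟩
    have h3 := (Nat.cast_le (α := ℝ)).2 h2
    rwa [Nat.cast_add] at h3
  · refine div_le_div_of_nonneg_right ?_ (Nat.cast_nonneg _)
    exact Nat.cast_le.2 (num_mono (Q := fun D => Q D ∧ k ≤ D.primeFactors.card) (R := Q)
      (fun D _ h2 => h2.1) X)

/-- an element of the class with many prime factors -/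
theorem exists_D' {T : Finset ℕ} (hT : ∀ M ∈ T, Family M) (B : Finset ℕ) (k : ℕ) :
    ∃ D, Family D ∧ D ∉ B ∧ k ≤ D.primeFactors.card ∧ ∀ M ∈ T, RankZeroShaTwo (tw M D) := by
  by_contra hcon
  push Not at hcon
  have h1 := law_many (law_set hT).1 k
  have h3 : Tendsto (fun X : ℕ => (num (fun _ => True) X : ℝ)) atTop atTop := by
    refine tendsto_atTop_mono (fun X => ?_) (num_unb (law_set hT).2)
    exact_mod_cast num_mono (Q := fun D => ∀ M ∈ T, RankZeroShaTwo (tw M D)) (R := fun _ => True)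
      (fun _ _ _ => trivial) X
  have h4 : Tendsto (fun X : ℕ => (B.card : ℝ) / (num (fun _ => True) X : ℝ)) atTop (𝓝 0) :=
    h3.const_div_atTop _
  have h5 := le_of_tendsto_of_tendsto' h1 h4 fun X => by
    refine div_le_div_of_nonneg_right ?_ (Nat.cast_nonneg _)
    have h6 : num (fun D => (∀ M ∈ T, RankZeroShaTwo (tw M D)) ∧ k ≤ D.primeFactors.card) X ≤
        B.card := by
      have h7 := num_add (Q := fun D => (∀ M ∈ T, RankZeroShaTwo (tw M D)) ∧
        k ≤ D.primeFactors.card) (R := fun D => False) B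
        (fun D hD h8 h9 => by
          obtain ⟨M, hM, h10⟩ := hcon D hD h9 h8.2
          exact h10 (h8.1 M hM)) X
      rwa [num_false, zero_add] at h7
    exact_mod_cast h6
  have h6 := pow_pos c_pos T.card
  linarith

end Pool.Agent.V7H80.MQ
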