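import Mathlib

/-!
# Multiquadratic fields
-/

set_option autoImplicit false
set_option linter.unusedSectionVars false

open NumberField IsDedekindDomain Polynomial

namespace Pool.Agent.V7H80.MQ

/-- `F` is generated by the square roots `x i` of the numbers `d i` -/
structure Gen {F : Type} [Field F] {n : ℕ} (d : Fin n → ℕ) (x : Fin n → F) : Prop where
  sq : ∀ i, x i ^ 2 = (d i : F)
  top : ∀ L : Subfield F, (∀ i, x i ∈ L) → L = ⊤

section gal

variable {F : Type} [Field F] [NumberField F] {n : ℕ} {d : Fin n → ℕ} {x : Fin n → F}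

theorem gal (h : Gen d x) : IsGalois ℚ F := by
  classical
  set p : ℚ[X] := ∏ i, (X ^ 2 - C (d i : ℚ)) with hp
  have hp0 : p ≠ 0 := Finset.prod_ne_zero_iff.2 fun i _ => X_pow_sub_C_ne_zero (by norm_num) _
  have hmap : p.map (algebraMap ℚ F) = ∏ i, ((X - C (x i)) * (X - C (-x i))) := by
    rw [hp, Polynomial.map_prod]
    refine Finset.prod_congr rfl fun i _ => ?_
    rw [Polynomial.map_sub, Polynomial.map_pow, Polynomial.map_X, Polynomial.map_C, map_natCast,
      ← h.sq i, C_neg, C_pow]
    ring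
  have hsplit : (p.map (algebraMap ℚ F)).Splits := by
    rw [hmap]
    refine Splits.prod fun i _ => ?_
    exact (Splits.X_sub_C _).mul (Splits.X_sub_C _)
  have hspl : IsSplittingField ℚ F p := by
    rw [isSplittingField_iff_intermediateField]
    refine ⟨hsplit, ?_⟩
    have h1 := h.top (IntermediateField.adjoin ℚ (p.rootSet F)).toSubfield (fun i => by
        apply IntermediateField.subset_adjoin ℚ (p.rootSet F)
        rw [mem_rootSet]
        refine ⟨hp0, ?_⟩
        rw [hp, map_prod]
        apply Finset.prod_eq_zero (Finset.mem_univ i)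
        rw [map_sub, map_pow, aeval_X, aeval_C, h.sq i, map_natCast, sub_self])
    rw [eq_top_iff]
    intro y _
    have h2 : y ∈ (IntermediateField.adjoin ℚ (p.rootSet F)).toSubfield := by rw [h1]; trivial
    exact h2
  have hnor : Normal ℚ F := Normal.of_isSplittingField p
  have hsep : Algebra.IsSeparable ℚ F := Algebra.IsAlgebraic.isSeparable_of_perfectField
  exact ⟨⟩

theorem ext_one (h : Gen d x) {σ : Gal(F/ℚ)} (hσ : ∀ i, σ (x i) = x i) : σ = 1 := by
  have h5 := h.top (RingHom.eqLocusField (σ : F →+* F) (RingHom.id F)) hσ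
  ext y
  have h7 : y ∈ RingHom.eqLocusField (σ : F →+* F) (RingHom.id F) := by rw [h5]; trivial
  exact h7

/-- the sign -/
theorem sgn_ex (h : Gen d x) (σ : Gal(F/ℚ)) (i : Fin n) : ∃ a : ZMod 2,
    σ (x i) = (-1) ^ a.val * x i := by
  have h1 : σ (x i) ^ 2 = x i ^ 2 := by rw [← map_pow, h.sq, map_natCast]
  rcases sq_eq_sq_iff_eq_or_eq_neg.1 h1 with h2 | h2
  · exact ⟨0, by rw [h2]; simp⟩
  · refine ⟨1, ?_⟩
    have : (1 : ZMod 2).val = 1 := rfl
    rw [this, pow_one, neg_one_mul]
    exact h2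

lemma neg_pow_add {L : Type} [Ring L] (a b : ZMod 2) :
    (-1 : L) ^ (a + b).val = (-1) ^ a.val * (-1) ^ b.val := by
  have h : ∀ a b : ZMod 2, (a + b).val + 2 * (a.val * b.val) = a.val + b.val := by decide
  rw [← pow_add, ← h a b, pow_add, pow_mul, neg_one_sq, one_pow, mul_one]

lemma neg_pow_sum {L : Type} [CommRing L] {I : Type} (s : Finset I) (f : I → ZMod 2) :
    (-1 : L) ^ (∑ i ∈ s, f i).val = ∏ i ∈ s, (-1) ^ (f i).val := by
  classical
  induction s using Finset.induction_on with
  | empty => simp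
  | insert a s ha ih => rw [Finset.sum_insert ha, Finset.prod_insert ha, neg_pow_add, ih]

lemma neg_pow_inj {L : Type} [Field L] [CharZero L] {a b : ZMod 2}
    (h : (-1 : L) ^ a.val = (-1) ^ b.val) : a = b := by
  have hz : ∀ a : ZMod 2, a = 0 ∨ a = 1 := by decide
  have h1 : (1 : ZMod 2).val = 1 := rfl
  have h2 : (-1 : L) ≠ 1 := by
    intro h
    have : (2 : L) = 0 := by linear_combination -h
    exact two_ne_zero this
  rcases hz a with rfl | rfl <;> rcases hz b with rfl | rfl
  · rfl
  · rw [h1, ZMod.val_zero, pow_zero, pow_one] at h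
    exact absurd h.symm h2
  · rw [h1, ZMod.val_zero, pow_zero, pow_one] at h
    exact absurd h h2
  · rfl

theorem xne (h : Gen d x) (hd0 : ∀ i, d i ≠ 0) (i : Fin n) : x i ≠ 0 := by
  intro h0
  have h1 := h.sq i
  rw [h0, zero_pow (by norm_num)] at h1
  exact hd0 i (by exact_mod_cast h1.symm)

/-- **The signs can be prescribed.** -/
theorem presc (h : Gen d x)
    (hind : ∀ T : Finset (Fin n), T.Nonempty → ¬ IsSquare (∏ i ∈ T, d i)) (v : Fin n → ZMod 2) :
    ∃ σ : Gal(F/ℚ), ∀ i, σ (x i) = (-1) ^ (v i).val * x i := by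
  classical
  have hG := gal h
  let H : Submodule (ZMod 2) (Fin n → ZMod 2) :=
    { carrier := {v | ∃ σ : Gal(F/ℚ), ∀ i, σ (x i) = (-1) ^ (v i).val * x i}
      zero_mem' := ⟨1, fun i => by simp⟩
      add_mem' := by
        rintro a b ⟨σ, hσ⟩ ⟨τ, hτ⟩
        refine ⟨σ * τ, fun i => ?_⟩
        rw [AlgEquiv.mul_apply, hτ, map_mul, map_pow, map_neg, map_one, hσ, Pi.add_apply,
          neg_pow_add]
        ring
      smul_mem' := by
        rintro y b ⟨σ, hσ⟩
        have hy : y = 0 ∨ y = 1 := by revert y; decide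
        rcases hy with rfl | rfl
        · exact ⟨1, fun i => by simp⟩
        · exact ⟨σ, fun i => by rw [one_smul]; exact hσ i⟩ }
  by_contra hcon
  have hlt : H < ⊤ := lt_top_iff_ne_top.2 fun h => hcon (by
    have : v ∈ H := by rw [h]; trivial
    exact this)
  obtain ⟨φ, hφ0, hφ⟩ := Submodule.exists_le_ker_of_lt_top H hlt
  set a : Fin n → ZMod 2 := fun i => φ (Pi.single i 1) with ha
  have hφv : ∀ u : Fin n → ZMod 2, φ u = ∑ i, u i * a i := by
    intro u
    have h1 : u = ∑ i, u i • (Pi.single i (1 : ZMod 2) : Fin n → ZMod 2) := by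
      ext j
      rw [Finset.sum_apply, Finset.sum_eq_single j]
      · simp
      · intro b _ hb
        rw [Pi.smul_apply, Pi.single_eq_of_ne hb.symm, smul_zero]
      · intro h; exact absurd (Finset.mem_univ _) h
    conv_lhs => rw [h1]
    rw [map_sum]
    refine Finset.sum_congr rfl fun i _ => ?_
    rw [map_smul, smul_eq_mul]
  set T : Finset (Fin n) := Finset.univ.filter fun i => a i ≠ 0 with hT
  have hne : T.Nonempty := by
    rw [Finset.nonempty_iff_ne_empty]
    intro hTe
    apply hφ0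
    ext i
    have h2 := hφv (Pi.single i 1)
    have h3 : ∀ j, a j = 0 := by
      intro j
      by_contra hj
      have : j ∈ T := by rw [hT, Finset.mem_filter]; exact ⟨Finset.mem_univ _, hj⟩
      rw [hTe] at this
      exact absurd this (Finset.notMem_empty _)
    rw [Finset.sum_eq_zero (fun j _ => by rw [h3 j, mul_zero])] at h2
    simpa using h2
  have ha1 : ∀ i ∈ T, a i = 1 := by
    intro i hi
    have h1 : a i ≠ 0 := (Finset.mem_filter.1 hi).2
    revert h1
    generalize a i = b
    revert b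
    decide
  apply hind T hne
  have hfix : ∀ σ : Gal(F/ℚ), σ (∏ i ∈ T, x i) = ∏ i ∈ T, x i := by
    intro σ
    choose u hu using sgn_ex h σ
    have h1 : u ∈ H := ⟨σ, hu⟩
    have h2 := hφ h1
    rw [LinearMap.mem_ker, hφv] at h2
    have h3 : ∑ i ∈ T, u i = 0 := by
      rw [← h2]
      have e1 : ∑ i ∈ T, u i = ∑ i ∈ T, u i * a i :=
        Finset.sum_congr rfl fun i hi => by rw [ha1 i hi, mul_one]
      rw [e1]
      refine Finset.sum_subset (Finset.subset_univ T) fun i _ hi => ?_
      have h6 : a i = 0 := by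
        by_contra hj
        exact hi (by rw [hT, Finset.mem_filter]; exact ⟨Finset.mem_univ _, hj⟩)
      rw [h6, mul_zero]
    rw [map_prod, Finset.prod_congr rfl fun i _ => hu i, Finset.prod_mul_distrib, ← neg_pow_sum, h3]
    simp
  obtain ⟨e, he⟩ := (IsGalois.mem_range_algebraMap_iff_fixed (F := ℚ) (∏ i ∈ T, x i)).2 hfix
  have h4 : e ^ 2 = ((∏ i ∈ T, d i : ℕ) : ℚ) := by
    apply (algebraMap ℚ F).injective
    rw [map_pow, he, map_natCast, ← Finset.prod_pow, Nat.cast_prod]
    exact Finset.prod_congr rfl fun i _ => h.sq i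
  have h5 : IsSquare (((∏ i ∈ T, d i : ℕ) : ℚ)) := ⟨e, by rw [← h4]; ring⟩
  exact (Rat.isSquare_natCast_iff).1 h5

/-- the order of the group -/
theorem card_gal (h : Gen d x) (hd0 : ∀ i, d i ≠ 0)
    (hind : ∀ T : Finset (Fin n), T.Nonempty → ¬ IsSquare (∏ i ∈ T, d i)) :
    Nat.card Gal(F/ℚ) = 2 ^ n := by
  classical
  choose u hu using fun σ : Gal(F/ℚ) => sgn_ex h σ
  have hbij : Function.Bijective u := by
    constructor
    · intro σ τ hστ
      have h3 : τ⁻¹ * σ = 1 := by
        apply ext_one h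
        intro i
        rw [AlgEquiv.mul_apply, hu σ i, hστ, ← hu τ i]
        exact τ.symm_apply_apply _
      rw [inv_mul_eq_one] at h3
      exact h3.symm
    · intro v
      obtain ⟨σ, hσ⟩ := presc h hind v
      refine ⟨σ, ?_⟩
      funext i
      have h3 := hu σ i
      rw [hσ i] at h3
      exact (neg_pow_inj (mul_right_cancel₀ (xne h hd0 i) h3)).symm
  rw [Nat.card_congr (Equiv.ofBijective _ hbij)]
  simp [ZMod.card]

theorem sq_one (h : Gen d x) (σ : Gal(F/ℚ)) : σ * σ = 1 := by
  apply ext_one h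
  intro i
  obtain ⟨a, ha⟩ := sgn_ex h σ i
  rw [AlgEquiv.mul_apply, ha, map_mul, map_pow, map_neg, map_one, ha, ← mul_assoc, ← neg_pow_add,
    CharTwo.add_self_eq_zero, ZMod.val_zero, pow_zero, one_mul]

end gal

end Pool.Agent.V7H80.MQ
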