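import Pool.Agent.V7H80.MQ.Cls

/-!
# The laws
-/

set_option autoImplicit false
set_option linter.unusedSectionVars false

open Filter Topology

namespace Pool.Agent.V7H80.MQ

open Pool.Agent.Results.MP_4a9ea6_nt.TwoPartTwistsX49 (E twist Adm mat core)
open Pool.Agent.Results.MP_92892c_nt.FullClassTwoPartX49 (Family RankZeroShaTwo num)
open Pool.Agent.Results.MP_03e5d0_nt.FullClassX49 (tw c Pattern an_of sel_det)

lemma c_pos : 0 < c := by
  have := Pool.Agent.Results.MP_03e5d0_nt.FullClassX49.result.2.2.1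
  linarith

/-! ### Counting -/

lemma num_congr {Q R : ℕ → Prop} (h : ∀ D, Family D → (Q D ↔ R D)) (X : ℕ) :
    num Q X = num R X := by
  classical
  unfold num
  exact congrArg Finset.card (Finset.filter_congr fun D _ => and_congr_right fun hD => h D hD)

lemma num_mono {Q R : ℕ → Prop} (h : ∀ D, Family D → Q D → R D) (X : ℕ) :
    num Q X ≤ num R X := by
  classical
  unfold num
  refine Finset.card_le_card fun D hD => ?_
  rw [Finset.mem_filter] at hD ⊢
  exact ⟨hD.1, hD.2.1, h D hD.2.1 hD.2.2⟩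

lemma num_add {Q R : ℕ → Prop} (B : Finset ℕ) (h : ∀ D, Family D → Q D → D ∉ B → R D) (X : ℕ) :
    num Q X ≤ num R X + B.card := by
  classical
  unfold num
  refine (Finset.card_le_card (t := ((Finset.Icc 1 X).filter fun D => Family D ∧ R D) ∪ B)
    fun D hD => ?_).trans (Finset.card_union_le _ _)
  rw [Finset.mem_filter] at hD
  rw [Finset.mem_union, Finset.mem_filter]
  by_cases hB : D ∈ B
  · exact Or.inr hB
  · exact Or.inl ⟨hD.1, hD.2.1, h D hD.2.1 hD.2.2 hB⟩

lemma num_none {Q : ℕ → Prop} (h : ∀ D, ¬ Q D) (X : ℕ) : num Q X = 0 := by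
  classical
  unfold num
  rw [Finset.card_eq_zero, Finset.filter_eq_empty_iff]
  rintro D _ ⟨-, h1⟩
  exact h D h1

lemma num_false (X : ℕ) : num (fun _ => False) X = 0 := num_none (fun _ h => h) X

/-- the law for a finite set of curves -/
theorem law_set {T : Finset ℕ} (hT : ∀ M ∈ T, Family M) :
    Tendsto (fun X : ℕ => (num (fun D => ∀ M ∈ T, RankZeroShaTwo (tw M D)) X : ℝ) /
      (num (fun _ => True) X : ℝ)) atTop (𝓝 (c ^ T.card)) ∧
      ∃ (a : ℝ) (X₀ : ℕ), 0 < a ∧ ∀ X : ℕ, X₀ ≤ X →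
        a * X / Real.sqrt (Real.log X) ≤
          (num (fun D => ∀ M ∈ T, RankZeroShaTwo (tw M D)) X : ℝ) := by
  obtain ⟨-, h, -⟩ := Pool.Agent.Results.MP_03e5d0_nt.FullClassX49.result
  obtain ⟨h1, h2⟩ := h T T hT (Finset.Subset.refl _)
  rw [Nat.sub_self, pow_zero, mul_one] at h1
  have h3 : ∀ X, num (Pattern T T) X = num (fun D => ∀ M ∈ T, RankZeroShaTwo (tw M D)) X := by
    intro X
    refine num_congr (fun D hD => ?_) X
    constructor
    · rintro ⟨-, h4⟩ M hM
      exact (h4 M hM).2 hM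
    · intro h4
      refine ⟨fun M hM => ?_, fun M hM => ⟨fun _ => hM, fun _ => h4 M hM⟩⟩
      have h5 := fam_tw (hT M hM) hD
      exact an_of h5 ((sel_det h5).1 (h4 M hM))
  simp only [h3] at h1 h2
  exact ⟨h1, h2⟩

/-- the number of the elements of the class tends to infinity -/
lemma num_unb {Q : ℕ → Prop} (h : ∃ (a : ℝ) (X₀ : ℕ), 0 < a ∧ ∀ X : ℕ, X₀ ≤ X →
        a * X / Real.sqrt (Real.log X) ≤ (num Q X : ℝ)) :
    Tendsto (fun X : ℕ => (num Q X : ℝ)) atTop atTop := by
  obtain ⟨a, X₀, ha, h1⟩ := h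
  have h2 : Tendsto (fun X : ℕ => a * Real.sqrt (X : ℝ)) atTop atTop :=
    (Real.tendsto_sqrt_atTop.comp tendsto_natCast_atTop_atTop).const_mul_atTop ha
  refine tendsto_atTop_mono' atTop ?_ h2
  filter_upwards [eventually_ge_atTop X₀, eventually_ge_atTop 3] with X hX hX3
  refine le_trans ?_ (h1 X hX)
  have hX0 : (0 : ℝ) < X := by exact_mod_cast (by omega : 0 < X)
  have hL : 0 < Real.log X := Real.log_pos (by exact_mod_cast (by omega : 1 < X))
  have h4 : Real.log X ≤ X := (Real.log_le_sub_one_of_pos hX0).trans (by linarith)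
  rw [le_div_iff₀ (Real.sqrt_pos.2 hL), mul_assoc]
  refine mul_le_mul_of_nonneg_left ?_ ha.le
  calc Real.sqrt X * Real.sqrt (Real.log X) ≤ Real.sqrt X * Real.sqrt X :=
        mul_le_mul_of_nonneg_left (Real.sqrt_le_sqrt h4) (Real.sqrt_nonneg _)
    _ = X := Real.mul_self_sqrt hX0.le

/-- an element of the class -/
theorem exists_D {T : Finset ℕ} (hT : ∀ M ∈ T, Family M) (B : Finset ℕ) :
    ∃ D, Family D ∧ D ∉ B ∧ ∀ M ∈ T, RankZeroShaTwo (tw M D) := by
  classical
  by_contra hcon
  push Not at hcon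
  have h1 := num_unb (law_set hT).2
  obtain ⟨X, hX⟩ := (h1.eventually (eventually_gt_atTop (B.card : ℝ))).exists
  have h2 : num (fun D => ∀ M ∈ T, RankZeroShaTwo (tw M D)) X ≤ B.card := by
    have h3 := num_add (Q := fun D => ∀ M ∈ T, RankZeroShaTwo (tw M D)) (R := fun _ => False) B
      (fun D hD h4 h5 => by
        obtain ⟨M, hM, h6⟩ := hcon D hD h5
        exact h6 (h4 M hM)) X
    rwa [num_false, zero_add] at h3
  have h3 : (num (fun D => ∀ M ∈ T, RankZeroShaTwo (tw M D)) X : ℝ) ≤ B.card := by exact_mod_cast h2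
  linarith

section
variable {n : ℕ}

/-- the set of the curves -/
noncomputable def cur (M : ℕ) (d : Fin n → ℕ) : Finset ℕ :=
  (Finset.univ : Finset (Finset (Fin n))).image fun T => tw M (dT d T)

lemma cur_fam {M : ℕ} (hM : Family M) {d : Fin n → ℕ} (hd : ∀ i, Family (d i)) :
    ∀ N ∈ cur M d, Family N := by
  intro N hN
  obtain ⟨T, -, rfl⟩ := Finset.mem_image.1 hN
  exact fam_tw hM (fam_dT hd T)

lemma cur_card {M : ℕ} (hM : Family M) {d : Fin n → ℕ} (hd : ∀ i, Family (d i))
    (hind : Indep d) : (cur M d).card = 2 ^ n := by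
  unfold cur
  rw [Finset.card_image_of_injective, card_all]
  intro A B h
  apply dT_inj hd hind
  have h1 := congrArg (fun z => tw M z) h
  simp only at h1
  have h2 : ∀ z, Family z → tw M (tw M z) = z := by
    intro z hz
    rw [← tw_assoc' hM hM hz, tw_self hM, one_tw' hz]
  rwa [h2 _ (fam_dT hd A), h2 _ (fam_dT hd B)] at h1

lemma good_cur {M D : ℕ} (hM : Family M) (hD : Family D) {d : Fin n → ℕ}
    (hd : ∀ i, Family (d i)) :
    Good (tw M D) d ↔ ∀ N ∈ cur M d, RankZeroShaTwo (tw N D) := by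
  rw [good_iff (fam_tw hM hD) hd]
  unfold cur
  rw [Finset.forall_mem_image]
  have h1 : ∀ T, tw (tw M D) (dT d T) = tw (tw M (dT d T)) D := by
    intro T
    rw [tw_assoc' hM hD (fam_dT hd T), tw_comm' hD (fam_dT hd T),
      tw_assoc' hM (fam_dT hd T) hD]
  simp only [h1, Finset.mem_univ, forall_true_left]

/-- **the law for the twists over one field** -/
theorem law_field {M : ℕ} (hM : Family M) {d : Fin n → ℕ} (hd : ∀ i, Family (d i))
    (hind : Indep d) :
    Tendsto (fun X : ℕ => (num (fun D => Good (tw M D) d) X : ℝ) /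
      (num (fun _ => True) X : ℝ)) atTop (𝓝 (c ^ 2 ^ n)) ∧
      ∃ (a : ℝ) (X₀ : ℕ), 0 < a ∧ ∀ X : ℕ, X₀ ≤ X →
        a * X / Real.sqrt (Real.log X) ≤ (num (fun D => Good (tw M D) d) X : ℝ) := by
  have h1 := law_set (cur_fam hM hd)
  rw [cur_card hM hd hind] at h1
  have h2 : ∀ X, num (fun D => ∀ N ∈ cur M d, RankZeroShaTwo (tw N D)) X =
      num (fun D => Good (tw M D) d) X := fun X =>
    num_congr (fun D hD => (good_cur hM hD hd).symm) X
  simp only [h2] at h1
  exact h1

/-- adding a number -/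
def ext (d : Fin n → ℕ) (D : ℕ) : Fin (n + 1) → ℕ := Fin.snoc d D

lemma prod_ext (d : Fin n → ℕ) (D : ℕ) (T : Finset (Fin (n + 1))) :
    ∃ T' : Finset (Fin n), ∏ i ∈ T, ext d D i =
      (∏ i ∈ T', d i) * (if Fin.last n ∈ T then D else 1) ∧
      (T.Nonempty → T'.Nonempty ∨ Fin.last n ∈ T) := by
  classical
  refine ⟨Finset.univ.filter fun i => Fin.castSucc i ∈ T, ?_, ?_⟩
  · rw [← Finset.prod_filter_mul_prod_filter_not T (fun i => i ≠ Fin.last n)]
    congr 1
    · symm
      refine Finset.prod_bij (fun i _ => Fin.castSucc i) ?_ ?_ ?_ ?_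
      · intro i hi
        rw [Finset.mem_filter] at hi ⊢
        exact ⟨hi.2, (Fin.castSucc_lt_last i).ne⟩
      · intro i _ i' _ h
        exact Fin.castSucc_injective n h
      · intro i hi
        rw [Finset.mem_filter] at hi
        obtain ⟨j, rfl⟩ := Fin.exists_castSucc_eq.2 hi.2
        exact ⟨j, Finset.mem_filter.2 ⟨Finset.mem_univ _, hi.1⟩, rfl⟩
      · intro i _
        exact (Fin.snoc_castSucc (α := fun _ => ℕ) D d i).symm
    · by_cases h : Fin.last n ∈ T
      · rw [if_pos h]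
        have h1 : (T.filter fun i => ¬ i ≠ Fin.last n) = {Fin.last n} := by
          ext i
          rw [Finset.mem_filter, Finset.mem_singleton, not_not]
          exact ⟨fun h => h.2, fun h1 => ⟨h1 ▸ h, h1⟩⟩
        rw [h1, Finset.prod_singleton]
        exact Fin.snoc_last (α := fun _ => ℕ) D d
      · rw [if_neg h]
        apply Finset.prod_eq_one
        intro i hi
        rw [Finset.mem_filter, not_not] at hi
        exact absurd (hi.2 ▸ hi.1) h
  · rintro ⟨i, hi⟩
    rcases Fin.eq_castSucc_or_eq_last i with ⟨j, rfl⟩ | rfl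
    · exact Or.inl ⟨j, Finset.mem_filter.2 ⟨Finset.mem_univ _, hi⟩⟩
    · exact Or.inr hi

lemma prod_cast (d : Fin n → ℕ) (D : ℕ) (T : Finset (Fin n)) :
    ∏ i ∈ T.map Fin.castSuccEmb, ext d D i = ∏ i ∈ T, d i := by
  rw [Finset.prod_map]
  exact Finset.prod_congr rfl fun i _ => Fin.snoc_castSucc (α := fun _ => ℕ) D d i

lemma last_cast (T : Finset (Fin n)) : Fin.last n ∉ T.map Fin.castSuccEmb := by
  rw [Finset.mem_map]
  rintro ⟨i, -, hi⟩
  exact (Fin.castSucc_lt_last i).ne hi

lemma ext_fam {d : Fin n → ℕ} (hd : ∀ i, Family (d i)) {D : ℕ} (hD : Family D) :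
    ∀ i, Family (ext d D i) := by
  intro i
  rcases Fin.eq_castSucc_or_eq_last i with ⟨j, rfl⟩ | rfl
  · have : ext d D (Fin.castSucc j) = d j := Fin.snoc_castSucc (α := fun _ => ℕ) D d j
    rw [this]
    exact hd j
  · have : ext d D (Fin.last n) = D := Fin.snoc_last (α := fun _ => ℕ) D d
    rw [this]
    exact hD

/-- the independence -/
lemma indep_ext {d : Fin n → ℕ} (hd : ∀ i, Family (d i)) (hind : Indep d) {D : ℕ} (hD : Family D) :
    Indep (ext d D) ↔ D ∉ (Finset.univ : Finset (Finset (Fin n))).image (dT d) := by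
  classical
  rw [Finset.mem_image]
  constructor
  · rintro h ⟨T, -, hT⟩
    apply h (insert (Fin.last n) (T.map Fin.castSuccEmb)) (Finset.insert_nonempty _ _)
    rw [Finset.prod_insert (last_cast T), prod_cast]
    have : ext d D (Fin.last n) = D := Fin.snoc_last (α := fun _ => ℕ) D d
    obtain ⟨g, hg, e⟩ := prod_dT hd T
    rw [this, e, hT, ← mul_assoc, sq_mul_sq hg]
    exact ⟨D, rfl⟩
  · intro h T hT hsq
    obtain ⟨T', e, hT'⟩ := prod_ext d D T
    rw [e] at hsq
    by_cases hl : Fin.last n ∈ T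
    · rw [if_pos hl] at hsq
      obtain ⟨g, hg, e'⟩ := prod_dT hd T'
      apply h
      refine ⟨T', Finset.mem_univ _, ?_⟩
      apply sq_eq (fam_dT hd T') hD
      rw [← sq_mul_sq hg]
      rw [e'] at hsq
      rwa [mul_right_comm] at hsq
    · rw [if_neg hl, mul_one] at hsq
      exact hind T' ((hT' hT).resolve_right hl) hsq

/-- the extension of a good tuple -/
lemma good_ext {M : ℕ} {d : Fin n → ℕ} {D : ℕ} (hD : Family D) (hM : Family M) :
    Good M (ext d D) ↔ Good M d ∧ Good (tw M D) d := by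
  have hsq : ∀ (N P : ℕ), Family N → (IsSquare (N * M * (P * D)) ↔ IsSquare (N * tw M D * P)) := by
    intro N P hN
    have h1 := (Pool.Agent.R413.SQ.Joint.ac_tw hM hD).2
    have h4 : Nat.gcd M D ≠ 0 := Nat.gcd_ne_zero_left hM.1.ne_zero
    have h2 : N * M * (P * D) = N * tw M D * P * Nat.gcd M D ^ 2 := by
      have h3 : M * D = tw M D * Nat.gcd M D ^ 2 := h1
      calc N * M * (P * D) = N * P * (M * D) := by ring
        _ = N * P * (tw M D * Nat.gcd M D ^ 2) := by rw [h3]
        _ = _ := by ring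
    rw [h2, sq_mul_sq h4]
  constructor
  · intro h
    constructor
    · intro T N hN hs
      refine h (T.map Fin.castSuccEmb) N hN ?_
      rw [prod_cast]
      exact hs
    · intro T N hN hs
      refine h (insert (Fin.last n) (T.map Fin.castSuccEmb)) N hN ?_
      rw [Finset.prod_insert (last_cast T), prod_cast]
      have : ext d D (Fin.last n) = D := Fin.snoc_last (α := fun _ => ℕ) D d
      rw [this, mul_comm D, hsq N _ hN]
      exact hs
  · rintro ⟨h1, h2⟩ T N hN hs
    obtain ⟨T', e, -⟩ := prod_ext d D T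
    rw [e] at hs
    by_cases hl : Fin.last n ∈ T
    · rw [if_pos hl, hsq N _ hN] at hs
      exact h2 T' N hN hs
    · rw [if_neg hl, mul_one] at hs
      exact h1 T' N hN hs

/-- **the law for the extensions of a field** -/
theorem law_ext {M : ℕ} (hM : Family M) {d : Fin n → ℕ} (hd : ∀ i, Family (d i))
    (hind : Indep d) (hgood : Good M d) :
    Tendsto (fun X : ℕ => (num (fun D => Indep (ext d D) ∧ Good M (ext d D)) X : ℝ) /
      (num (fun _ => True) X : ℝ)) atTop (𝓝 (c ^ 2 ^ n)) := by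
  classical
  obtain ⟨h1, -⟩ := law_field hM hd hind
  set B := (Finset.univ : Finset (Finset (Fin n))).image (dT d) with hB
  have h2 : ∀ X, num (fun D => Indep (ext d D) ∧ Good M (ext d D)) X =
      num (fun D => D ∉ B ∧ Good (tw M D) d) X := fun X =>
    num_congr (fun D hD => by
      rw [indep_ext hd hind hD, good_ext hD hM]
      exact and_congr_right fun _ => ⟨fun h => h.2, fun h => ⟨hgood, h⟩⟩) X
  simp only [h2]
  have h3 : Tendsto (fun X : ℕ => (num (fun _ => True) X : ℝ)) atTop atTop := by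
    refine tendsto_atTop_mono (fun X => ?_) (num_unb (law_field hM hd hind).2)
    exact_mod_cast num_mono (Q := fun D => Good (tw M D) d) (R := fun _ => True)
      (fun _ _ _ => trivial) X
  have h4 : Tendsto (fun X : ℕ => (B.card : ℝ) / (num (fun _ => True) X : ℝ)) atTop (𝓝 0) :=
    h3.const_div_atTop _
  have h5 := h1.sub h4
  rw [sub_zero] at h5
  refine tendsto_of_tendsto_of_tendsto_of_le_of_le h5 h1 (fun X => ?_) (fun X => ?_)
  · show (num (fun D => Good (tw M D) d) X : ℝ) / (num (fun _ => True) X : ℝ) -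
      (B.card : ℝ) / (num (fun _ => True) X : ℝ) ≤
      (num (fun D => D ∉ B ∧ Good (tw M D) d) X : ℝ) / (num (fun _ => True) X : ℝ)
    rw [← sub_div]
    refine div_le_div_of_nonneg_right ?_ (Nat.cast_nonneg _)
    have h7 : (num (fun D => Good (tw M D) d) X : ℝ) ≤
        (num (fun D => D ∉ B ∧ Good (tw M D) d) X : ℝ) + B.card := by
      exact_mod_cast num_add (Q := fun D => Good (tw M D) d)
        (R := fun D => D ∉ B ∧ Good (tw M D) d) B (fun D _ h8 h9 => ⟨h9, h8⟩) X
    linarith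
  · refine div_le_div_of_nonneg_right ?_ (Nat.cast_nonneg _)
    exact Nat.cast_le.2 (num_mono (Q := fun D => D ∉ B ∧ Good (tw M D) d)
      (R := fun D => Good (tw M D) d) (fun D _ h8 => h8.2) X)

end

end Pool.Agent.V7H80.MQ
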