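import Pool.Agent.V7H80.MQ.Comb

/-!
# Local factors of the curves which become isomorphic to curves with good reduction
-/

set_option autoImplicit false
set_option linter.unusedSectionVars false

open NumberField IsDedekindDomain Pool.Agent.H921R2.TatePole Pool.Agent.H82R3.EK
open WeierstrassCurve Pool.Agent.W189.NF
open Pool.Agent.Y698 Pool.Agent.Y698.SG
open W165.CE (pw)

namespace Pool.Agent.V7H80.MQ

section Local

variable (R : Type) [CommRing R] [IsDomain R] [IsDiscreteValuationRing R] {L : Type}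
  [Field L] [Algebra R L] [IsFractionRing R L]

open IsDiscreteValuationRing

/-- a curve isomorphic to one with an integral equation with a unit discriminant -/
theorem min_good' {W₀ : WeierstrassCurve R} (hΔ : IsUnit W₀.Δ) {W : WeierstrassCurve L}
    {C₁ : VariableChange L} (hW : W = C₁ • W₀.map (algebraMap R L)) :
    (W.minimal R).HasGoodReduction R := by
  set W₁ := W₀.map (algebraMap R L) with hW₁
  have hWint : IsIntegral R W₁ := ⟨⟨W₀, rfl⟩⟩
  have hvW : (maximalIdeal R).valuation L W₁.Δ = 1 := by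
    rw [hW₁, map_Δ]
    exact v_unit R hΔ
  obtain ⟨C, hC⟩ : ∃ C : VariableChange L, W.minimal R = C • W₁ := by
    obtain ⟨C, hC⟩ : ∃ C : VariableChange L, W.minimal R = C • W := ⟨_, rfl⟩
    exact ⟨C * C₁, by rw [hC, hW, mul_smul]⟩
  have hmin : IsMinimal R (W.minimal R) := inferInstance
  refine ⟨?_⟩
  obtain ⟨h1, h2⟩ := hmin.val_Δ_maximal
  have e1 : C⁻¹ • W.minimal R = W₁ := by rw [hC, inv_smul_smul]
  have h3 := h2 (j := C⁻¹) (by simp only [e1]; exact hWint)
  simp only [e1, one_smul] at h3
  have hle : valuation_Δ_aux R (W.minimal R) ≤ valuation_Δ_aux R W₁ := by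
    rw [← Subtype.coe_le_coe, valuation_Δ_aux_eq_of_isIntegral R W₁, hvW]
    exact (valuation_Δ_aux R (W.minimal R)).2
  have h4 := le_antisymm hle (h3 hle)
  have h5 := congrArg Subtype.val h4
  rw [valuation_Δ_aux_eq_of_isIntegral, valuation_Δ_aux_eq_of_isIntegral] at h5
  rw [h5]
  exact hvW

/-- the local factor at a place of good reduction -/
theorem min_count' {W₀ : WeierstrassCurve R} (hΔ : IsUnit W₀.Δ) {W : WeierstrassCurve L}
    {C₁ : VariableChange L} (hW : W = C₁ • W₀.map (algebraMap R L))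
    [Finite (IsLocalRing.ResidueField R)] :
    aLoc R W = (Nat.card (IsLocalRing.ResidueField R) : ℤ) -
      Nat.card (AP (W₀.map (IsLocalRing.residue R))) ∧
    eLoc R W = Nat.card (IsLocalRing.ResidueField R) := by
  have hg := min_good' R hΔ hW
  unfold aLoc eLoc
  rw [if_pos hg, if_pos hg]
  refine ⟨?_, rfl⟩
  obtain ⟨C, hC⟩ : ∃ C : VariableChange L, W.minimal R = C • W₀.map (algebraMap R L) := by
    obtain ⟨C, hC⟩ : ∃ C : VariableChange L, W.minimal R = C • W := ⟨_, rfl⟩
    exact ⟨C * C₁, by rw [hC, hW, mul_smul]⟩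
  have h1 : ((W.minimal R).integralModel R).map (algebraMap R L) = C • W₀.map (algebraMap R L) := by
    have := baseChange_integralModel_eq R (W.minimal R)
    rw [← hC]
    exact this
  have h2 : IsUnit ((W.minimal R).integralModel R).Δ := by
    have h3 := hg.goodReduction
    rw [← integralModel_Δ_eq R (W.minimal R),
      IsDedekindDomain.HeightOneSpectrum.valuation_eq_one_iff_notMem] at h3
    by_contra h4
    exact h3 ((IsLocalRing.mem_maximalIdeal _).2 h4)
  obtain ⟨C₀, hC₀⟩ := vc_int R hΔ h2 h1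
  have h3 : (W.minimal R).reduction R = (C₀.map (IsLocalRing.residue R)) •
      (W₀.map (IsLocalRing.residue R)) := by
    unfold WeierstrassCurve.reduction
    rw [hC₀, ← WeierstrassCurve.map_variableChange]
  have h4 : ((W.minimal R).reduction R).Δ ≠ 0 := by
    unfold WeierstrassCurve.reduction
    rw [map_Δ]
    exact (h2.map _).ne_zero
  rw [card_point _ h4, h3, Nat.card_congr (AP_equiv _ _)]
  push_cast
  ring

end Local

section
variable {K : Type} [Field K] [NumberField K]

/-- the coefficients of the local factors of a curve isomorphic to one with good reduction -/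
theorem coeffsG (v : HeightOneSpectrum (𝓞 K)) {S : Finset ℕ} (hS : ∀ q ∈ S, Gp q) {j j₀ : ℕ}
    (hj : ∏ q ∈ S, q = 1 + 4 * j) {C : VariableChange K} (hC : EX K (j₀ : K) = C • EX K (j : K))
    (hb : (below v : ℕ) ≠ 7) (hbS : (below v : ℕ) ∉ S) :
    ((aV (EX K (j₀ : K)) v : ℤ) : ℂ) = (∏ q ∈ S, qch q (below v : ℕ)) ^ deg v *
      pw (bc (below v : ℕ)) (ec (below v : ℕ)) (deg v) ∧
    ((eV (EX K (j₀ : K)) v : ℤ) : ℂ) =
      ((∏ q ∈ S, qch q (below v : ℕ)) ^ 2 * ec (below v : ℕ)) ^ deg v := by
  classical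
  obtain ⟨n1, n2, n3⟩ := nm_eq v
  have hW0 : (EX K (j : K)).baseChange (v.adicCompletion K) =
      (EX (Ov v) (j : Ov v)).map (algebraMap (Ov v) (v.adicCompletion K)) := by
    rw [EX_map, map_natCast]
    have := EX_map (algebraMap K (v.adicCompletion K)) (j : K)
    rw [map_natCast] at this
    exact this
  have hW : (EX K (j₀ : K)).baseChange (v.adicCompletion K) =
      C.map (algebraMap K (v.adicCompletion K)) •
        (EX (Ov v) (j : Ov v)).map (algebraMap (Ov v) (v.adicCompletion K)) := by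
    rw [← hW0, hC]
    exact (WeierstrassCurve.map_variableChange _ _ _).symm
  have hunit : ∀ p : ℕ, p.Prime → (below v : ℕ) ≠ p → IsUnit ((p : ℕ) : Ov v) := by
    intro p hp hne
    by_contra hcon
    have h1 : IsLocalRing.residue (Ov v) ((p : ℕ) : Ov v) = 0 :=
      (IsLocalRing.residue_eq_zero_iff _).2 ((IsLocalRing.mem_maximalIdeal _).2 hcon)
    rw [map_natCast] at h1
    have hfin := finite_res v
    have hcard : Nat.card (IsLocalRing.ResidueField (Ov v)) = (below v : ℕ) ^ deg v := by
      rw [← n1]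
      exact card_res v
    have h2 : ((below v : ℕ) : IsLocalRing.ResidueField (Ov v)) = 0 := by
      have h2 : ((Nat.card (IsLocalRing.ResidueField (Ov v)) : ℕ) :
          IsLocalRing.ResidueField (Ov v)) = 0 := by
        have := Fintype.ofFinite (IsLocalRing.ResidueField (Ov v))
        rw [Nat.card_eq_fintype_card]
        exact Nat.cast_card_eq_zero _
      rw [hcard] at h2
      push_cast at h2
      exact (pow_eq_zero_iff n2.ne').1 h2
    have hcop : IsCoprime ((below v : ℕ) : ℤ) (p : ℤ) :=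
      Nat.isCoprime_iff_coprime.2 ((Nat.coprime_primes (below v).2 hp).2 hne)
    obtain ⟨s, t, hst⟩ := hcop
    have h3 := congrArg (fun z : ℤ => (z : IsLocalRing.ResidueField (Ov v))) hst
    push_cast at h3
    rw [h1, h2, mul_zero, mul_zero, add_zero] at h3
    exact zero_ne_one h3
  have hDc : ∀ (A : Type) [CommRing A], (1 + 4 * (j : A)) = ((∏ q ∈ S, q : ℕ) : A) := by
    intro A _
    rw [hj]
    push_cast
    rfl
  have hDc2 : ∀ (A : Type) [CommRing A], ((∏ q ∈ S, q : ℕ) : A) = ∏ q ∈ S, (q : A) := by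
    intro A _
    push_cast
    rfl
  have hfin := finite_res v
  have hcard : Nat.card (IsLocalRing.ResidueField (Ov v)) = (below v : ℕ) ^ deg v := by
    rw [← n1]
    exact card_res v
  have hDu : IsUnit ((∏ q ∈ S, q : ℕ) : Ov v) := by
    rw [hDc2]
    refine isUnit_fprod fun q hqS => hunit q (hS q hqS).pr ?_
    intro h
    exact hbS (h ▸ hqS)
  have hΔ : IsUnit (EX (Ov v) (j : Ov v)).Δ := by
    rw [EX_Δ, hDc]
    refine IsUnit.mul ?_ (hDu.pow 6)
    have e : (-343 : Ov v) = -(((7 : ℕ) : Ov v) ^ 3) := by norm_num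
    rw [e]
    exact ((hunit 7 (by norm_num) hb).pow 3).neg
  obtain ⟨a1, a2⟩ := min_count' (v.adicCompletionIntegers K) hΔ hW
  unfold aV eV
  rw [a1, a2, EX_map, map_natCast]
  have hsq : (∏ q ∈ S, qch q (below v : ℕ)) ^ 2 = 1 := by
    refine qprod_sq (fun q hq => (hS q hq).pr) fun q hq hd => ?_
    have h1 : q ∣ (below v : ℕ) := by exact_mod_cast hd
    exact hbS (((Nat.prime_dvd_prime_iff_eq (hS q hq).pr (below v).2).1 h1) ▸ hq)
  constructor
  · exact trace_tw (IsLocalRing.ResidueField (Ov v)) (below v).2 hb n2.ne' hcard hS hbS hj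
  · have : ec (below v : ℕ) = ((below v : ℕ) : ℂ) := by unfold ec; rw [if_neg hb]
    rw [this, hsq, one_mul]
    have h3 : Nat.card (IsLocalRing.ResidueField (v.adicCompletionIntegers K)) =
      (below v : ℕ) ^ deg v := hcard
    rw [h3]
    push_cast
    rfl

/-- the change of variables between the twists -/
theorem EX_twist {j j₀ : ℕ} {g : K} (hg : g ≠ 0)
    (h : (1 + 4 * (j₀ : K)) = (1 + 4 * (j : K)) * g ^ 2) :
    ∃ C : VariableChange K, EX K (j₀ : K) = C • EX K (j : K) := by
  have h2 : (2 : K) ≠ 0 := two_ne_zero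
  refine ⟨⟨(Units.mk0 g hg)⁻¹, 0, (g⁻¹ - 1) / 2, 0⟩, ?_⟩
  have h4 : (j₀ : K) = ((1 + 4 * (j : K)) * g ^ 2 - 1) / 4 := by
    field_simp
    linear_combination h
  unfold EX
  ext
  · simp only [variableChange_a₁, inv_inv, Units.val_mk0]
    field_simp
    ring
  · simp only [variableChange_a₂, inv_inv, Units.val_mk0]
    rw [h4]
    field_simp
    ring
  · simp only [variableChange_a₃, inv_inv, Units.val_mk0]
    ring
  · simp only [variableChange_a₄, inv_inv, Units.val_mk0]
    rw [h4]
    field_simp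
    ring
  · simp only [variableChange_a₆, inv_inv, Units.val_mk0]
    rw [h4]
    field_simp
    ring

end

end Pool.Agent.V7H80.MQ
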