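import Pool.Agent.V7H80.MQ.Loc
import Pool.Agent.Y698.SG.Ebb

/-!
# The linear equations for the classes
-/

set_option autoImplicit false
set_option linter.unusedSectionVars false

open NumberField IsDedekindDomain WeierstrassCurve

namespace Pool.Agent.V7H80.MQ

open Pool.Agent.Results.MP_92892c_nt.FullClassTwoPartX49 (Family RankZeroShaTwo num)
open Pool.Agent.Results.MP_03e5d0_nt.FullClassX49 (tw)
open Pool.Agent.H921R2.TatePole Pool.Agent.H82R3.EK
open Pool.Agent.Y698 Pool.Agent.Y698.SG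
open Cv (WF LocI coc)

section lin
variable (c : ℕ → ZMod 2) (rr : ℕ → ℕ → ZMod 2) (S C : Finset ℕ)

open Classical in
/-- the linear equations -/
noncomputable def eql : (S → ZMod 2) →ₗ[ZMod 2] (C → ZMod 2) where
  toFun x := fun i => (if h : (i : ℕ) ∈ S then c i * x ⟨i, h⟩ else 0) + ∑ j : S, rr i j * x j
  map_add' x y := by
    funext i
    show (if h : (i : ℕ) ∈ S then c i * (x ⟨i, h⟩ + y ⟨i, h⟩) else 0) +
        ∑ j : S, rr i j * (x j + y j) =
      ((if h : (i : ℕ) ∈ S then c i * x ⟨i, h⟩ else 0) + ∑ j : S, rr i j * x j) +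
      ((if h : (i : ℕ) ∈ S then c i * y ⟨i, h⟩ else 0) + ∑ j : S, rr i j * y j)
    have h : ∑ j : S, rr i j * (x j + y j) = ∑ j : S, rr i j * x j + ∑ j : S, rr i j * y j := by
      rw [← Finset.sum_add_distrib]
      exact Finset.sum_congr rfl fun j _ => by ring
    rw [h]
    split_ifs <;> ring
  map_smul' t x := by
    funext i
    show (if h : (i : ℕ) ∈ S then c i * (t * x ⟨i, h⟩) else 0) +
        ∑ j : S, rr i j * (t * x j) =
      t * ((if h : (i : ℕ) ∈ S then c i * x ⟨i, h⟩ else 0) + ∑ j : S, rr i j * x j)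
    rw [mul_add, Finset.mul_sum]
    congr 1
    · split_ifs <;> ring
    · exact Finset.sum_congr rfl fun j _ => by ring

variable {c rr S C}

lemma mem_spt {x : S → ZMod 2} {i : ℕ} : i ∈ spt S x ↔ ∃ h : i ∈ S, x ⟨i, h⟩ = 1 := by
  classical
  unfold spt
  rw [Finset.mem_filter]
  exact ⟨fun h => h.2, fun h => ⟨h.1, h⟩⟩

lemma spt_sub (x : S → ZMod 2) : spt S x ⊆ S := fun _ hi => (mem_spt.1 hi).1

lemma z01 : ∀ z : ZMod 2, z = 0 ∨ z = 1 := by decide

lemma sum_spt (x : S → ZMod 2) (f : ℕ → ZMod 2) : ∑ j : S, f j * x j = ∑ j ∈ spt S x, f j := by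
  classical
  set y : ℕ → ZMod 2 := fun i => if h : i ∈ S then x ⟨i, h⟩ else 0 with hy
  have hyx : ∀ i : S, y i = x i := fun i => dif_pos i.2
  have h1 : ∑ j : S, f j * x j = ∑ j ∈ S, f j * y j := by
    rw [← Finset.sum_coe_sort S (fun j => f j * y j)]
    exact Finset.sum_congr rfl fun j _ => by rw [hyx j]
  rw [h1, ← Finset.sum_subset (spt_sub x)]
  · refine Finset.sum_congr rfl fun j hj => ?_
    obtain ⟨h2, h3⟩ := mem_spt.1 hj
    have h4 : y j = 1 := by rw [← h3]; exact hyx ⟨j, h2⟩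
    rw [h4, mul_one]
  · intro j hj hj'
    have h4 : y j = 0 := by
      rcases z01 (y j) with h | h
      · exact h
      · exact absurd (mem_spt.2 ⟨hj, by rw [← h]; exact (hyx ⟨j, hj⟩).symm⟩) hj'
    rw [h4, mul_zero]

lemma eql_ker {x : S → ZMod 2} (hx : eql c rr S C x = 0) {i : ℕ} (hi : i ∈ C) :
    (i ∉ spt S x → ∑ j ∈ spt S x, rr i j = 0) ∧
      (i ∈ spt S x → c i + ∑ j ∈ spt S x, rr i j = 0) := by
  classical
  have h1 : (if h : i ∈ S then c i * x ⟨i, h⟩ else 0) + ∑ j : S, rr i j * x j = 0 :=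
    congrFun hx ⟨i, hi⟩
  rw [sum_spt x (rr i)] at h1
  constructor
  · intro h2
    have h3 : (if h : i ∈ S then c i * x ⟨i, h⟩ else 0) = 0 := by
      split_ifs with h
      · rcases z01 (x ⟨i, h⟩) with h4 | h4
        · rw [h4, mul_zero]
        · exact absurd (mem_spt.2 ⟨h, h4⟩) h2
      · rfl
    rw [h3, zero_add] at h1
    exact h1
  · intro h2
    obtain ⟨h, h3⟩ := mem_spt.1 h2
    rw [dif_pos h, h3, mul_one] at h1
    exact h1

lemma spt_add (x y : S → ZMod 2) :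
    spt S (x + y) = (spt S x \ spt S y) ∪ (spt S y \ spt S x) := by
  ext i
  rw [Finset.mem_union, Finset.mem_sdiff, Finset.mem_sdiff, mem_spt, mem_spt, mem_spt]
  by_cases h : i ∈ S
  · have h1 : (∃ h : i ∈ S, (x + y) ⟨i, h⟩ = 1) ↔ x ⟨i, h⟩ + y ⟨i, h⟩ = 1 :=
      ⟨fun ⟨_, k⟩ => k, fun k => ⟨h, k⟩⟩
    have h2 : (∃ h : i ∈ S, x ⟨i, h⟩ = 1) ↔ x ⟨i, h⟩ = 1 := ⟨fun ⟨_, k⟩ => k, fun k => ⟨h, k⟩⟩
    have h3 : (∃ h : i ∈ S, y ⟨i, h⟩ = 1) ↔ y ⟨i, h⟩ = 1 := ⟨fun ⟨_, k⟩ => k, fun k => ⟨h, k⟩⟩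
    rw [h1, h2, h3]
    generalize x ⟨i, h⟩ = a
    generalize y ⟨i, h⟩ = b
    revert a b
    decide
  · constructor
    · rintro ⟨k, -⟩
      exact absurd k h
    · rintro (⟨⟨k, -⟩, -⟩ | ⟨⟨k, -⟩, -⟩)
      · exact absurd k h
      · exact absurd k h

lemma prod_spt (x y : S → ZMod 2) : (∏ q ∈ spt S x, q) * ∏ q ∈ spt S y, q =
    (∏ q ∈ spt S (x + y), q) * (∏ q ∈ spt S x ∩ spt S y, q) ^ 2 := by
  rw [spt_add]
  exact prod_symm _ _

lemma neg_eq' (x : S → ZMod 2) : -x = x := by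
  funext i
  exact ZMod.neg_eq_self_mod_two _

lemma spt_zero : spt S (0 : S → ZMod 2) = ∅ := by
  rw [Finset.eq_empty_iff_forall_notMem]
  intro i hi
  obtain ⟨h, h1⟩ := mem_spt.1 hi
  have h2 : (0 : ZMod 2) = 1 := h1
  exact absurd h2 (by decide)

/-- the dimension of the space of solutions -/
lemma ker_dim : S.card ≤ Module.finrank (ZMod 2) (LinearMap.ker (eql c rr S C)) + C.card := by
  have h1 := LinearMap.finrank_range_add_finrank_ker (eql c rr S C)
  rw [Module.finrank_fintype_fun_eq_card, Fintype.card_coe] at h1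
  have h2 : Module.finrank (ZMod 2) (LinearMap.range (eql c rr S C)) ≤ C.card := by
    refine (Submodule.finrank_le _).trans ?_
    rw [Module.finrank_fintype_fun_eq_card, Fintype.card_coe]
  omega

end lin

section
variable {F : Type} [Field F] [NumberField F] {n : ℕ} {d : Fin n → ℕ} {x : Fin n → F}

open Classical in
/-- the classes which are squares in `F` -/
noncomputable def sqN (F : Type) [Field F] [NumberField F] {S : Finset ℕ} (hS : ∀ q ∈ S, q ≠ 0)
    (V : Submodule (ZMod 2) (S → ZMod 2)) : AddSubgroup V where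
  carrier := {x | IsSquare ((∏ q ∈ spt S x.1, q : ℕ) : F)}
  zero_mem' := by
    show IsSquare ((∏ q ∈ spt S (0 : S → ZMod 2), q : ℕ) : F)
    rw [spt_zero, Finset.prod_empty, Nat.cast_one]
    exact IsSquare.one
  add_mem' := by
    rintro x y hx hy
    show IsSquare ((∏ q ∈ spt S (x.1 + y.1), q : ℕ) : F)
    have hx' : IsSquare ((∏ q ∈ spt S x.1, q : ℕ) : F) := hx
    have hy' : IsSquare ((∏ q ∈ spt S y.1, q : ℕ) : F) := hy
    have h1 := hx'.mul hy'
    rw [← Nat.cast_mul, prod_spt, Nat.cast_mul, Nat.cast_pow] at h1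
    have h2 : ((∏ q ∈ spt S x.1 ∩ spt S y.1, q : ℕ) : F) ≠ 0 := by
      rw [Nat.cast_ne_zero, Finset.prod_ne_zero_iff]
      intro q hq
      exact hS q (spt_sub x.1 (Finset.mem_inter.1 hq).1)
    obtain ⟨s, hs⟩ := h1
    refine ⟨s / ((∏ q ∈ spt S x.1 ∩ spt S y.1, q : ℕ) : F), ?_⟩
    field_simp
    linear_combination hs
  neg_mem' := by
    rintro x hx
    show IsSquare ((∏ q ∈ spt S (-x.1), q : ℕ) : F)
    rw [neg_eq']
    exact hx

lemma mem_sqN {S : Finset ℕ} {hS : ∀ q ∈ S, q ≠ 0} {V : Submodule (ZMod 2) (S → ZMod 2)} {x : V} :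
    x ∈ sqN F hS V ↔ IsSquare ((∏ q ∈ spt S x.1, q : ℕ) : F) := Iff.rfl

/-- there are few of them -/
lemma card_sqN (h : Gen d x) (hd : ∀ i, Family (d i)) (hind : Indep d) {S : Finset ℕ}
    (hSg : ∀ q ∈ S, Gp q) (hS : ∀ q ∈ S, q ≠ 0) (V : Submodule (ZMod 2) (S → ZMod 2)) :
    Nat.card (sqN F hS V) ≤ 2 ^ n := by
  have h1 : ∀ y : sqN F hS V, ∃ T : Finset (Fin n), dT d T = ∏ q ∈ spt S y.1.1, q := by
    intro y
    have hg : ∀ q ∈ spt S y.1.1, Gp q := fun q hq => hSg q (spt_sub _ hq)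
    exact sq_fam h hd hind (fam_prod hg).1 (mem_sqN.1 y.2)
  choose T hT using h1
  have hinj : Function.Injective T := by
    intro y z hyz
    have h2 : ∏ q ∈ spt S y.1.1, q = ∏ q ∈ spt S z.1.1, q := by rw [← hT, ← hT, hyz]
    have h3 : spt S y.1.1 = spt S z.1.1 := by
      have hg : ∀ q ∈ spt S y.1.1, Gp q := fun q hq => hSg q (spt_sub _ hq)
      have hg' : ∀ q ∈ spt S z.1.1, Gp q := fun q hq => hSg q (spt_sub _ hq)
      rw [← (fam_prod hg).2, ← (fam_prod hg').2, h2]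
    exact Subtype.ext (Subtype.ext (spt_inj S h3))
  have h2 := Nat.card_le_card_of_injective T hinj
  rwa [Nat.card_eq_fintype_card (α := Finset (Fin n)), Fintype.card_finset, Fintype.card_fin] at h2

/-- the number of the classes -/
lemma card_quot (h : Gen d x) (hd : ∀ i, Family (d i)) (hind : Indep d) {S : Finset ℕ}
    (hSg : ∀ q ∈ S, Gp q) (hS : ∀ q ∈ S, q ≠ 0) (V : Submodule (ZMod 2) (S → ZMod 2)) {m : ℕ}
    (hm : m + n ≤ Module.finrank (ZMod 2) V) : 2 ^ m ≤ Nat.card (V ⧸ sqN F hS V) := by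
  have h1 := AddSubgroup.card_eq_card_quotient_mul_card_addSubgroup (sqN F hS V)
  have h2 : Nat.card V = 2 ^ Module.finrank (ZMod 2) V := by
    rw [Module.natCard_eq_pow_finrank (K := ZMod 2), Nat.card_zmod]
  have h3 := card_sqN h hd hind hSg hS V
  rw [h2] at h1
  have h4 : 2 ^ (m + n) ≤ 2 ^ Module.finrank (ZMod 2) V := Nat.pow_le_pow_right two_pos hm
  rw [h1, pow_add] at h4
  have h5 : 2 ^ m * 2 ^ n ≤ Nat.card (V ⧸ sqN F hS V) * 2 ^ n :=
    h4.trans (Nat.mul_le_mul_left _ h3)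
  exact Nat.le_of_mul_le_mul_right h5 (Nat.two_pow_pos n)

end

end Pool.Agent.V7H80.MQ
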