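import Pool.Agent.V7H80.MQ.Cls
import Pool.Agent.V7H80.MQ.Law
import Pool.Agent.Y698.SG.Cb

/-!
# Classes which are locally trivial over a multiquadratic field
-/

set_option autoImplicit false
set_option linter.unusedSectionVars false

open NumberField IsDedekindDomain WeierstrassCurve

namespace Pool.Agent.V7H80.MQ

open Pool.Agent.Results.MP_92892c_nt.FullClassTwoPartX49 (Family RankZeroShaTwo num)
open Pool.Agent.Results.MP_03e5d0_nt.FullClassX49 (tw)
open Pool.Agent.H921R2.TatePole Pool.Agent.H82R3.EK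
open Pool.Agent.Y698 Pool.Agent.Y698.SG
open Cv (WF LocI coc)

section dep
variable {F : Type} [Field F] [NumberField F] {n : ℕ} {d : Fin n → ℕ} {x : Fin n → F}

/-- the natural numbers which are squares in `F` -/
theorem sq_dep (h : Gen d x) (hd0 : ∀ i, d i ≠ 0) (hind : Indep d) {m : ℕ} (hm0 : m ≠ 0)
    (hsq : IsSquare (m : F)) : ∃ T : Finset (Fin n), IsSquare ((∏ i ∈ T, d i) * m) := by
  classical
  by_contra hcon
  push Not at hcon
  obtain ⟨y, hy⟩ := hsq
  have h1 : Gen (ext d m) (Fin.snoc x y : Fin (n + 1) → F) := by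
    refine ⟨fun i => ?_, fun L hL => h.top L fun i => ?_⟩
    · rcases Fin.eq_castSucc_or_eq_last i with ⟨j, rfl⟩ | rfl
      · have e1 : ext d m (Fin.castSucc j) = d j := Fin.snoc_castSucc (α := fun _ => ℕ) m d j
        have e2 : (Fin.snoc x y : Fin (n + 1) → F) (Fin.castSucc j) = x j :=
          Fin.snoc_castSucc (α := fun _ => F) y x j
        rw [e1, e2, h.sq]
      · have e1 : ext d m (Fin.last n) = m := Fin.snoc_last (α := fun _ => ℕ) m d
        have e2 : (Fin.snoc x y : Fin (n + 1) → F) (Fin.last n) = y :=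
          Fin.snoc_last (α := fun _ => F) y x
        rw [e1, e2, pow_two, hy]
    · have e2 : (Fin.snoc x y : Fin (n + 1) → F) (Fin.castSucc i) = x i :=
        Fin.snoc_castSucc (α := fun _ => F) y x i
      rw [← e2]
      exact hL _
  have h2 : ∀ i, ext d m i ≠ 0 := by
    intro i
    rcases Fin.eq_castSucc_or_eq_last i with ⟨j, rfl⟩ | rfl
    · have e1 : ext d m (Fin.castSucc j) = d j := Fin.snoc_castSucc (α := fun _ => ℕ) m d j
      rw [e1]
      exact hd0 j
    · have e1 : ext d m (Fin.last n) = m := Fin.snoc_last (α := fun _ => ℕ) m d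
      rw [e1]
      exact hm0
  have h3 : ∀ T : Finset (Fin (n + 1)), T.Nonempty → ¬ IsSquare (∏ i ∈ T, ext d m i) := by
    intro T hT hs
    obtain ⟨T', e, hT'⟩ := prod_ext d m T
    rw [e] at hs
    by_cases hl : Fin.last n ∈ T
    · rw [if_pos hl] at hs
      exact hcon T' hs
    · rw [if_neg hl, mul_one] at hs
      exact hind T' ((hT' hT).resolve_right hl) hs
  have h4 := card_gal h1 h2 h3
  rw [card_gal h hd0 hind] at h4
  have h5 := Nat.pow_right_injective (le_refl 2) h4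
  omega

/-- the numbers of the class which are squares in `F` -/
theorem sq_fam (h : Gen d x) (hd : ∀ i, Family (d i)) (hind : Indep d) {e : ℕ} (he : Family e)
    (hsq : IsSquare (e : F)) : ∃ T : Finset (Fin n), dT d T = e := by
  obtain ⟨T, hT⟩ := sq_dep h (fun i => (hd i).1.ne_zero) hind he.1.ne_zero hsq
  obtain ⟨g, hg, e1⟩ := prod_dT hd T
  refine ⟨T, sq_eq (fam_dT hd T) he ?_⟩
  rw [e1, mul_right_comm, sq_mul_sq hg] at hT
  exact hT

/-- `7` is not a square in `F` -/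
theorem seven_F (h : Gen d x) (hd : ∀ i, Family (d i)) (hind : Indep d) :
    ¬ IsSquare (7 : F) := by
  intro hsq
  obtain ⟨T, hT⟩ := sq_dep h (fun i => (hd i).1.ne_zero) hind (m := 7) (by norm_num)
    (by exact_mod_cast hsq)
  obtain ⟨g, hg, e1⟩ := prod_dT hd T
  rw [e1, mul_right_comm, sq_mul_sq hg] at hT
  have h4 := prod_mod4 (S := U d T) fun q hq => (U_gp hd T q hq).m4
  obtain ⟨b, hb⟩ := hT
  have h5 : (dT d T * 7) % 4 = 3 := by
    have : dT d T % 4 = 1 := h4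
    omega
  rw [hb] at h5
  have h6 : (b * b) % 4 = 0 ∨ (b * b) % 4 = 1 := by
    have h7 : b % 4 = 0 ∨ b % 4 = 1 ∨ b % 4 = 2 ∨ b % 4 = 3 := by omega
    rw [Nat.mul_mod]
    rcases h7 with h | h | h | h <;> rw [h] <;> norm_num
  omega

end dep

lemma loc_tr {L : Type} [Field L] {a b d a' b' d' : ℤ} {g h : L} (hg : g ≠ 0) (hh : h ≠ 0)
    (ha : (a : L) = a' * g ^ 2) (hb : (b : L) = b' * g ^ 4) (hd : (d : L) = d' * h ^ 2)
    (H : LocI L a' b' d') : LocI L a b d := by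
  obtain ⟨X, Y, r, h1, h2, h3⟩ := H
  refine ⟨g ^ 2 * X, g ^ 3 * Y, g * r / h, mul_ne_zero (pow_ne_zero 2 hg) h1, ?_, ?_⟩
  · rw [ha, hb]
    linear_combination g ^ 6 * h2
  · rw [hd, h3]
    field_simp

section
variable {F : Type} [Field F] [NumberField F] {n : ℕ} {d : Fin n → ℕ} {x : Fin n → F}

/-- the primes which divide the `d i` -/
def RR (d : Fin n → ℕ) : Finset ℕ := Finset.univ.biUnion fun i => (d i).primeFactors

lemma mem_RR {p : ℕ} : p ∈ RR d ↔ ∃ i, p ∈ (d i).primeFactors := by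
  unfold RR
  rw [Finset.mem_biUnion]
  simp

lemma RR_gp (hd : ∀ i, Family (d i)) : ∀ q ∈ RR d, Gp q := by
  intro q hq
  obtain ⟨i, hi⟩ := mem_RR.1 hq
  exact fam_gp (hd i) q hi

lemma Hyp.of (h : Gen d x) (hd : ∀ i, Family (d i)) (hind : Indep d) : Hyp d x :=
  ⟨h, fun i => (hd i).1, fun i => (hd i).2, hind⟩

lemma fam_mod4 {N : ℕ} (h : Family N) : (N : ℤ) % 4 = 1 := by
  have h1 := prod_mod4 (S := N.primeFactors) h.2
  rw [Nat.prod_primeFactors_of_squarefree h.1] at h1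
  omega

lemma exists_tw {M : ℕ} (hM : Family M) (hd : ∀ i, Family (d i)) (h : Gen d x) {p : ℕ} (hp : p.Prime)
    {i0 : Fin n} (hi0 : p ∣ d i0) : ∃ (M' : ℕ) (g : F), Family M' ∧ ¬ p ∣ M' ∧ g ≠ 0 ∧
      (M : F) = M' * g ^ 2 := by
  by_cases hpM : p ∣ M
  · have hx0 : x i0 ≠ 0 := xne h (fun i => (hd i).1.ne_zero) i0
    have h4 : Nat.gcd M (d i0) ≠ 0 := Nat.gcd_ne_zero_left hM.1.ne_zero
    have h4F : ((Nat.gcd M (d i0) : ℕ) : F) ≠ 0 := Nat.cast_ne_zero.2 h4
    have h1 := (Pool.Agent.R413.SQ.Joint.ac_tw hM (hd i0)).2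
    refine ⟨tw M (d i0), (Nat.gcd M (d i0) : ℕ) / x i0, fam_tw hM (hd i0), ?_,
      div_ne_zero h4F hx0, ?_⟩
    · intro hcon
      have h2 : p ∈ (tw M (d i0)).primeFactors :=
        Nat.mem_primeFactors.2 ⟨hp, hcon, (fam_tw hM (hd i0)).1.ne_zero⟩
      rw [pf_tw hM (hd i0), Finset.mem_symmDiff, Nat.mem_primeFactors, Nat.mem_primeFactors] at h2
      rcases h2 with h2 | h2
      · exact h2.2 ⟨hp, hpM, hM.1.ne_zero⟩
      · exact h2.2 ⟨hp, hi0, (hd i0).1.ne_zero⟩
    · have h5 : (M : F) * (d i0 : F) = (tw M (d i0) : F) * ((Nat.gcd M (d i0) : ℕ) : F) ^ 2 := by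
        have h6 := congrArg (Nat.cast : ℕ → F) h1
        have h7 : Pool.Agent.R413.SQ.Joint.tw M (d i0) = tw M (d i0) := rfl
        rw [h7] at h6
        push_cast at h6
        exact h6
      rw [← h.sq] at h5
      field_simp
      linear_combination h5
  · exact ⟨M, 1, hM, hpM, one_ne_zero, by ring⟩

lemma nq_mul {p a b : ℕ} (hp : p.Prime) (ha : ¬ p ∣ a) (hb : ¬ p ∣ b) :
    nq p (a * b) = nq p a + nq p b := by
  have : Fact p.Prime := ⟨hp⟩
  have hne : ∀ m : ℕ, ¬ p ∣ m → (m : ZMod p) ≠ 0 := fun m hm h =>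
    hm ((ZMod.natCast_eq_zero_iff _ _).1 h)
  have key : ∀ m : ℕ, ¬ p ∣ m → ((quadraticChar (ZMod p) (m : ZMod p) = 1 ∧ nq p m = 0) ∨
      (quadraticChar (ZMod p) (m : ZMod p) = -1 ∧ nq p m = 1)) := by
    intro m hm
    by_cases h : IsSquare (m : ZMod p)
    · exact Or.inl ⟨(quadraticChar_one_iff_isSquare (hne m hm)).2 h, if_pos h⟩
    · exact Or.inr ⟨quadraticChar_neg_one_iff_not_isSquare.2 h, if_neg h⟩
  have hab : ¬ p ∣ a * b := fun h => ((Nat.Prime.dvd_mul hp).1 h).elim ha hb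
  have h0 : quadraticChar (ZMod p) ((a * b : ℕ) : ZMod p) =
      quadraticChar (ZMod p) (a : ZMod p) * quadraticChar (ZMod p) (b : ZMod p) := by
    rw [Nat.cast_mul, map_mul]
  rcases key a ha with ⟨h1, h2⟩ | ⟨h1, h2⟩ <;> rcases key b hb with ⟨h3, h4⟩ | ⟨h3, h4⟩ <;>
    rcases key (a * b) hab with ⟨h5, h6⟩ | ⟨h5, h6⟩ <;> rw [h1, h3, h5] at h0 <;>
    rw [h2, h4, h6] <;> first | rfl | (exfalso; revert h0; decide)

/-- **The classes are locally trivial.** -/
theorem loc_G (h : Gen d x) (hd : ∀ i, Family (d i)) {M : ℕ} (hM : Family M)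
    {J : Finset ℕ} (hJg : ∀ q ∈ J, Gp q)
    (hJ : ∀ q ∈ J, q ∉ RR d → q ∈ M.primeFactors ∧ IsSquare (-7 : ZMod q))
    (h7 : IsSquare (((∏ q ∈ J, q : ℕ) : ℕ) : ZMod 7))
    (hs : ∀ p ∈ M.primeFactors, p ∉ RR d → IsSquare (-7 : ZMod p) → p ∉ J →
      IsSquare (((∏ q ∈ J, q : ℕ) : ℕ) : ZMod p))
    (hs' : ∀ p ∈ J, p ∉ RR d → nq p ((M / p) * ∏ q ∈ J.erase p, q) = n4 p) :
    (∀ v : HeightOneSpectrum (𝓞 F), LocI (v.adicCompletion F) (21 * (M : ℤ))
      (112 * (M : ℤ) ^ 2) ((∏ q ∈ J, q : ℕ) : ℤ)) ∧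
    LocI ℝ (21 * (M : ℤ)) (112 * (M : ℤ) ^ 2) ((∏ q ∈ J, q : ℕ) : ℤ) := by
  classical
  obtain ⟨he, hpf⟩ := fam_prod hJg
  set e : ℕ := ∏ q ∈ J, q with hedef
  have he0 : (e : ℤ) ≠ 0 := Nat.cast_ne_zero.2 he.1.ne_zero
  have hepos : (0 : ℤ) < e := by
    have := Nat.pos_of_ne_zero he.1.ne_zero
    exact_mod_cast this
  have hM0 : (M : ℤ) ≠ 0 := Nat.cast_ne_zero.2 hM.1.ne_zero
  have hb : 112 * (M : ℤ) ^ 2 ≠ 0 := mul_ne_zero (by norm_num) (pow_ne_zero 2 hM0)
  have hab : (21 * (M : ℤ)) ^ 2 - 4 * (112 * (M : ℤ) ^ 2) ≠ 0 := by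
    have e : (21 * (M : ℤ)) ^ 2 - 4 * (112 * (M : ℤ) ^ 2) = -7 * (M : ℤ) ^ 2 := by ring
    rw [e]
    exact mul_ne_zero (by norm_num) (pow_ne_zero 2 hM0)
  obtain ⟨lq1, lq2⟩ := Pool.Agent.Y971.SG.Lq.t_LQ (21 * (M : ℤ)) (112 * (M : ℤ) ^ 2) e hb hab he0
  refine ⟨fun v => ?_, lq2 hepos⟩
  have : CharZero (v.adicCompletion F) := cz_compl v
  have hpf' : Fact (below v : ℕ).Prime := ⟨(below v).2⟩
  have hp := hpf'.out
  set p : ℕ := (below v : ℕ) with hpdef
  let ψ : ℚ_[p] →+* v.adicCompletion F := Th.pth (v := v) (p := p) (nm_eq v).2.2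
  have hmemJ : p ∣ e ↔ p ∈ J := by
    rw [← hpf]
    exact ⟨fun h => Nat.mem_primeFactors.2 ⟨hp, h, he.1.ne_zero⟩, fun h => Nat.dvd_of_mem_primeFactors h⟩
  by_cases hp2 : p = 2
  · have h2 : ∀ (p : ℕ) [Fact p.Prime], p = 2 → LocI ℚ_[p] (21 * (M : ℤ)) (112 * (M : ℤ) ^ 2) e := by
      intro p _ h
      subst h
      exact Pool.Agent.Y971.SG.Lq.t_L2 M e (fam_mod4 hM) (fam_mod4 he)
    exact loc_map ψ (h2 p hp2)
  -- squares modulo `p`
  have hsq : ¬ p ∣ e → IsSquare ((e : ℕ) : ZMod p) → LocI (v.adicCompletion F) (21 * (M : ℤ))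
      (112 * (M : ℤ) ^ 2) e := by
    intro h1 h2
    refine loc_map ψ (lq1 p (Or.inl ?_))
    refine Pool.Agent.Y971.SG.Lq.t_SQ p e hp2 (fun h => h1 (by exact_mod_cast h)) ?_
    rw [Int.cast_natCast]
    exact h2
  by_cases hR : p ∈ RR d
  · obtain ⟨i0, hi0⟩ := mem_RR.1 hR
    have hdi := Nat.dvd_of_mem_primeFactors hi0
    obtain ⟨M', g, k1, k2, k3, k4⟩ := exists_tw hM hd h hp hdi
    obtain ⟨e', g', l1, l2, l3, l4⟩ := exists_tw he hd h hp hdi
    have hp7 : p ≠ 7 := by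
      intro h7'
      have := (RR_gp hd p hR).m4
      omega
    have h1 := Pool.Agent.Y587.SG.t_LG p M' e' hp2 hp7 (fun h => k2 (by exact_mod_cast h))
      (fun h => l2 (by exact_mod_cast h))
    have hinj : ∀ z : F, z ≠ 0 → algebraMap F (v.adicCompletion F) z ≠ 0 := fun z hz =>
      (map_ne_zero _).2 hz
    have k5 : ((M : ℤ) : v.adicCompletion F) = ((M' : ℤ) : v.adicCompletion F) *
        (algebraMap F (v.adicCompletion F) g) ^ 2 := by
      have := congrArg (algebraMap F (v.adicCompletion F)) k4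
      rw [map_mul, map_pow, map_natCast, map_natCast] at this
      rw [Int.cast_natCast, Int.cast_natCast]
      exact this
    have l5 : ((e : ℤ) : v.adicCompletion F) = ((e' : ℤ) : v.adicCompletion F) *
        (algebraMap F (v.adicCompletion F) g') ^ 2 := by
      have := congrArg (algebraMap F (v.adicCompletion F)) l4
      rw [map_mul, map_pow, map_natCast, map_natCast] at this
      rw [Int.cast_natCast, Int.cast_natCast]
      exact this
    refine loc_tr (hinj g k3) (hinj g' l3) ?_ ?_ l5 (loc_map ψ h1)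
    · rw [Int.cast_mul, k5, Int.cast_mul]
      ring
    · rw [Int.cast_mul, Int.cast_pow, k5, Int.cast_mul, Int.cast_pow]
      ring
  by_cases hpJ' : p ∈ J
  · -- a prime which splits in `ℚ(√-7)`, divides `M` and `e`
    obtain ⟨k1, k2⟩ := hJ p hpJ' hR
    have hpM : p ∣ M := Nat.dvd_of_mem_primeFactors k1
    set M₁ : ℕ := M / p with hM₁
    set e₁ : ℕ := ∏ q ∈ J.erase p, q with he₁
    have hMM : M = p * M₁ := (Nat.mul_div_cancel' hpM).symm
    have hee : e = p * e₁ := by rw [hedef, he₁, Finset.mul_prod_erase J (fun q => q) hpJ']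
    have hM₁p : ¬ p ∣ M₁ := by
      intro h3
      have h4 : p * p ∣ M := by rw [hMM]; exact mul_dvd_mul_left p h3
      have h5 := hM.1 p h4
      exact hp.one_lt.ne' (Nat.isUnit_iff.1 h5)
    have he₁p : ¬ p ∣ e₁ := by
      intro h3
      have h4 : p * p ∣ e := by rw [hee]; exact mul_dvd_mul_left p h3
      have h5 := he.1 p h4
      exact hp.one_lt.ne' (Nat.isUnit_iff.1 h5)
    have hme : ¬ p ∣ M₁ * e₁ := fun h => ((Nat.Prime.dvd_mul hp).1 h).elim hM₁p he₁p
    have k6 : IsSquare ((((M₁ * e₁ : ℕ) : ℤ)) : ZMod p) ↔ ∃ y : ZMod p, y ^ 4 = -7 := by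
      rw [Int.cast_natCast, ← nq_zero, ← n4_zero, hs' p hpJ' hR]
    have k7 := Pool.Agent.Y275.SG.t_LP p (hJg p hpJ').m4 k2 (e₁ : ℤ) ((M₁ * e₁ : ℕ) : ℤ)
      (fun h => he₁p (by exact_mod_cast h)) (fun h => hme (by exact_mod_cast h)) k6
    have he₁0 : e₁ ≠ 0 := by
      rintro h3
      exact he₁p (h3 ▸ dvd_zero p)
    have he₁0' : ((e₁ : ℕ) : ℚ_[p]) ≠ 0 := Nat.cast_ne_zero.2 he₁0
    have k8 : LocI ℚ_[p] (21 * (M : ℤ)) (112 * (M : ℤ) ^ 2) e := by
      refine loc_tr (g := 1 / ((e₁ : ℕ) : ℚ_[p])) (h := 1) (one_div_ne_zero he₁0') one_ne_zero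
        ?_ ?_ ?_ k7
      · rw [hMM]
        push_cast
        field_simp
      · rw [hMM]
        push_cast
        field_simp
      · rw [hee]
        push_cast
        ring
    exact loc_map ψ k8
  have hpJ : ¬ p ∣ e := fun h1 => hpJ' (hmemJ.1 h1)
  by_cases hp7 : p = 7
  · have h8 : ∀ p : ℕ, p = 7 → IsSquare ((e : ℕ) : ZMod p) := by
      rintro p rfl
      exact h7
    exact hsq hpJ (h8 p hp7)
  by_cases hpM : p ∣ M
  · have hpM' : p ∈ M.primeFactors := Nat.mem_primeFactors.2 ⟨hp, hpM, hM.1.ne_zero⟩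
    by_cases h7s : IsSquare (-7 : ZMod p)
    · exact hsq hpJ (hs p hpM' hR h7s hpJ')
    · by_cases h3 : IsSquare ((e : ℕ) : ZMod p)
      · exact hsq hpJ h3
      · have hd0' : ((e : ℤ) : ZMod p) ≠ 0 := fun h => hpJ (by
          exact_mod_cast (ZMod.intCast_zmod_eq_zero_iff_dvd _ _).1 h)
        have h70 : ((-7 : ℤ) : ZMod p) ≠ 0 := by
          intro h
          apply h7s
          have : (-7 : ZMod p) = 0 := by exact_mod_cast h
          rw [this]
          exact ⟨0, by ring⟩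
        have h4 : IsSquare ((((-7) * (e : ℤ) : ℤ)) : ZMod p) := by
          have e1 : quadraticChar (ZMod p) (((-7) * (e : ℤ) : ℤ) : ZMod p) = 1 := by
            rw [Int.cast_mul, map_mul]
            have a1 : quadraticChar (ZMod p) ((-7 : ℤ) : ZMod p) = -1 := by
              rw [quadraticChar_neg_one_iff_not_isSquare]
              intro h
              apply h7s
              exact_mod_cast h
            have a2 : quadraticChar (ZMod p) ((e : ℤ) : ZMod p) = -1 := by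
              rw [quadraticChar_neg_one_iff_not_isSquare]
              intro h
              apply h3
              rw [Int.cast_natCast] at h
              exact h
            rw [a1, a2]
            norm_num
          refine (quadraticChar_one_iff_isSquare ?_).1 e1
          rw [Int.cast_mul]
          exact mul_ne_zero h70 hd0'
        have h5 : IsSquare ((((-7) * (e : ℤ) : ℤ)) : ℚ_[p]) := by
          refine Pool.Agent.Y971.SG.Lq.t_SQ p ((-7) * (e : ℤ)) hp2 ?_ h4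
          intro h
          have := (ZMod.intCast_zmod_eq_zero_iff_dvd _ _).2 h
          rw [Int.cast_mul] at this
          exact mul_ne_zero h70 hd0' this
        refine loc_map ψ (lq1 p (Or.inr ?_))
        obtain ⟨s, hs⟩ := h5
        refine ⟨s * (M : ℚ_[p]), ?_⟩
        push_cast at hs ⊢
        linear_combination (M : ℚ_[p]) ^ 2 * hs
  · exact loc_map ψ (Pool.Agent.Y587.SG.t_LG p M e hp2 hp7 (fun h => hpM (by exact_mod_cast h))
      (fun h => hpJ (by exact_mod_cast h)))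

end

end Pool.Agent.V7H80.MQ
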