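import Pool.Agent.V7H80.MQ.An
import Pool.Agent.V7H80.MQ.Alg
import Pool.Agent.V7H80.MQ.Law

/-!
# The twists of `X_0(49)` over multiquadratic fields
-/

set_option autoImplicit false
set_option linter.unusedSectionVars false

open NumberField IsDedekindDomain WeierstrassCurve

namespace Pool.Agent.V7H80.MQ

open Pool.Agent.TH841.NF.D (Sha)
open Pool.Agent.Results.MP_4a9ea6_nt.TwoPartTwistsX49 (E twist Adm mat core two_iff mat_eq inert
  split E_eq)
open Pool.Agent.Results.MP_92892c_nt.FullClassTwoPartX49 (Family RankZeroShaTwo num)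
open Pool.Agent.Results.MP_03e5d0_nt.FullClassX49 (tw c Pattern an_of sel_det)
open Pool.Agent.Y698 (EX AX)
open scoped Classical

/-- the curve over `F` -/
abbrev EM (F : Type) [Field F] (M : ℕ) : WeierstrassCurve F := (twist M).map (Int.castRingHom F)

/-- the rank part over `F`, and the exponent of the 2-primary part of `Ш` -/
structure Concl (M : ℕ) (F : Type) [Field F] [NumberField F] : Prop where
  an : ∃ Λ : ℂ → ℂ, Differentiable ℂ Λ ∧ (∀ s : ℂ, 2 < s.re → Λ s = (EM F M).LSeries s) ∧ Λ 1 ≠ 0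
  fin : Finite (EM F M).toAffine.Point
  sha : ∀ (k : ℕ) (y : Sha (EM F M)), 2 ^ k • y = 0 → Module.finrank ℚ F • y = 0

section
variable {F : Type} [Field F] [NumberField F] {n : ℕ} {d : Fin n → ℕ} {x : Fin n → F}

lemma det_T {M : ℕ} (hM : Family M) (hd : ∀ i, Family (d i)) (T : Finset (Fin n))
    (h : RankZeroShaTwo (tw M (dT d T))) :
    (Pool.Agent.Y698.SG.mat (Qs (symmDiff M.primeFactors (U d T)))
      (Ps (symmDiff M.primeFactors (U d T)))).det ≠ 0 := by
  have h1 := fam_tw hM (fam_dT hd T)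
  have h2 := (sel_det h1).1 h
  rw [← mat_eq] at h2
  have h3 : (tw M (dT d T)).primeFactors = symmDiff M.primeFactors (U d T) := by
    rw [pf_tw hM (fam_dT hd T), pf_dT hd, symmDiff_comm]
  have h4 : Qs (symmDiff M.primeFactors (U d T)) = inert (tw M (dT d T)) := by
    rw [← h3]
    rfl
  have h5 : Ps (symmDiff M.primeFactors (U d T)) = split (tw M (dT d T)) := by
    rw [← h3]
    rfl
  rw [h4, h5]
  exact h2

lemma good_T {M : ℕ} (hM : Family M) (hd : ∀ i, Family (d i)) (T : Finset (Fin n))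
    (h : RankZeroShaTwo (tw M (dT d T))) {i : ℕ}
    (hi : ∏ q ∈ symmDiff M.primeFactors (U d T), q = 1 + 4 * i) :
    Good' ℚ (EX ℚ (i : ℚ)) 1 := by
  have h1 := fam_tw hM (fam_dT hd T)
  have h3 : (tw M (dT d T)).primeFactors = symmDiff M.primeFactors (U d T) := by
    rw [pf_tw hM (fam_dT hd T), pf_dT hd, symmDiff_comm]
  have h4 : tw M (dT d T) = 1 + 4 * i := by
    rw [← hi, ← h3, Nat.prod_primeFactors_of_squarefree h1.1]
  have h5 := (two_iff h1).2 ((sel_det h1).1 h)
  have h6 := E_eq h4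
  rw [show EX ℚ (i : ℚ) = E (tw M (dT d T)) from h6.symm]
  refine ⟨h5.1, fun k y hy => ?_⟩
  rw [one_smul]
  exact h5.2.1 k y hy

theorem totallyReal (h : Gen d x) (hd : ∀ i, d i ≠ 0) : IsTotallyReal F := by
  refine ⟨fun v => ?_⟩
  rw [InfinitePlace.isReal_iff, ComplexEmbedding.isReal_iff]
  have h1 := h.top (RingHom.eqLocusField (ComplexEmbedding.conjugate v.embedding) v.embedding) ?_
  · ext y
    have h7 : y ∈ RingHom.eqLocusField (ComplexEmbedding.conjugate v.embedding) v.embedding := by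
      rw [h1]
      trivial
    exact h7
  · intro i
    show (starRingEnd ℂ) (v.embedding (x i)) = v.embedding (x i)
    have h2 : v.embedding (x i) ^ 2 = (d i : ℂ) := by rw [← map_pow, h.sq, map_natCast]
    set z := v.embedding (x i) with hz
    -- `z ^ 2` is a positive real number
    have h3 : z.re * z.im = 0 := by
      have := congrArg Complex.im h2
      rw [pow_two, Complex.mul_im, Complex.natCast_im] at this
      linarith
    have h4 : z.re ^ 2 - z.im ^ 2 = d i := by
      have := congrArg Complex.re h2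
      rw [pow_two, Complex.mul_re, Complex.natCast_re] at this
      linarith
    have h5 : (0 : ℝ) < d i := by exact_mod_cast Nat.pos_of_ne_zero (hd i)
    have h6 : z.im = 0 := by
      rcases mul_eq_zero.1 h3 with h | h
      · rw [h] at h4
        nlinarith [sq_nonneg z.im]
      · exact h
    exact Complex.conj_eq_iff_im.2 h6

/-- **The theorem over one field**. -/
theorem main {M : ℕ} (hM : Family M) (hd : ∀ i, Family (d i)) (hind : Indep d) (hg : Good M d)
    (h : Gen d x) : Module.finrank ℚ F = 2 ^ n ∧ IsTotallyReal F ∧ Concl M F := by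
  have hd0 : ∀ i, d i ≠ 0 := fun i => (hd i).1.ne_zero
  have hy : Hyp d x := ⟨h, fun i => (hd i).1, fun i => (hd i).2, hind⟩
  have hG := gal h
  have hfr : Module.finrank ℚ F = 2 ^ n := by
    rw [← IsGalois.card_aut_eq_finrank]
    exact card_gal h hd0 hind
  have hg' := (good_iff hM hd).1 hg
  have hS := fam_gp hM
  obtain ⟨j, hj⟩ := exists_j hS
  have hj' : M = 1 + 4 * j := by rw [← hj, Nat.prod_primeFactors_of_squarefree hM.1]
  have hE : EM F M = EX F (j : F) := Pool.Agent.Y698.twZ_map hj' F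
  refine ⟨hfr, totallyReal h hd0, ?_, ?_, ?_⟩
  · rw [hE]
    exact anF hy hS hj fun T => det_T hM hd T (hg' T)
  · rw [hE]
    exact (algF hy hS hj fun T i hi => good_T hM hd T (hg' T) hi).1
  · rw [hE, hfr]
    exact (algF hy hS hj fun T i hi => good_T hM hd T (hg' T) hi).2

/-- an independent subset -/
theorem basis (hd : ∀ i, Family (d i)) (h : Gen d x) :
    ∃ (m : ℕ) (e : Fin m → Fin n), Gen (fun i => d (e i)) (fun i => x (e i)) ∧
      Indep (fun i => d (e i)) := by
  have hd0 : ∀ i, d i ≠ 0 := fun i => (hd i).1.ne_zero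
  have hex : ∃ m, ∃ e : Fin m → Fin n, Gen (fun i => d (e i)) (fun i => x (e i)) := ⟨n, id, h⟩
  have key : ∀ (m : ℕ) (e : Fin m → Fin n), Gen (fun i => d (e i)) (fun i => x (e i)) →
      ¬ Indep (fun i => d (e i)) →
      ∃ m' < m, ∃ e : Fin m' → Fin n, Gen (fun i => d (e i)) (fun i => x (e i)) := by
    intro m e he hne
    unfold Indep at hne
    push Not at hne
    obtain ⟨T, ⟨i0, hi0⟩, hsq⟩ := hne
    rcases m with _ | m
    · exact i0.elim0
    · refine ⟨m, Nat.lt_succ_self m, fun i => e (i0.succAbove i), fun i => he.sq _, fun L hL => ?_⟩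
      have hL' : ∀ i, i ≠ i0 → x (e i) ∈ L := by
        intro i hi
        obtain ⟨k, rfl⟩ := Fin.exists_succAbove_eq hi
        exact hL k
      refine he.top L fun i => ?_
      by_cases hi : i = i0
      · subst hi
        obtain ⟨g, hg⟩ := hsq
        have h1 : (∏ k ∈ T, x (e k)) ^ 2 = (g : F) ^ 2 := by
          rw [← Finset.prod_pow, Finset.prod_congr rfl fun k _ => he.sq k, ← Nat.cast_prod, hg]
          push_cast
          ring
        have hne0 : ∏ k ∈ T.erase i, x (e k) ≠ 0 := by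
          rw [Finset.prod_ne_zero_iff]
          intro k _
          exact xne h hd0 (e k)
        have hmem : ∏ k ∈ T.erase i, x (e k) ∈ L :=
          prod_mem fun k hk => hL' k (Finset.ne_of_mem_erase hk)
        have h2 : x (e i) * ∏ k ∈ T.erase i, x (e k) = ∏ k ∈ T, x (e k) :=
          Finset.mul_prod_erase T (fun k => x (e k)) hi0
        have h3 : ∏ k ∈ T, x (e k) ∈ L := by
          rcases sq_eq_sq_iff_eq_or_eq_neg.1 h1 with h | h
          · rw [h]
            exact natCast_mem L g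
          · rw [h]
            exact neg_mem (natCast_mem L g)
        have h4 : x (e i) = (∏ k ∈ T, x (e k)) / ∏ k ∈ T.erase i, x (e k) := by
          rw [← h2]
          field_simp
        rw [h4]
        exact div_mem h3 hmem
      · exact hL' i hi
  obtain ⟨e, he⟩ := Nat.find_spec hex
  refine ⟨Nat.find hex, e, he, ?_⟩
  by_contra hne
  obtain ⟨m', hm', e', he'⟩ := key _ e he hne
  exact Nat.find_min hex hm' ⟨e', he'⟩

end

/-! ### Towers -/

/-- a group of numbers of the class -/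
structure IsGrp (H : Set ℕ) : Prop where
  fam : ∀ N ∈ H, Family N
  one : 1 ∈ H
  mul : ∀ N ∈ H, ∀ N' ∈ H, tw N N' ∈ H

lemma dT_mem {H : Set ℕ} (hH : IsGrp H) {n : ℕ} {d : Fin n → ℕ} (hd : ∀ i, d i ∈ H)
    (T : Finset (Fin n)) : dT d T ∈ H := by
  have hf : ∀ i, Family (d i) := fun i => hH.fam _ (hd i)
  induction T using Finset.induction_on with
  | empty =>
    rw [dT_empty hf]
    exact hH.one
  | insert a T ha ih =>
    have h1 : insert a T = symmDiff {a} T := by
      ext i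
      rw [Finset.mem_insert, Finset.mem_symmDiff, Finset.mem_singleton]
      constructor
      · rintro (rfl | h)
        · exact Or.inl ⟨rfl, ha⟩
        · exact Or.inr ⟨h, fun h1 => ha (h1 ▸ h)⟩
      · rintro (h | h)
        · exact Or.inl h.1
        · exact Or.inr h.1
    rw [h1, dT_symm hf, dT_single hf]
    exact hH.mul _ (hd a) _ ih

theorem main_grp {H : Set ℕ} (hH : IsGrp H) {M : ℕ} (hM : Family M)
    (hgood : ∀ N ∈ H, RankZeroShaTwo (tw M N)) {F : Type} [Field F] [NumberField F] {n : ℕ}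
    {d : Fin n → ℕ} {x : Fin n → F} (hd : ∀ i, d i ∈ H) (h : Gen d x) :
    (∃ m : ℕ, Module.finrank ℚ F = 2 ^ m) ∧ IsTotallyReal F ∧ Concl M F := by
  have hf : ∀ i, Family (d i) := fun i => hH.fam _ (hd i)
  obtain ⟨m, e, h1, h2⟩ := basis hf h
  have h3 : Good M (fun i => d (e i)) :=
    (good_iff hM fun i => hf (e i)).2 fun T => hgood _ (dT_mem hH (fun i => hd (e i)) T)
  obtain ⟨h4, h5, h6⟩ := main hM (fun i => hf (e i)) h2 h3 h1
  exact ⟨⟨m, h4⟩, h5, h6⟩

/-- the states of the construction -/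
structure St (A B : Finset ℕ) : Prop where
  fA : ∀ M ∈ A, Family M
  grp : IsGrp (B : Set ℕ)
  good : ∀ M ∈ A, ∀ N ∈ B, RankZeroShaTwo (tw M N)

lemma St.stepB {A B : Finset ℕ} (h : St A B) : ∃ B', B ⊂ B' ∧ St A B' := by
  have hBf : ∀ N ∈ B, Family N := fun N hN => h.grp.fam N hN
  obtain ⟨D, hD, hDB, hg⟩ := exists_D (T := (A ×ˢ B).image fun z => tw z.1 z.2) (by
    intro M hM
    obtain ⟨⟨a, b⟩, hab, rfl⟩ := Finset.mem_image.1 hM
    rw [Finset.mem_product] at hab
    exact fam_tw (h.fA a hab.1) (hBf b hab.2)) B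
  refine ⟨B ∪ B.image fun N => tw N D, ?_, h.fA, ⟨?_, ?_, ?_⟩, ?_⟩
  · rw [Finset.ssubset_iff_of_subset Finset.subset_union_left]
    refine ⟨D, Finset.mem_union_right _ (Finset.mem_image.2 ⟨1, h.grp.one, one_tw' hD⟩), hDB⟩
  · intro N hN
    rw [Finset.mem_coe, Finset.mem_union] at hN
    rcases hN with hN | hN
    · exact hBf N hN
    · obtain ⟨b, hb, rfl⟩ := Finset.mem_image.1 hN
      exact fam_tw (hBf b hb) hD
  · rw [Finset.mem_coe]
    exact Finset.mem_union_left _ h.grp.one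
  · intro N hN N' hN'
    rw [Finset.mem_coe, Finset.mem_union] at hN hN' ⊢
    rcases hN with hN | hN <;> rcases hN' with hN' | hN'
    · exact Or.inl (h.grp.mul N hN N' hN')
    · obtain ⟨b, hb, rfl⟩ := Finset.mem_image.1 hN'
      refine Or.inr (Finset.mem_image.2 ⟨tw N b, h.grp.mul N hN b hb, ?_⟩)
      exact tw_assoc' (hBf N hN) (hBf b hb) hD
    · obtain ⟨b, hb, rfl⟩ := Finset.mem_image.1 hN
      refine Or.inr (Finset.mem_image.2 ⟨tw b N', h.grp.mul b hb N' hN', ?_⟩)
      rw [tw_assoc' (hBf b hb) (hBf N' hN') hD, tw_comm' (hBf N' hN') hD,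
        ← tw_assoc' (hBf b hb) hD (hBf N' hN')]
    · obtain ⟨b, hb, rfl⟩ := Finset.mem_image.1 hN
      obtain ⟨b', hb', rfl⟩ := Finset.mem_image.1 hN'
      refine Or.inl ?_
      have e : tw (tw b D) (tw b' D) = tw b b' := by
        rw [tw_comm' (hBf b' hb') hD, ← tw_assoc' (fam_tw (hBf b hb) hD) hD (hBf b' hb'),
          tw_tw_self (hBf b hb) hD]
      rw [e]
      exact h.grp.mul b hb b' hb'
  · intro M hM N hN
    rw [Finset.mem_union] at hN
    rcases hN with hN | hN
    · exact h.good M hM N hN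
    · obtain ⟨b, hb, rfl⟩ := Finset.mem_image.1 hN
      rw [← tw_assoc' (h.fA M hM) (hBf b hb) hD]
      exact hg _ (Finset.mem_image.2 ⟨(M, b), Finset.mem_product.2 ⟨hM, hb⟩, rfl⟩)

lemma St.stepA {A B : Finset ℕ} (h : St A B) : ∃ A', A ⊂ A' ∧ St A' B := by
  have hBf : ∀ N ∈ B, Family N := fun N hN => h.grp.fam N hN
  obtain ⟨D, hD, hDA, hg⟩ := exists_D hBf A
  refine ⟨insert D A, Finset.ssubset_insert hDA, ?_, h.grp, ?_⟩
  · intro M hM
    rcases Finset.mem_insert.1 hM with rfl | hM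
    · exact hD
    · exact h.fA M hM
  · intro M hM N hN
    rcases Finset.mem_insert.1 hM with rfl | hM
    · rw [tw_comm' hD (hBf N hN)]
      exact hg N hN
    · exact h.good M hM N hN

/-- **the towers** -/
theorem towers {A : Finset ℕ} (hA : ∀ M ∈ A, Family M ∧ RankZeroShaTwo M) :
    ∃ 𝓜 H : Set ℕ, (A : Set ℕ) ⊆ 𝓜 ∧ 𝓜.Infinite ∧ H.Infinite ∧ (∀ M ∈ 𝓜, Family M) ∧ IsGrp H ∧
      ∀ M ∈ 𝓜, ∀ N ∈ H, RankZeroShaTwo (tw M N) := by
  have h0 : St A {1} := by
    refine ⟨fun M hM => (hA M hM).1, ⟨?_, ?_, ?_⟩, ?_⟩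
    · intro N hN
      rw [Finset.mem_coe, Finset.mem_singleton] at hN
      rw [hN]
      exact fam_one
    · simp
    · intro N hN N' hN'
      rw [Finset.mem_coe, Finset.mem_singleton] at hN hN' ⊢
      rw [hN, hN', tw_one' fam_one]
    · intro M hM N hN
      rw [Finset.mem_singleton] at hN
      rw [hN, tw_one' (hA M hM).1]
      exact (hA M hM).2
  have hstep : ∀ z : {z : Finset ℕ × Finset ℕ // St z.1 z.2},
      ∃ z' : {z : Finset ℕ × Finset ℕ // St z.1 z.2}, z.1.1 ⊂ z'.1.1 ∧ z.1.2 ⊂ z'.1.2 := by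
    rintro ⟨⟨A, B⟩, h⟩
    obtain ⟨B', hB', h'⟩ := h.stepB
    obtain ⟨A', hA', h''⟩ := h'.stepA
    exact ⟨⟨⟨A', B'⟩, h''⟩, hA', hB'⟩
  choose g hg using hstep
  set s : ℕ → {z : Finset ℕ × Finset ℕ // St z.1 z.2} := fun k => g^[k] ⟨⟨A, {1}⟩, h0⟩ with hs
  have hs0 : s 0 = ⟨⟨A, {1}⟩, h0⟩ := rfl
  have hsk : ∀ k, s (k + 1) = g (s k) := fun k => Function.iterate_succ_apply' g k _
  have mA : StrictMono fun k => (s k).1.1 := strictMono_nat_of_lt_succ fun k => by
    simp only [hsk]
    exact (hg (s k)).1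
  have mB : StrictMono fun k => (s k).1.2 := strictMono_nat_of_lt_succ fun k => by
    simp only [hsk]
    exact (hg (s k)).2
  have hinf : ∀ f : ℕ → Finset ℕ, StrictMono f → (⋃ k, (f k : Set ℕ)).Infinite := by
    intro f hf hfin
    have h1 : ∀ k, f k ⊆ hfin.toFinset := by
      intro k a ha
      rw [Set.Finite.mem_toFinset]
      exact Set.mem_iUnion.2 ⟨k, ha⟩
    have h2 : ∀ k, k ≤ (f k).card := by
      intro k
      induction k with
      | zero => exact Nat.zero_le _
      | succ k ih =>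
        have h4 : (f k).card < (f (k + 1)).card := Finset.card_lt_card (hf (Nat.lt_succ_self k))
        omega
    have h3 := (h2 (hfin.toFinset.card + 1)).trans (Finset.card_le_card (h1 _))
    omega
  refine ⟨⋃ k, ((s k).1.1 : Set ℕ), ⋃ k, ((s k).1.2 : Set ℕ), ?_, hinf _ mA, hinf _ mB, ?_,
    ⟨?_, ?_, ?_⟩, ?_⟩
  · exact Set.subset_iUnion (fun k => ((s k).1.1 : Set ℕ)) 0
  · intro M hM
    obtain ⟨k, hk⟩ := Set.mem_iUnion.1 hM
    exact (s k).2.fA M hk
  · intro N hN
    obtain ⟨k, hk⟩ := Set.mem_iUnion.1 hN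
    exact (s k).2.grp.fam N hk
  · exact Set.mem_iUnion.2 ⟨0, (s 0).2.grp.one⟩
  · intro N hN N' hN'
    obtain ⟨k, hk⟩ := Set.mem_iUnion.1 hN
    obtain ⟨l, hl⟩ := Set.mem_iUnion.1 hN'
    refine Set.mem_iUnion.2 ⟨max k l, (s (max k l)).2.grp.mul N ?_ N' ?_⟩
    · exact mB.monotone (le_max_left k l) hk
    · exact mB.monotone (le_max_right k l) hl
  · intro M hM N hN
    obtain ⟨k, hk⟩ := Set.mem_iUnion.1 hM
    obtain ⟨l, hl⟩ := Set.mem_iUnion.1 hN
    exact (s (max k l)).2.good M (mA.monotone (le_max_left k l) hk) N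
      (mB.monotone (le_max_right k l) hl)

end Pool.Agent.V7H80.MQ
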