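import Pool.Agent.V7H80.MQ.Place
import Pool.Agent.Y698.SG.Az

/-!
# The places of a multiquadratic field above a prime number
-/

set_option autoImplicit false
set_option linter.unusedSectionVars false

open NumberField IsDedekindDomain Pool.Agent.H921R2.TatePole Pool.Agent.H82R3.EK
open Pool.Agent.Y698 Pool.Agent.Y698.SG

namespace Pool.Agent.V7H80.MQ

/-- the valuation of an unramified prime -/
theorem val_of_ram {K : Type} [Field K] [NumberField K] (q : Nat.Primes)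
    (v : HeightOneSpectrum (𝓞 K)) (hv : below v = q) (h1 : v.asIdeal.ramificationIdx ℤ = 1) :
    v.valuation K ((q : ℕ) : K) = WithZero.exp (-1 : ℤ) := by
  have hq : Fact (q : ℕ).Prime := ⟨q.2⟩
  have hv' : (below v : ℕ) = (q : ℕ) := by rw [hv]
  have hmem : ((q : ℕ) : 𝓞 K) ∈ v.asIdeal := by
    rw [← hv']
    exact (nm_eq v).2.2
  have hl := liesOver_of_mem K q.2 v hmem
  have hvp := v.isPrime
  have hmap : (Ideal.span {((q : ℕ) : ℤ)}).map (algebraMap ℤ (𝓞 K)) =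
      Ideal.span {((q : ℕ) : 𝓞 K)} := by
    rw [Ideal.map_span, Set.image_singleton]
    simp
  have hq0 : ((q : ℕ) : 𝓞 K) ≠ 0 := Nat.cast_ne_zero.2 q.2.ne_zero
  have hne : (Ideal.span {((q : ℕ) : ℤ)}).map (algebraMap ℤ (𝓞 K)) ≠ ⊥ := by
    rw [hmap, Ne, Ideal.span_singleton_eq_bot]
    exact hq0
  rw [Ideal.IsDedekindDomain.ramificationIdx_eq_multiplicity (Ideal.span {((q : ℕ) : ℤ)}) v.asIdeal
    hne, hmap] at h1
  have h2 : ¬ v.asIdeal ^ 2 ∣ Ideal.span {((q : ℕ) : 𝓞 K)} := by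
    have hfin : FiniteMultiplicity v.asIdeal (Ideal.span {((q : ℕ) : 𝓞 K)}) := by
      apply FiniteMultiplicity.of_prime_left
      · exact v.prime
      · rw [Ideal.zero_eq_bot, Ne, Ideal.span_singleton_eq_bot]
        exact hq0
    intro h3
    have := hfin.le_multiplicity_of_pow_dvd h3
    omega
  have h3 : v.valuation K ((q : ℕ) : K) = v.intValuation ((q : ℕ) : 𝓞 K) := by
    have e : ((q : ℕ) : K) = algebraMap (𝓞 K) K ((q : ℕ) : 𝓞 K) := (map_natCast _ _).symm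
    rw [e, v.valuation_of_algebraMap]
  rw [h3]
  have h4 : v.intValuation ((q : ℕ) : 𝓞 K) < 1 := (v.intValuation_lt_one_iff_mem _).2 hmem
  have h5 : ¬ v.intValuation ((q : ℕ) : 𝓞 K) ≤ WithZero.exp (-((2 : ℕ) : ℤ)) := by
    rw [v.intValuation_le_pow_iff_dvd]
    exact h2
  have h6 : v.intValuation ((q : ℕ) : 𝓞 K) ≠ 0 := v.intValuation_ne_zero _ hq0
  obtain ⟨k, hk⟩ : ∃ k : ℤ, v.intValuation ((q : ℕ) : 𝓞 K) = WithZero.exp k :=
    ⟨WithZero.log _, (WithZero.exp_log h6).symm⟩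
  rw [hk] at h4 h5 ⊢
  rw [← WithZero.exp_zero, WithZero.exp_lt_exp] at h4
  rw [WithZero.exp_le_exp] at h5
  congr 1
  omega

section
variable {F : Type} [Field F] [NumberField F] {n : ℕ} {d : Fin n → ℕ} {x : Fin n → F}

/-- the hypotheses on the field -/
structure Hyp (d : Fin n → ℕ) (x : Fin n → F) : Prop where
  gen : Gen d x
  sqf : ∀ i, Squarefree (d i)
  four : ∀ i, ∀ q ∈ (d i).primeFactors, q % 4 = 1
  ind : ∀ T : Finset (Fin n), T.Nonempty → ¬ IsSquare (∏ i ∈ T, d i)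

theorem splitP (h : Hyp d x) (p : Nat.Primes) :
    ∃ (f : ℕ) (v : Fin n → ZMod 2), (f = 1 ∨ f = 2) ∧
      (f = 1 ↔ ∀ T : Finset (Fin n), ∑ i ∈ T, mm d p i = 0 → ∑ i ∈ T, v i = 0) ∧
      (∀ T : Finset (Fin n), ∑ i ∈ T, mm d p i = 0 →
        jacobiSym (p : ℕ) (∏ q ∈ U d T, q) = (-1) ^ (∑ i ∈ T, v i).val) ∧
      (∀ w : HeightOneSpectrum (𝓞 F), below w = p → deg w = f) ∧
      Fintype.card {w : HeightOneSpectrum (𝓞 F) // below w = p} * f *
        (if ∃ i, (p : ℕ) ∣ d i then 2 else 1) = 2 ^ n := by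
  have hpF : Fact (p : ℕ).Prime := ⟨p.2⟩
  have key : ∀ w : HeightOneSpectrum (𝓞 F), below w = p → _ := fun w hw =>
    place h.gen h.sqf h.four h.ind w p.2 (by
      rw [← hw]
      exact (nm_eq w).2.2)
  have hdeg : ∀ (w : HeightOneSpectrum (𝓞 F)) (f : ℕ), below w = p →
      Nat.card (𝓞 F ⧸ w.asIdeal) = (p : ℕ) ^ f → deg w = f := by
    intro w f hw hf
    have h2 := (nm_eq w).1
    unfold nm at h2
    rw [Ideal.absNorm_apply, Submodule.cardQuot_apply, hf, hw] at h2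
    exact (Nat.pow_right_injective p.2.two_le h2).symm
  -- a place above `p`
  obtain ⟨w0, hw0⟩ : ∃ w0 : HeightOneSpectrum (𝓞 F), below w0 = p := by
    obtain ⟨⟨P, hP1, hP2⟩⟩ := (Ideal.span {((p : ℕ) : ℤ)}).nonempty_primesOver (S := 𝓞 F)
    have hmem : ((p : ℕ) : 𝓞 F) ∈ P := by
      have h3 : ((p : ℕ) : ℤ) ∈ P.under ℤ := by
        rw [← hP2.over]
        exact Ideal.mem_span_singleton_self _
      rw [Ideal.mem_comap] at h3
      simpa using h3
    have hne : P ≠ ⊥ := by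
      rintro rfl
      have h4 : ((p : ℕ) : 𝓞 F) = 0 := hmem
      exact p.2.ne_zero (by exact_mod_cast h4)
    set w : HeightOneSpectrum (𝓞 F) := ⟨P, hP1, hne⟩ with hw
    refine ⟨w, ?_⟩
    by_contra hcon
    have hne' : (below w : ℕ) ≠ (p : ℕ) := fun h => hcon (Subtype.ext h)
    have hcop : IsCoprime ((below w : ℕ) : ℤ) ((p : ℕ) : ℤ) :=
      Nat.isCoprime_iff_coprime.2 ((Nat.coprime_primes (below w).2 p.2).2 hne')
    obtain ⟨s, t, hst⟩ := hcop
    apply hP1.ne_top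
    rw [Ideal.eq_top_iff_one]
    have h5 : (((s * (below w : ℕ) + t * (p : ℕ) : ℤ)) : 𝓞 F) ∈ P := by
      push_cast
      exact P.add_mem (P.mul_mem_left _ (nm_eq w).2.2) (P.mul_mem_left _ hmem)
    rwa [hst, Int.cast_one] at h5
  obtain ⟨f, v, k1, k2, k3, k4, k5, -⟩ := key w0 hw0
  refine ⟨f, v, k1, k2, k3, ?_, ?_⟩
  · intro w hw
    obtain ⟨f', v', l1, l2, l3, l4, l5, -⟩ := key w hw
    rw [hdeg w f' hw l4]
    have hn1 : ∀ a : ZMod 2, (-1 : ℤ) ^ a.val = 1 ↔ a = 0 := by decide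
    have hiff : f' = 1 ↔ f = 1 := by
      rw [l2, k2]
      constructor
      · intro h1 T hT
        rw [← hn1, ← k3 T hT, l3 T hT, hn1]
        exact h1 T hT
      · intro h1 T hT
        rw [← hn1, ← l3 T hT, k3 T hT, hn1]
        exact h1 T hT
    rcases k1 with k | k <;> rcases l1 with l | l
    · rw [k, l]
    · rw [k, l] at hiff
      simp at hiff
    · rw [k, l] at hiff
      simp at hiff
    · rw [k, l]
  · rw [card_fiber]
    exact k5

/-- the valuation of the unramified primes -/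
theorem val_un (h : Hyp d x) (p : Nat.Primes) (hp : ¬ ∃ i, (p : ℕ) ∣ d i)
    (w : HeightOneSpectrum (𝓞 F)) (hw : below w = p) :
    w.valuation F ((p : ℕ) : F) = WithZero.exp (-1 : ℤ) := by
  obtain ⟨f, v, -, -, -, -, -, k6⟩ := place h.gen h.sqf h.four h.ind w p.2 (by
      rw [← hw]
      exact (nm_eq w).2.2)
  exact val_of_ram p w hw (k6 hp)

end

end Pool.Agent.V7H80.MQ
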