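import Pool.Agent.V7H80.MQ.Split

/-!
# One place of a multiquadratic field
-/

set_option autoImplicit false
set_option linter.unusedSectionVars false

open NumberField IsDedekindDomain

namespace Pool.Agent.V7H80.MQ

lemma deg_le {k : Type} [Field k] [Finite k] {p f m : ℕ} (hp : 1 < p) (hm : 0 < m)
    (hc : Nat.card k = p ^ f) (h : ∀ y : k, y ^ p ^ m = y) : f ≤ m := by
  classical
  let _ : Fintype k := Fintype.ofFinite k
  have h3 : ∀ u : kˣ, u ^ (p ^ m - 1) = 1 := by
    intro u
    have h4 := h (u : k)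
    have h5 : (u : k) ^ (p ^ m - 1) = 1 := by
      have h6 : (u : k) * (u : k) ^ (p ^ m - 1) = (u : k) * 1 := by
        rw [← pow_succ', Nat.sub_add_cancel (Nat.one_le_pow _ _ (by omega)), mul_one]
        exact h4
      exact mul_left_cancel₀ u.ne_zero h6
    ext
    push_cast
    exact h5
  have h4 := Monoid.exponent_dvd_of_forall_pow_eq_one h3
  rw [IsCyclic.exponent_eq_card, Nat.card_units, hc] at h4
  have h5 : 0 < p ^ m - 1 := by
    have := Nat.one_lt_pow hm.ne' hp
    omega
  have h6 := Nat.le_of_dvd h5 h4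
  have h7 : p ^ f ≤ p ^ m := by
    have := Nat.one_le_pow f p (by omega)
    omega
  exact (Nat.pow_le_pow_iff_right hp).1 h7

lemma two_cases (a : ZMod 2) : a = 0 ∨ a = 1 := by revert a; decide

section place

variable {F : Type} [Field F] [NumberField F] {n : ℕ} {d : Fin n → ℕ} {x : Fin n → F}

theorem place (h : Gen d x) (hd : ∀ i, Squarefree (d i))
    (hd4 : ∀ i, ∀ q ∈ (d i).primeFactors, q % 4 = 1)
    (hind : ∀ T : Finset (Fin n), T.Nonempty → ¬ IsSquare (∏ i ∈ T, d i))
    (w : HeightOneSpectrum (𝓞 F)) {p : ℕ} (hp : p.Prime) (hw : (p : 𝓞 F) ∈ w.asIdeal) :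
    ∃ (f : ℕ) (v : Fin n → ZMod 2), (f = 1 ∨ f = 2) ∧
      (f = 1 ↔ ∀ T : Finset (Fin n), ∑ i ∈ T, mm d p i = 0 → ∑ i ∈ T, v i = 0) ∧
      (∀ T : Finset (Fin n), ∑ i ∈ T, mm d p i = 0 →
        jacobiSym p (∏ q ∈ U d T, q) = (-1) ^ (∑ i ∈ T, v i).val) ∧
      Nat.card (𝓞 F ⧸ w.asIdeal) = p ^ f ∧
      ((Ideal.span {(p : ℤ)}).primesOver (𝓞 F)).ncard * f * (if ∃ i, p ∣ d i then 2 else 1) =
        2 ^ n ∧ ((¬ ∃ i, p ∣ d i) → w.asIdeal.ramificationIdx ℤ = 1) := by
  classical
  have hG := gal h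
  have hfp : Fact p.Prime := ⟨hp⟩
  have hd0 : ∀ i, d i ≠ 0 := fun i => (hd i).ne_zero
  set P := w.asIdeal with hP
  have hPp : P.IsPrime := w.isPrime
  have hPm : P.IsMaximal := w.isPrime.isMaximal w.ne_bot
  have hmem : ∀ a : ℤ, (a : 𝓞 F) ∈ P → (p : ℤ) ∣ a := by
    intro a ha
    by_contra hcon
    have h1 : IsCoprime a (p : ℤ) :=
      ((Nat.prime_iff_prime_int.1 hp).coprime_iff_not_dvd.2 hcon).symm
    obtain ⟨b, c, hbc⟩ := h1
    apply hPp.ne_top
    rw [Ideal.eq_top_iff_one]
    have h2 : ((b * a + c * (p : ℤ) : ℤ) : 𝓞 F) ∈ P := by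
      push_cast
      exact P.add_mem (P.mul_mem_left _ ha) (P.mul_mem_left _ hw)
    rwa [hbc, Int.cast_one] at h2
  have hmax : (Ideal.span {(p : ℤ)}).IsMaximal := Int.ideal_span_isMaximal_of_prime p
  have hlies : P.LiesOver (Ideal.span {(p : ℤ)}) := by
    constructor
    refine hmax.eq_of_le ?_ ?_
    · exact (inferInstance : (P.under ℤ).IsPrime).ne_top
    · rw [Ideal.span_singleton_le_iff_mem, Ideal.mem_comap]
      simpa using hw
  have hcard : Nat.card (ℤ ⧸ Ideal.span {(p : ℤ)}) = p := by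
    rw [Int.card_ideal_quot]
  have hfinq : Finite (𝓞 F ⧸ P) := Ideal.finiteQuotientOfFreeOfNeBot P w.ne_bot
  obtain ⟨φ, hφ0⟩ := IsArithFrobAt.exists_of_isInvariant ℤ Gal(F/ℚ) P
  have hφ : ∀ y : 𝓞 F, φ • y - y ^ p ∈ P := by
    intro y
    have h1 := hφ0 y
    rw [← hlies.over, hcard] at h1
    exact h1
  choose sg hsg using fun σ : Gal(F/ℚ) => sgn_ex h σ
  have huniq : ∀ σ τ : Gal(F/ℚ), sg σ = sg τ → σ = τ := by
    intro σ τ hστ
    have h3 : τ⁻¹ * σ = 1 := by
      apply ext_one h
      intro i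
      rw [AlgEquiv.mul_apply, hsg σ i, hστ, ← hsg τ i]
      exact τ.symm_apply_apply _
    rw [inv_mul_eq_one] at h3
    exact h3.symm
  have hsg1 : sg 1 = 0 := by
    funext i
    have h1 := hsg 1 i
    have h2 : (-1 : F) ^ (sg 1 i).val * x i = (-1) ^ (0 : ZMod 2).val * x i := by
      rw [← h1, ZMod.val_zero, pow_zero, one_mul]
      rfl
    exact neg_pow_inj (mul_right_cancel₀ (xne h hd0 i) h2)
  choose r t k hr ht hk htk hσr using exists_r h hd hd4
  -- the symbols of the primes
  have hpU : ∀ T : Finset (Fin n), ∑ i ∈ T, mm d p i = 0 → ¬ p ∣ ∏ q ∈ U d T, q := by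
    intro T hT hdvd
    obtain ⟨q, hq, hpq⟩ := (Prime.dvd_finsetProd_iff (Nat.prime_iff.1 hp) _).1 hdvd
    have h1 := (Nat.prime_dvd_prime_iff_eq hp (U_prime hq)).1 hpq
    rw [← h1, mem_U hd0 hp, hT] at hq
    exact absurd hq (by decide)
  have hrP : ∀ T : Finset (Fin n), ∑ i ∈ T, mm d p i = 0 → r T ∉ P := by
    intro T hT hcon
    have h1 : ((∏ q ∈ U d T, q : ℕ) : 𝓞 F) ∈ P := by
      rw [← hr T, pow_two]
      exact P.mul_mem_left _ hcon
    have h2 := hmem ((∏ q ∈ U d T, q : ℕ) : ℤ) (by rw [Int.cast_natCast]; exact h1)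
    exact hpU T hT (by exact_mod_cast h2)
  have hσt : ∀ (σ : Gal(F/ℚ)) (T : Finset (Fin n)), ∑ i ∈ T, sg σ i = 1 → σ • t T = 1 - t T := by
    intro σ T hT
    have h1 := hσr T σ (sg σ) (hsg σ)
    have h1' : (1 : ZMod 2).val = 1 := rfl
    rw [hT, h1', pow_one] at h1
    have h2 : σ • (2 * t T) = 2 * (σ • t T) := by
      rw [smul_mul']
      congr 1
      have : (2 : 𝓞 F) = 1 + 1 := by norm_num
      rw [this, smul_add, smul_one]
    have h3 : σ • (1 + r T) = 1 - r T := by
      rw [smul_add, smul_one, h1]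
      ring
    have h4 : 2 * (σ • t T) = 2 * (1 - t T) := by
      rw [← h2, ht T, h3]
      linear_combination ht T
    exact mul_left_cancel₀ two_ne_zero h4
  have hσt0 : ∀ (σ : Gal(F/ℚ)) (T : Finset (Fin n)), ∑ i ∈ T, sg σ i = 0 → σ • t T = t T := by
    intro σ T hT
    have h1 := hσr T σ (sg σ) (hsg σ)
    rw [hT, ZMod.val_zero, pow_zero, one_mul] at h1
    have h2 : σ • (2 * t T) = 2 * (σ • t T) := by
      rw [smul_mul']
      congr 1
      have : (2 : 𝓞 F) = 1 + 1 := by norm_num
      rw [this, smul_add, smul_one]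
    have h3 : σ • (1 + r T) = 1 + r T := by
      rw [smul_add, smul_one, h1]
    have h4 : 2 * (σ • t T) = 2 * t T := by
      rw [← h2, ht T, h3]
    exact mul_left_cancel₀ two_ne_zero h4
  -- step A
  have hA : ∀ σ : Gal(F/ℚ), (∀ y : 𝓞 F, σ • y - y ∈ P) → ∀ T : Finset (Fin n),
      ∑ i ∈ T, mm d p i = 0 → ∑ i ∈ T, sg σ i = 0 := by
    intro σ hσ T hT
    rcases two_cases (∑ i ∈ T, sg σ i) with h1 | h1
    · exact h1
    · exfalso
      have h2 := hσ (t T)
      rw [hσt σ T h1] at h2
      apply hrP T hT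
      have h3 : r T = -(1 - t T - t T) := by linear_combination -(ht T)
      rw [h3]
      exact P.neg_mem h2
  -- step B
  have hB : ∀ T : Finset (Fin n), ∑ i ∈ T, mm d p i = 0 →
      jacobiSym p (∏ q ∈ U d T, q) = (-1) ^ (∑ i ∈ T, sg φ i).val := by
    intro T hT
    set s : ℕ := ∏ q ∈ U d T, q with hs
    have hs4 : s % 4 = 1 := prod_mod4 fun q hq => U_mod hd4 hq
    rcases hp.eq_two_or_odd' with hp2 | hodd
    · subst hp2
      have hso : Odd s := Nat.odd_iff.2 (by omega)
      have e1 : jacobiSym ((2 : ℕ) : ℤ) s = ZMod.χ₈ s := jacobiSym.at_two hso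
      rw [e1, ZMod.χ₈_nat_eq_if_mod_eight]
      have h2 := hφ (t T)
      rw [htk T] at h2
      have hs8 : s = 1 + 4 * k T := hk T
      rcases two_cases (∑ i ∈ T, sg φ i) with h1 | h1
      · rw [hσt0 φ T h1] at h2
        have h3 : ((k T : ℤ) : 𝓞 F) ∈ P := by
          have e : ((k T : ℤ) : 𝓞 F) = -(t T - (t T + (k T : 𝓞 F))) := by
            push_cast
            ring
          rw [e]
          exact P.neg_mem h2
        have h4 := hmem _ h3
        have h5 : 2 ∣ k T := by exact_mod_cast h4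
        rw [h1, ZMod.val_zero, pow_zero, if_neg (by omega), if_pos (Or.inl (by omega))]
      · rw [hσt φ T h1] at h2
        have h3 : ((1 - (k T : ℤ) : ℤ) : 𝓞 F) ∈ P := by
          have e : ((1 - (k T : ℤ) : ℤ) : 𝓞 F) = (1 - t T - (t T + (k T : 𝓞 F))) + t T * ((2 : ℕ) : 𝓞 F) := by
            push_cast
            ring
          rw [e]
          exact P.add_mem h2 (P.mul_mem_left _ hw)
        have h4 := hmem _ h3
        have h5 : k T % 2 = 1 := by
          obtain ⟨c, hc⟩ := h4
          push_cast at hc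
          omega
        have h1' : (1 : ZMod 2).val = 1 := rfl
        rw [h1, h1', pow_one, if_neg (by omega), if_neg (by omega)]
    · have e1 : jacobiSym p s = legendreSym p s := by
        rw [jacobiSym.quadratic_reciprocity_one_mod_four' hodd hs4]
        exact (jacobiSym.legendreSym.to_jacobiSym p _).symm
      rw [e1]
      have h1 := hσr T φ (sg φ) (hsg φ)
      obtain ⟨m, hm⟩ := hodd
      have h2 := hφ (r T)
      have h3 : r T ^ p = (s : 𝓞 F) ^ (p / 2) * r T := by
        have : p = 2 * (p / 2) + 1 := by omega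
        conv_lhs => rw [this]
        rw [pow_succ, pow_mul, hr T]
      rw [h1, h3, ← sub_mul] at h2
      have h4 := (hPp.mem_or_mem h2).resolve_right (hrP T hT)
      have h5 : ((((-1) ^ (∑ i ∈ T, sg φ i).val - (s : ℤ) ^ (p / 2) : ℤ)) : 𝓞 F) ∈ P := by
        push_cast
        exact h4
      have h6 := hmem _ h5
      have h7 : ((((-1) ^ (∑ i ∈ T, sg φ i).val - (s : ℤ) ^ (p / 2) : ℤ)) : ZMod p) = 0 :=
        (ZMod.intCast_zmod_eq_zero_iff_dvd _ _).2 h6
      push_cast at h7
      have h8 := legendreSym.eq_pow p (s : ℤ)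
      have h9 : ((legendreSym p (s : ℤ) : ℤ) : ZMod p) =
          (((-1) ^ (∑ i ∈ T, sg φ i).val : ℤ) : ZMod p) := by
        rw [h8]
        push_cast
        linear_combination -h7
      have hp2 : p ≠ 2 := by omega
      have h10 : (1 : ZMod p) ≠ -1 := by
        intro h
        have : ((2 : ℤ) : ZMod p) = 0 := by push_cast; linear_combination h
        rw [ZMod.intCast_zmod_eq_zero_iff_dvd] at this
        have h11 : p ∣ 2 := by exact_mod_cast this
        exact hp2 ((Nat.prime_dvd_prime_iff_eq hp Nat.prime_two).1 h11)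
      have hsp : ((s : ℤ) : ZMod p) ≠ 0 := by
        intro h
        rw [ZMod.intCast_zmod_eq_zero_iff_dvd] at h
        exact hpU T hT (by exact_mod_cast h)
      rcases legendreSym.eq_one_or_neg_one p hsp with h12 | h12 <;>
        rcases two_cases (∑ i ∈ T, sg φ i) with h13 | h13 <;> rw [h12, h13] at h9 ⊢
      · rfl
      · exfalso
        have h1' : (1 : ZMod 2).val = 1 := rfl
        rw [h1'] at h9
        push_cast at h9
        exact h10 (by simpa using h9)
      · exfalso
        rw [ZMod.val_zero] at h9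
        push_cast at h9
        exact h10 (by simpa using h9.symm)
      · rfl
  -- the elements which fix the unramified part
  have hJ : ∀ a : Fin n → ZMod 2, (∀ T : Finset (Fin n), ∑ i ∈ T, mm d p i = 0 →
      ∑ i ∈ T, a i = 0) → a = 0 ∨ (a = mm d p ∧ ∃ i, p ∣ d i) := by
    intro a ha
    have h1 : ∀ i, mm d p i = 0 → a i = 0 := by
      intro i hi
      have := ha {i} (by rw [Finset.sum_singleton]; exact hi)
      rwa [Finset.sum_singleton] at this
    by_cases h2 : ∃ i, p ∣ d i
    · obtain ⟨i0, hi0⟩ := h2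
      have hm0 : mm d p i0 = 1 := if_pos hi0
      have h3 : ∀ i, mm d p i = 1 → a i = a i0 := by
        intro i hi
        by_cases hii : i = i0
        · rw [hii]
        · have := ha {i, i0} (by
            rw [Finset.sum_pair hii, hi, hm0]; decide)
          rw [Finset.sum_pair hii] at this
          exact CharTwo.add_eq_zero.1 this
      rcases two_cases (a i0) with h4 | h4
      · left
        funext i
        rcases two_cases (mm d p i) with h5 | h5
        · exact h1 i h5
        · rw [h3 i h5, h4]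
          rfl
      · right
        refine ⟨?_, i0, hi0⟩
        funext i
        rcases two_cases (mm d p i) with h5 | h5
        · rw [h1 i h5, h5]
        · rw [h3 i h5, h4, h5]
    · left
      push Not at h2
      funext i
      exact h1 i (if_neg (h2 i))
  -- the inertia group
  have hInm : ∀ σ : Gal(F/ℚ), σ ∈ P.inertia Gal(F/ℚ) ↔ ∀ y : 𝓞 F, σ • y - y ∈ P :=
    fun σ => Iff.rfl
  have hI : Nat.card (P.inertia Gal(F/ℚ)) = (if ∃ i, p ∣ d i then 2 else 1) ∧
      ∀ σ : Gal(F/ℚ), (∀ T : Finset (Fin n), ∑ i ∈ T, mm d p i = 0 → ∑ i ∈ T, sg σ i = 0) →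
        ∀ y : 𝓞 F, σ • y - y ∈ P := by
    by_cases h2 : ∃ i, p ∣ d i
    · rw [if_pos h2]
      obtain ⟨i0, hi0⟩ := id h2
      have hge : 2 ≤ Nat.card (P.inertia Gal(F/ℚ)) := by
        rw [Ideal.card_inertia_eq_ramificationIdxIn (G := Gal(F/ℚ)) (Ideal.span {(p : ℤ)}) P,
          Ideal.ramificationIdxIn_eq_ramificationIdx (Ideal.span {(p : ℤ)}) P Gal(F/ℚ)]
        have hmap : (Ideal.span {(p : ℤ)}).map (algebraMap ℤ (𝓞 F)) = Ideal.span {(p : 𝓞 F)} := by
          rw [Ideal.map_span, Set.image_singleton]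
          simp
        have hne : (Ideal.span {(p : ℤ)}).map (algebraMap ℤ (𝓞 F)) ≠ ⊥ := by
          rw [hmap, Ne, Ideal.span_singleton_eq_bot]
          exact_mod_cast hp.ne_zero
        rw [Ideal.IsDedekindDomain.ramificationIdx_eq_multiplicity (Ideal.span {(p : ℤ)}) P hne]
        have hfm : FiniteMultiplicity P ((Ideal.span {(p : ℤ)}).map (algebraMap ℤ (𝓞 F))) := by
          refine FiniteMultiplicity.of_prime_left (Ideal.prime_of_isPrime w.ne_bot hPp) ?_
          exact hne
        refine hfm.le_multiplicity_of_pow_dvd ?_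
        rw [Ideal.dvd_iff_le, hmap, Ideal.span_singleton_le_iff_mem]
        -- `x i0 ^ 2 = d i0 = p m`
        obtain ⟨m, hm⟩ := hi0
        have hxi : IsIntegral ℤ (x i0) := by
          refine IsIntegral.of_pow (n := 2) (by norm_num) ?_
          rw [h.sq]
          exact_mod_cast (isIntegral_algebraMap (R := ℤ) (A := F) (x := (d i0 : ℤ)))
        obtain ⟨z, hz⟩ : ∃ z : 𝓞 F, algebraMap (𝓞 F) F z = x i0 := ⟨⟨x i0, hxi⟩, rfl⟩
        have hz2 : z ^ 2 = (m : 𝓞 F) * (p : 𝓞 F) := by
          apply FaithfulSMul.algebraMap_injective (𝓞 F) F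
          rw [map_pow, hz, h.sq, hm, map_mul, map_natCast, map_natCast]
          push_cast
          ring
        have hzP : z ∈ P := by
          apply hPp.mem_of_pow_mem 2
          rw [hz2]
          exact P.mul_mem_left _ hw
        have h3 : (m : 𝓞 F) * (p : 𝓞 F) ∈ P ^ 2 := by
          rw [← hz2]
          exact Ideal.pow_mem_pow hzP 2
        refine (Ideal.IsPrime.mul_mem_pow P h3).resolve_left ?_
        intro hmP
        have h4 := hmem (m : ℤ) (by rw [Int.cast_natCast]; exact hmP)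
        have h5 : p ∣ m := by exact_mod_cast h4
        have h6 : p * p ∣ d i0 := by rw [hm]; exact Nat.mul_dvd_mul_left p h5
        exact hp.one_lt.ne' (Nat.isUnit_iff.1 (hd i0 p h6))
      -- a nontrivial element
      obtain ⟨τ, hτ⟩ : ∃ τ : P.inertia Gal(F/ℚ), τ ≠ 1 := by
        by_contra hcon
        push Not at hcon
        have : Subsingleton (P.inertia Gal(F/ℚ)) := ⟨fun a b => (hcon a).trans (hcon b).symm⟩
        have h5 := Finite.card_le_one_iff_subsingleton.2 this
        omega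
      have hcl : ∀ σ : Gal(F/ℚ), (∀ T : Finset (Fin n), ∑ i ∈ T, mm d p i = 0 →
          ∑ i ∈ T, sg σ i = 0) → σ = 1 ∨ σ = (τ : Gal(F/ℚ)) := by
        intro σ hσ
        have hτs : sg (τ : Gal(F/ℚ)) = mm d p := by
          rcases hJ _ (hA (τ : Gal(F/ℚ)) τ.2) with h6 | h6
          · exfalso
            apply hτ
            apply Subtype.ext
            exact huniq _ _ (by rw [h6]; exact hsg1.symm)
          · exact h6.1
        rcases hJ _ hσ with h6 | h6
        · left
          exact huniq _ _ (by rw [h6, hsg1])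
        · right
          exact huniq _ _ (by rw [h6.1, hτs])
      refine ⟨le_antisymm ?_ hge, ?_⟩
      · have h6 : (Finset.univ : Finset (P.inertia Gal(F/ℚ))) ⊆ {1, τ} := by
          intro σ _
          rw [Finset.mem_insert, Finset.mem_singleton]
          rcases hcl σ.1 (hA σ.1 σ.2) with h7 | h7
          · exact Or.inl (Subtype.ext h7)
          · exact Or.inr (Subtype.ext h7)
        have h7 := Finset.card_le_card h6
        rw [Finset.card_univ] at h7
        rw [Nat.card_eq_fintype_card]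
        exact h7.trans Finset.card_le_two
      · intro σ hσ
        rcases hcl σ hσ with rfl | rfl
        · intro y
          rw [one_smul, sub_self]
          exact P.zero_mem
        · exact τ.2
    · rw [if_neg h2]
      have hcl : ∀ σ : Gal(F/ℚ), (∀ T : Finset (Fin n), ∑ i ∈ T, mm d p i = 0 →
          ∑ i ∈ T, sg σ i = 0) → σ = 1 := by
        intro σ hσ
        rcases hJ _ hσ with h6 | h6
        · exact huniq _ _ (by rw [h6, hsg1])
        · exact absurd h6.2 h2
      constructor
      · rw [Nat.card_eq_one_iff_unique]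
        refine ⟨⟨fun a b => ?_⟩, ⟨1⟩⟩
        apply Subtype.ext
        rw [hcl a.1 (hA a.1 a.2), hcl b.1 (hA b.1 b.2)]
      · intro σ hσ y
        rw [hcl σ hσ, one_smul, sub_self]
        exact P.zero_mem
  obtain ⟨hI1, hI2⟩ := hI
  -- the degree
  have hf := Ideal.pow_inertiaDeg p P
  set f := P.inertiaDeg ℤ with hfdef
  have hcardk : Nat.card (𝓞 F ⧸ P) = p ^ f := by
    rw [hf, Ideal.absNorm_apply, Submodule.cardQuot_apply]
  let _ : Field (𝓞 F ⧸ P) := Ideal.Quotient.field P
  let _ : Fintype (𝓞 F ⧸ P) := Fintype.ofFinite _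
  have hf0 : 0 < f := by
    rcases Nat.eq_zero_or_pos f with h0 | h0
    · rw [h0, pow_zero] at hcardk
      have h1 : 1 < Nat.card (𝓞 F ⧸ P) := Finite.one_lt_card
      omega
    · exact h0
  have hφk : ∀ y : 𝓞 F, Ideal.Quotient.mk P (φ • y) = (Ideal.Quotient.mk P y) ^ p := by
    intro y
    rw [← map_pow, Ideal.Quotient.eq]
    exact hφ y
  have hf2 : f ≤ 2 := by
    refine deg_le hp.one_lt (by norm_num) hcardk ?_
    intro y
    obtain ⟨y, rfl⟩ := Ideal.Quotient.mk_surjective y
    have h1 := hφk (φ • y)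
    rw [← mul_smul, sq_one h φ, one_smul, hφk, ← pow_mul, ← pow_two] at h1
    exact h1.symm
  have hf1 : f = 1 ↔ ∀ T : Finset (Fin n), ∑ i ∈ T, mm d p i = 0 → ∑ i ∈ T, sg φ i = 0 := by
    constructor
    · intro h1
      apply hA φ
      intro y
      rw [← Ideal.Quotient.eq, hφk]
      rw [h1, pow_one] at hcardk
      have h2 := FiniteField.pow_card (Ideal.Quotient.mk P y)
      rwa [← Nat.card_eq_fintype_card, hcardk] at h2
    · intro h1
      have h2 := hI2 φ h1
      have h3 : f ≤ 1 := by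
        refine deg_le hp.one_lt (by norm_num) hcardk ?_
        intro y
        obtain ⟨y, rfl⟩ := Ideal.Quotient.mk_surjective y
        rw [pow_one, ← hφk, Ideal.Quotient.eq]
        exact h2 y
      omega
  refine ⟨f, sg φ, by omega, hf1, hB, hcardk, ?_, ?_⟩
  · have h1 := Ideal.ncard_primesOver_mul_card_inertia_mul_finrank (G := Gal(F/ℚ))
      (Ideal.span {(p : ℤ)}) P
    rw [hI1, card_gal h hd0 hind] at h1
    rw [← h1]
    ring
  · intro hno
    rw [if_neg hno] at hI1
    have h1 := Ideal.card_inertia_eq_ramificationIdxIn (G := Gal(F/ℚ)) (Ideal.span {(p : ℤ)}) P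
    rw [Ideal.ramificationIdxIn_eq_ramificationIdx (Ideal.span {(p : ℤ)}) P Gal(F/ℚ), hI1] at h1
    exact h1.symm

end place

end Pool.Agent.V7H80.MQ
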