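import Pool.Agent.R432.C6
import Pool.Agent.Y682.YS.Quad

/-!
# The points over `K(√d_1, …, √d_n)`
-/

set_option autoImplicit false
set_option linter.unusedSectionVars false

open WeierstrassCurve

namespace Pool.Agent.V7H80.MQ

open Pool.Agent.TH841.NF (Sc tF tF_some tF_add)
open Pool.Agent.Y710.CTE (fin_pre co co_inj)
open Pool.Agent.R432.C (tH tH_some tH_tH)
open Pool.Agent.Y682 (gc)
open scoped Classical

/-- the scalings between the twists -/
lemma sgc {F1 F2 : Type} [Field F1] [Field F2] (ι : F1 →+* F2) {u : F2} (hu : u ≠ 0)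
    {A B A' B' : ℤ} (h1 : (A' : F2) = A * u ^ 2) (h2 : (B' : F2) = B * u ^ 4) :
    Sc ι u (gc A B F1) (gc A' B' F2) where
  hu := hu
  h1 := by
    change (0 : F2) = ι 0 * u
    rw [map_zero, zero_mul]
  h2 := by
    change (A' : F2) = ι (A : F1) * u ^ 2
    rw [map_intCast, h1]
  h3 := by
    change (0 : F2) = ι 0 * u ^ 3
    rw [map_zero, zero_mul]
  h4 := by
    change (B' : F2) = ι (B : F1) * u ^ 4
    rw [map_intCast, h2]
  h6 := by
    change (0 : F2) = ι 0 * u ^ 6
    rw [map_zero, zero_mul]

section ker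

variable {F : Type} [Field F] [CharZero F]

/-- the kernel of a power of two is finite -/
theorem fin_ker2 (A B : ℤ) (n : ℕ) :
    {P : (gc A B F).toAffine.Point | 2 ^ n • P = 0}.Finite := by
  have h2k : {P : (gc A B F).toAffine.Point | (2 : ℕ) • P = 0}.Finite := by
    set f : Polynomial F := Polynomial.X ^ 3 + Polynomial.C (A : F) * Polynomial.X ^ 2 +
      Polynomial.C (B : F) * Polynomial.X with hf
    have hf0 : f ≠ 0 := by
      intro h
      have h1 := congrArg (fun g : Polynomial F => g.coeff 3) h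
      simp only [hf, Polynomial.coeff_add, Polynomial.coeff_X_pow, Polynomial.coeff_C_mul,
        Polynomial.coeff_X, Polynomial.coeff_zero] at h1
      norm_num at h1
    have h1 : (insert none ((fun z : F => some (z, (0 : F))) '' {z | f.IsRoot z}) :
        Set (Option (F × F))).Finite :=
      ((Polynomial.finite_setOfPred_isRoot hf0).image _).insert _
    refine (h1.preimage (co_inj (V := gc A B F)).injOn).subset ?_
    rintro (_ | ⟨z, y, h⟩) hP
    · left
      rfl
    · have h2 : (2 : ℕ) • (Affine.Point.some z y h : (gc A B F).toAffine.Point) = 0 := hP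
      rw [two_nsmul, add_eq_zero_iff_eq_neg, Affine.Point.neg_some, Affine.Point.some.injEq] at h2
      have hy : y = 0 := by
        have h3 := h2.2
        unfold Affine.negY at h3
        change y = -y - 0 * z - 0 at h3
        have h4 : 2 * y = 0 := by linear_combination h3
        exact (mul_eq_zero.1 h4).resolve_left two_ne_zero
      subst hy
      right
      refine ⟨z, ?_, rfl⟩
      have h4 := (Affine.equation_iff _ _).1 h.1
      change (0 : F) ^ 2 + 0 * z * 0 + 0 * 0 = z ^ 3 + (A : F) * z ^ 2 + (B : F) * z + 0 at h4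
      show f.eval z = 0
      simp only [hf, Polynomial.eval_add, Polynomial.eval_mul, Polynomial.eval_pow,
        Polynomial.eval_C, Polynomial.eval_X]
      linear_combination -h4
  induction n with
  | zero =>
    refine (Set.finite_singleton (0 : (gc A B F).toAffine.Point)).subset ?_
    intro P hP
    have h1 : 2 ^ 0 • P = 0 := hP
    rw [pow_zero, one_smul] at h1
    exact h1
  | succ n ih =>
    refine (fin_pre (nsmulAddMonoidHom 2) h2k ih).subset ?_
    intro P hP
    have h1 : 2 ^ (n + 1) • P = 0 := hP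
    show 2 ^ n • ((2 : ℕ) • P) = 0
    rw [← mul_smul, ← pow_succ]
    exact h1

end ker

/-- **The points over `F = K(√d_1, …, √d_n)`**: finitely many, if there are finitely many points on
all the twists over `K`. -/
theorem pts2 {K F : Type} [Field K] [CharZero K] [Field F] [CharZero F] [Algebra K F]
    [FiniteDimensional K F] [IsGalois K F] {n : ℕ} (d : Fin n → ℤ) (x : Fin n → F)
    (hd : ∀ i, d i ≠ 0) (hx : ∀ i, x i ^ 2 = (d i : F))
    (hgen : ∀ S : Subfield F, (∀ k : K, algebraMap K F k ∈ S) → (∀ i, x i ∈ S) → S = ⊤)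
    (A B : ℤ)
    (hyp : ∀ T : Finset (Fin n),
      Finite (gc (A * ∏ i ∈ T, d i) (B * (∏ i ∈ T, d i) ^ 2) K).toAffine.Point) :
    Finite (gc A B F).toAffine.Point := by
  have hx0 : ∀ i, x i ≠ 0 := by
    intro i h0
    have h1 := hx i
    rw [h0, zero_pow (by norm_num)] at h1
    exact hd i (by exact_mod_cast h1.symm)
  obtain ⟨u, hu⟩ : ∃ u : Finset (Fin n) → F, ∀ T, u T = ∏ i ∈ T, x i := ⟨_, fun T => rfl⟩
  have hune : ∀ T, u T ≠ 0 := fun T => by
    rw [hu]
    exact Finset.prod_ne_zero_iff.2 fun i _ => hx0 i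
  have hu2 : ∀ T, u T ^ 2 = ((∏ i ∈ T, d i : ℤ) : F) := by
    intro T
    rw [hu, ← Finset.prod_pow, Int.cast_prod]
    exact Finset.prod_congr rfl fun i _ => hx i
  -- the maps
  have S1 : ∀ T, Sc (RingHom.id F) (u T) (gc A B F)
      (gc (A * ∏ i ∈ T, d i) (B * (∏ i ∈ T, d i) ^ 2) F) := fun T =>
    sgc _ (hune T) (by rw [Int.cast_mul, hu2]) (by
      rw [Int.cast_mul, Int.cast_pow, ← hu2, ← pow_mul])
  have S2 : ∀ T, Sc (RingHom.id F) (u T)⁻¹ (gc (A * ∏ i ∈ T, d i) (B * (∏ i ∈ T, d i) ^ 2) F)
      (gc A B F) := fun T =>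
    sgc _ (inv_ne_zero (hune T)) (by
      rw [Int.cast_mul, ← hu2]
      have := hune T
      field_simp) (by
      rw [Int.cast_mul, Int.cast_pow, ← hu2]
      have := hune T
      field_simp)
  have Sg : ∀ (a b : ℤ) (g : F ≃ₐ[K] F), Sc (g : F →+* F) 1 (gc a b F) (gc a b F) := fun a b g =>
    sgc _ one_ne_zero (by rw [one_pow, mul_one]) (by rw [one_pow, mul_one])
  have Sa : ∀ a b : ℤ, Sc (algebraMap K F) 1 (gc a b K) (gc a b F) := fun a b =>
    sgc _ one_ne_zero (by rw [one_pow, mul_one]) (by rw [one_pow, mul_one])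
  let R : ∀ T : Finset (Fin n), (gc A B F).toAffine.Point →
      (gc (A * ∏ i ∈ T, d i) (B * (∏ i ∈ T, d i) ^ 2) F).toAffine.Point :=
    fun T P => ∑ g : F ≃ₐ[K] F, tH (Sg _ _ g) (tH (S1 T) P)
  have hRinv : ∀ T P (h : F ≃ₐ[K] F), tH (Sg _ _ h) (R T P) = R T P := by
    intro T P h
    show tH (Sg _ _ h) (∑ g : F ≃ₐ[K] F, tH (Sg _ _ g) (tH (S1 T) P)) =
      ∑ g : F ≃ₐ[K] F, tH (Sg _ _ g) (tH (S1 T) P)
    rw [map_sum, ← Equiv.sum_comp (Equiv.mulLeft h)
      (fun g => tH (Sg (A * ∏ i ∈ T, d i) (B * (∏ i ∈ T, d i) ^ 2) g) (tH (S1 T) P))]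
    refine Finset.sum_congr rfl fun g _ => ?_
    exact tH_tH (Sg _ _ g) (Sg _ _ h) (Sg _ _ (h * g)) (fun y => rfl)
      (by rw [map_one, mul_one]) _
  -- descent
  have hdesc : ∀ (a b : ℤ) (Q : (gc a b F).toAffine.Point),
      (∀ g : F ≃ₐ[K] F, tH (Sg a b g) Q = Q) → ∃ Q0 : (gc a b K).toAffine.Point,
        tH (Sa a b) Q0 = Q := by
    intro a b Q hQ
    rcases Q with _ | ⟨X, Y, h⟩
    · exact ⟨0, rfl⟩
    · have h1 : ∀ g : F ≃ₐ[K] F, g X = X ∧ g Y = Y := by
        intro g
        have h2 := hQ g
        obtain ⟨h3, e3⟩ := tH_some (Sg a b g) X Y h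
        rw [e3, Affine.Point.some.injEq, one_pow, one_pow, mul_one, mul_one] at h2
        exact h2
      obtain ⟨X0, rfl⟩ := (IsGalois.mem_range_algebraMap_iff_fixed (F := K) X).2 fun g => (h1 g).1
      obtain ⟨Y0, rfl⟩ := (IsGalois.mem_range_algebraMap_iff_fixed (F := K) Y).2 fun g => (h1 g).2
      have hns : (gc a b K).toAffine.Nonsingular X0 Y0 := by
        have h2 := (Pool.Agent.TH841.NF.ns_iff (Sa a b) X0 Y0).1
        apply h2
        rw [one_pow, one_pow, mul_one, mul_one]
        exact h
      refine ⟨.some X0 Y0 hns, ?_⟩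
      obtain ⟨h3, e3⟩ := tH_some (Sa a b) X0 Y0 hns
      rw [e3, Affine.Point.some.injEq, one_pow, one_pow, mul_one, mul_one]
      exact ⟨rfl, rfl⟩
  have hRfin : ∀ T, (Set.range (R T)).Finite := by
    intro T
    have := hyp T
    refine (Set.finite_range (tH (Sa (A * ∏ i ∈ T, d i) (B * (∏ i ∈ T, d i) ^ 2)))).subset ?_
    rintro Q ⟨P, rfl⟩
    exact hdesc _ _ _ (hRinv T P)
  -- the sum
  have hsum : ∀ P, ∑ T, tH (S2 T) (R T P) = 2 ^ n • P := by
    intro P
    have h1 : ∀ T, tH (S2 T) (R T P) =
        ∑ g : F ≃ₐ[K] F, tH (S2 T) (tH (Sg _ _ g) (tH (S1 T) P)) := fun T => map_sum _ _ _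
    rw [Finset.sum_congr rfl fun T _ => h1 T, Finset.sum_comm, Finset.sum_eq_single 1]
    · have h2 : ∀ T, tH (S2 T) (tH (Sg _ _ (1 : F ≃ₐ[K] F)) (tH (S1 T) P)) = P := by
        intro T
        rw [tH_tH (S1 T) (Sg _ _ 1) (S1 T) (fun y => rfl) (by
          rw [mul_one]
          rfl)]
        have S4 : Sc (RingHom.id F) 1 (gc A B F) (gc A B F) :=
          sgc _ one_ne_zero (by rw [one_pow, mul_one]) (by rw [one_pow, mul_one])
        rw [tH_tH (S1 T) (S2 T) S4 (fun y => rfl) (by
          rw [RingHom.id_apply, mul_inv_cancel₀ (hune T)])]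
        rcases P with _ | ⟨X, Y, h⟩
        · rfl
        · obtain ⟨h3, e3⟩ := tH_some S4 X Y h
          rw [e3, Affine.Point.some.injEq]
          simp
      rw [Finset.sum_congr rfl fun T _ => h2 T, Finset.sum_const, Finset.card_univ,
        Fintype.card_finset, Fintype.card_fin]
    · intro g _ hg
      obtain ⟨s, hs⟩ : ∃ s : Fin n → ℤ, ∀ i, s i = if g (x i) = x i then 1 else -1 :=
        ⟨_, fun i => rfl⟩
      have hs1 : ∀ i, g (x i) = (s i : F) * x i := by
        intro i
        rw [hs i]
        by_cases h : g (x i) = x i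
        · rw [if_pos h, h, Int.cast_one, one_mul]
        · rw [if_neg h, Int.cast_neg, Int.cast_one, neg_one_mul]
          have h1 : g (x i) ^ 2 = x i ^ 2 := by
            rw [← map_pow, hx i, map_intCast]
          rcases sq_eq_sq_iff_eq_or_eq_neg.1 h1 with h2 | h2
          · exact absurd h2 h
          · exact h2
      have hspm : ∀ i, s i = 1 ∨ s i = -1 := by
        intro i
        rw [hs i]
        by_cases h : g (x i) = x i
        · exact Or.inl (if_pos h)
        · exact Or.inr (if_neg h)
      have hcpm : ∀ T : Finset (Fin n), ∏ i ∈ T, s i = 1 ∨ ∏ i ∈ T, s i = -1 := by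
        intro T
        refine Finset.prod_induction _ (fun z : ℤ => z = 1 ∨ z = -1) ?_ (Or.inl rfl)
          fun i _ => hspm i
        rintro a b (rfl | rfl) (rfl | rfl) <;> norm_num
      have hcu : ∀ T, g (u T) = ((∏ i ∈ T, s i : ℤ) : F) * u T := by
        intro T
        rw [hu, map_prod, Int.cast_prod, ← Finset.prod_mul_distrib]
        exact Finset.prod_congr rfl fun i _ => hs1 i
      obtain ⟨i0, hi0⟩ : ∃ i, s i = -1 := by
        by_contra hcon
        push Not at hcon
        apply hg
        have h5 := hgen (RingHom.eqLocusField (g : F →+* F) (RingHom.id F))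
          (fun y => g.commutes y) (fun i => by
            have h6 := (hspm i).resolve_right (hcon i)
            show g (x i) = x i
            rw [hs1 i, h6, Int.cast_one, one_mul])
        ext y
        have h7 : y ∈ RingHom.eqLocusField (g : F →+* F) (RingHom.id F) := by rw [h5]; trivial
        exact h7
      have h10 : ∀ T, tH (S2 T) (tH (Sg _ _ g) (tH (S1 T) P)) =
          (∏ i ∈ T, s i) • tH (Sg A B g) P := by
        intro T
        rcases P with _ | ⟨X, Y, h⟩
        · exact (smul_zero _).symm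
        · obtain ⟨h1, e1⟩ := tH_some (S1 T) X Y h
          obtain ⟨h2, e2⟩ := tH_some (Sg _ _ g) _ _ h1
          obtain ⟨h3, e3⟩ := tH_some (S2 T) _ _ h2
          obtain ⟨h4, e4⟩ := tH_some (Sg A B g) X Y h
          rw [e1, e2, e3, e4]
          have hgc : ∀ z : F, ((g : F →+* F) z) = g z := fun z => rfl
          rcases hcpm T with hc | hc
          · rw [hc, one_smul, Affine.Point.some.injEq]
            simp only [RingHom.id_apply, one_pow, mul_one, hgc, map_mul, map_pow, hcu T, hc,
              Int.cast_one, one_mul]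
            have := hune T
            constructor
            · field_simp
            · field_simp
          · rw [hc, neg_smul, one_smul, Affine.Point.neg_some, Affine.Point.some.injEq]
            have hn : (gc A B F).toAffine.negY ((g : F →+* F) X * 1 ^ 2) ((g : F →+* F) Y * 1 ^ 3) =
                -(g Y) := by
              unfold Affine.negY
              change -((g : F →+* F) Y * 1 ^ 3) - 0 * _ - 0 = -(g Y)
              rw [hgc]
              ring
            rw [hn]
            simp only [RingHom.id_apply, one_pow, mul_one, hgc, map_mul, map_pow, hcu T, hc,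
              Int.cast_one, one_mul, Int.cast_neg]
            have := hune T
            constructor
            · field_simp
            · field_simp
      rw [Finset.sum_congr rfl fun T _ => h10 T, ← Finset.sum_smul]
      have h11 : ∑ T : Finset (Fin n), ∏ i ∈ T, s i = 0 := by
        have h12 := Finset.prod_one_add (f := s) Finset.univ
        rw [Finset.powerset_univ] at h12
        rw [← h12]
        exact Finset.prod_eq_zero (Finset.mem_univ i0) (by rw [hi0]; norm_num)
      rw [h11, zero_smul]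
    · intro h
      exact absurd (Finset.mem_univ _) h
  -- conclusion
  have hfin : {Q | ∃ P, (2 ^ n : ℕ) • P = Q}.Finite (α := (gc A B F).toAffine.Point) := by
    have h1 : (Set.range fun P => fun T => R T P).Finite := by
      refine (Set.Finite.pi' (t := fun T => Set.range (R T)) hRfin).subset ?_
      rintro _ ⟨P, rfl⟩ T
      exact ⟨P, rfl⟩
    refine (h1.image fun r => ∑ T, tH (S2 T) (r T)).subset ?_
    rintro Q ⟨P, rfl⟩
    exact ⟨fun T => R T P, ⟨P, rfl⟩, hsum P⟩
  rw [← Set.finite_univ_iff]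
  refine (fin_pre (nsmulAddMonoidHom (2 ^ n)) (fin_ker2 A B n) hfin).subset ?_
  intro P _
  exact ⟨P, rfl⟩

end Pool.Agent.V7H80.MQ
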