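import Pool.Agent.V7H80.MQ.ShaL
import Pool.Agent.Y682.AMF
import Pool.Agent.Y710.CTE.MwfA

/-!
# The finiteness of the 2-primary part
-/

set_option autoImplicit false
set_option linter.unusedSectionVars false

open NumberField IsDedekindDomain WeierstrassCurve

namespace Pool.Agent.V7H80.MQ

open Pool.Agent.TH841.NF.D (Sha)
open Pool.Agent.Results.MP_92892c_nt.FullClassTwoPartX49 (Family RankZeroShaTwo num)
open Pool.Agent.Results.MP_03e5d0_nt.FullClassX49 (tw)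
open Pool.Agent.Y698 Pool.Agent.Y698.SG
open Cv (WF LocI coc)
open scoped Classical

lemma fin_two {G : Type*} [AddCommGroup G] (h : Finite {x : G // 2 • x = 0}) (n : ℕ) :
    Finite {x : G // 2 ^ n • x = 0} := by
  have h1 : {x : G | 2 • x = 0}.Finite := Set.finite_coe_iff.1 h
  have h2 : {x : G | 2 ^ n • x = 0}.Finite := by
    induction n with
    | zero =>
      refine (Set.finite_singleton (0 : G)).subset fun x hx => ?_
      have h3 : 2 ^ 0 • x = 0 := hx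
      rw [pow_zero, one_smul] at h3
      exact h3
    | succ n ih =>
      have h3 := Pool.Agent.Y710.CTE.fin_pre (nsmulAddMonoidHom (α := G) 2) (by exact h1) ih
      refine h3.subset fun x hx => ?_
      show 2 ^ n • (2 • x) = 0
      rw [← mul_smul, ← pow_succ]
      exact hx
  exact Set.finite_coe_iff.2 h2

section
variable {F : Type} [Field F] [NumberField F] {n : ℕ} {d : Fin n → ℕ} {x : Fin n → F}

/-- `Ш(E_M/F)[2]` is finite -/
theorem sha_two_fin {M : ℕ} (hM : Family M) (F : Type) [Field F] [NumberField F] :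
    Finite {y : Sha (EM F M) // 2 • y = 0} := by
  obtain ⟨j, hj⟩ := exists_j (fam_gp hM)
  have hj' : M = 1 + 4 * j := by rw [← hj, Nat.prod_primeFactors_of_squarefree hM.1]
  have hM0 : (M : 𝓞 F) ≠ 0 := Nat.cast_ne_zero.2 hM.1.ne_zero
  have hc0 : (7 * (M : 𝓞 F) ^ 2) ≠ 0 := mul_ne_zero (by norm_num) (pow_ne_zero 2 hM0)
  have hD0 : (21 * (M : 𝓞 F)) ^ 2 - 64 * (7 * (M : 𝓞 F) ^ 2) ≠ 0 := by
    have e : (21 * (M : 𝓞 F)) ^ 2 - 64 * (7 * (M : 𝓞 F) ^ 2) = -(7 * (M : 𝓞 F) ^ 2) := by ring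
    rw [e]
    exact neg_ne_zero.2 hc0
  -- the places which contain `7 M ^ 2`
  have hT : {v : HeightOneSpectrum (𝓞 F) | 7 * (M : 𝓞 F) ^ 2 ∈ v.asIdeal}.Finite := by
    have h1 := Ideal.finite_factors (I := Ideal.span {7 * (M : 𝓞 F) ^ 2}) (by
      rw [ne_eq, Ideal.zero_eq_bot, Ideal.span_singleton_eq_bot]
      exact hc0)
    refine h1.subset fun v hv => ?_
    rw [Set.mem_ofPred_eq, Ideal.dvd_iff_le, Ideal.span_singleton_le_iff_mem]
    exact hv
  have h2 : ∀ v ∈ hT.toFinset, (2 : 𝓞 F) ∉ v.asIdeal := by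
    intro v hv h2
    rw [Set.Finite.mem_toFinset, Set.mem_ofPred_eq] at hv
    -- `7 M ^ 2` is odd
    have h3 : (1 : 𝓞 F) ∈ v.asIdeal := by
      have e : (1 : 𝓞 F) = 7 * (M : 𝓞 F) ^ 2 - 2 * (3 + 28 * (j : 𝓞 F) + 56 * (j : 𝓞 F) ^ 2) := by
        rw [hj']
        push_cast
        ring
      rw [e]
      exact v.asIdeal.sub_mem hv (v.asIdeal.mul_mem_right _ h2)
    exact v.isPrime.ne_top ((Ideal.eq_top_iff_one _).2 h3)
  have h3 := (Pool.Agent.Y682.bound_final (K := F) (21 * (M : 𝓞 F)) (7 * (M : 𝓞 F) ^ 2) 1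
    (5 + 21 * (j : 𝓞 F)) (by rw [hj']; push_cast; ring) hc0 hD0 (by
      intro φ
      have hMR : (0 : ℝ) < M := by exact_mod_cast Nat.pos_of_ne_zero hM.1.ne_zero
      have e1 : φ ((7 * (M : 𝓞 F) ^ 2 : 𝓞 F) : F) = 7 * (M : ℝ) ^ 2 := by
        have e2 : ((7 * (M : 𝓞 F) ^ 2 : 𝓞 F) : F) = 7 * (M : F) ^ 2 := by push_cast; rfl
        rw [e2, map_mul, map_pow, map_ofNat, map_natCast]
      have e3 : φ ((21 * (M : 𝓞 F) : 𝓞 F) : F) = 21 * (M : ℝ) := by
        have e2 : ((21 * (M : 𝓞 F) : 𝓞 F) : F) = 21 * (M : F) := by push_cast; rfl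
        rw [e2, map_mul, map_ofNat, map_natCast]
      rw [e1, e3]
      exact ⟨by positivity, Or.inr (by nlinarith [pow_pos hMR 2])⟩) hT.toFinset hT.toFinset
    (fun v hv => Or.inl (by
      rw [Set.Finite.mem_toFinset, Set.mem_ofPred_eq] at hv
      exact hv))
    (fun v hv => Or.inl (by
      rw [Set.Finite.mem_toFinset, Set.mem_ofPred_eq] at hv
      intro h4
      apply hv
      have e : 7 * (M : 𝓞 F) ^ 2 = -((21 * (M : 𝓞 F)) ^ 2 - 64 * (7 * (M : 𝓞 F) ^ 2)) := by ring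
      rw [e]
      exact v.asIdeal.neg_mem h4)) h2 (P := 21 * (M : F)) (Q := 16 * (7 * (M : F) ^ 2))
      (Or.inl ⟨by push_cast; rfl, by push_cast; rfl⟩)).1
  have e : Pool.Agent.Y682.wc (21 * (M : F)) (16 * (7 * (M : F) ^ 2)) =
      WF F (21 * (M : ℤ)) (112 * (M : ℤ) ^ 2) := by
    unfold Pool.Agent.Y682.wc
    show _ = Pool.Agent.Y668.Wt _ _
    unfold Pool.Agent.Y668.Wt
    congr 1
    · push_cast
      rfl
    · push_cast
      ring
  rw [e] at h3
  obtain ⟨-, ⟨e2⟩⟩ := isoW hM F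
  refine Finite.of_injective (β := {y : Sha (WF F (21 * (M : ℤ)) (112 * (M : ℤ) ^ 2)) // 2 • y = 0})
    (fun y => ⟨e2 y.1, by rw [← map_nsmul, y.2, map_zero]⟩) fun y z hyz => ?_
  exact Subtype.ext (e2.injective (congrArg Subtype.val hyz))

/-- **The finiteness of the 2-primary part.** -/
theorem sha_fin {M : ℕ} (hM : Family M) (F : Type) [Field F] [NumberField F] {m : ℕ}
    (hs : ∀ (k : ℕ) (y : Sha (EM F M)), 2 ^ k • y = 0 → 2 ^ m • y = 0) :
    {y : Sha (EM F M) | ∃ k : ℕ, 2 ^ k • y = 0}.Finite := by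
  have h1 := fin_two (sha_two_fin hM F) m
  have h2 : {y : Sha (EM F M) | 2 ^ m • y = 0}.Finite := Set.finite_coe_iff.1 h1
  exact h2.subset fun y ⟨k, hk⟩ => hs k y hk

end

end Pool.Agent.V7H80.MQ
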