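import Pool.Agent.V7H80.MQ.Lin
import Pool.Agent.V7H80.MQ.Main

/-!
# Many elements of order two
-/

set_option autoImplicit false
set_option linter.unusedSectionVars false

open NumberField IsDedekindDomain WeierstrassCurve

namespace Pool.Agent.V7H80.MQ

open Pool.Agent.TH841.NF.D (Sha)
open Pool.Agent.Results.MP_92892c_nt.FullClassTwoPartX49 (Family RankZeroShaTwo num)
open Pool.Agent.Results.MP_03e5d0_nt.FullClassX49 (tw)
open Pool.Agent.H921R2.TatePole Pool.Agent.H82R3.EK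
open Pool.Agent.Y698 Pool.Agent.Y698.SG
open Cv (WF LocI coc)
open scoped Classical

section
variable {F : Type} [Field F] [NumberField F] {n : ℕ} {d : Fin n → ℕ} {x : Fin n → F}

/-- the model `y² = x³ + 21 M x² + 112 M² x` -/
theorem isoW {M : ℕ} (hM : Family M) (F : Type) [Field F] [NumberField F] :
    Nonempty ((EM F M).toAffine.Point ≃+
      (WF F (21 * (M : ℤ)) (112 * (M : ℤ) ^ 2)).toAffine.Point) ∧
    Nonempty (Sha (EM F M) ≃+ Sha (WF F (21 * (M : ℤ)) (112 * (M : ℤ) ^ 2))) := by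
  obtain ⟨j, hj⟩ := exists_j (fam_gp hM)
  have hj' : M = 1 + 4 * j := by rw [← hj, Nat.prod_primeFactors_of_squarefree hM.1]
  have hE : EM F M = EX F (j : F) := Pool.Agent.Y698.twZ_map hj' F
  have hMZ : (M : ℤ) = 1 + 4 * (j : ℤ) := by exact_mod_cast hj'
  rw [hE, hMZ]
  obtain ⟨C, hC⟩ := gcE (k := F) j
  exact Pool.Agent.Y655.XT.s_shavc F _ _ C (EX_Δne j) hC

/-- a real place -/
lemma real_emb (h : Gen d x) (hd : ∀ i, d i ≠ 0) : Nonempty (F →+* ℝ) := by
  have h1 := totallyReal h hd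
  obtain ⟨v⟩ := (inferInstance : Nonempty (InfinitePlace F))
  exact ⟨InfinitePlace.embedding_of_isReal (h1.isReal v)⟩

lemma neg_nsq (φ : F →+* ℝ) {z : F} (hz : φ z < 0) : ¬ IsSquare z := by
  rintro ⟨s, hs⟩
  rw [hs, map_mul] at hz
  nlinarith [mul_self_nonneg (φ s)]

/-- **Many elements of order two.** -/
theorem sha_low {M : ℕ} (hM : Family M) (hd : ∀ i, Family (d i)) (hind : Indep d)
    (h : Gen d x) (hfin : Finite (EM F M).toAffine.Point) {m : ℕ} (hm : m + n + 1 ≤ (RR d).card) :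
    ∃ f : Fin (2 ^ m) → Sha (EM F M), Function.Injective f ∧ ∀ i, 2 • f i = 0 := by
  have hd0 : ∀ i, d i ≠ 0 := fun i => (hd i).1.ne_zero
  obtain ⟨φ⟩ := real_emb h hd0
  set S' : Finset ℕ := M.primeFactors.filter fun p => p ∉ RR d ∧ IsSquare (-7 : ZMod p) with hS'
  set S : Finset ℕ := RR d ∪ S' with hSdef
  set C : Finset ℕ := insert 7 S' with hC
  have hS'm : ∀ p, p ∈ S' ↔ p ∈ M.primeFactors ∧ p ∉ RR d ∧ IsSquare (-7 : ZMod p) := fun p => by
    rw [hS', Finset.mem_filter]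
  have hSg : ∀ q ∈ S, Gp q := by
    intro q hq
    rcases Finset.mem_union.1 hq with h1 | h1
    · exact RR_gp hd q h1
    · exact fam_gp hM q ((hS'm q).1 h1).1
  have hS0 : ∀ q ∈ S, q ≠ 0 := fun q hq => (hSg q hq).pr.ne_zero
  have h7S : 7 ∉ S := by
    intro h7
    have := (hSg 7 h7).m4
    norm_num at this
  have hdisj : Disjoint (RR d) S' := by
    rw [Finset.disjoint_left]
    intro q hq hq'
    exact ((hS'm q).1 hq').2.1 hq
  have hcard : S.card = (RR d).card + S'.card := Finset.card_union_of_disjoint hdisj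
  have h7S' : 7 ∉ S' := fun h7 => h7S (Finset.mem_union_right _ h7)
  have hCcard : C.card = S'.card + 1 := Finset.card_insert_of_notMem h7S'
  set c : ℕ → ZMod 2 := fun p => n4 p + nq p (M / p) with hc
  set V := LinearMap.ker (eql c nq S C) with hV
  have hdim : m + n ≤ Module.finrank (ZMod 2) V := by
    have := ker_dim (c := c) (rr := nq) (S := S) (C := C)
    rw [← hV] at this
    omega
  have hcq := card_quot h hd hind hSg hS0 V hdim
  -- the classes are locally trivial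
  have hpr : ∀ y : V, ∀ q ∈ spt S y.1, q.Prime := fun y q hq => (hSg q (spt_sub _ hq)).pr
  have hloc : ∀ y : V,
      (∀ v : HeightOneSpectrum (𝓞 F), LocI (v.adicCompletion F) (21 * (M : ℤ))
        (112 * (M : ℤ) ^ 2) ((∏ q ∈ spt S y.1, q : ℕ) : ℤ)) ∧
      LocI ℝ (21 * (M : ℤ)) (112 * (M : ℤ) ^ 2) ((∏ q ∈ spt S y.1, q : ℕ) : ℤ) := by
    intro y
    have hker := fun p (hp : p ∈ C) => eql_ker (LinearMap.mem_ker.1 y.2) hp
    refine loc_G h hd hM (fun q hq => hSg q (spt_sub _ hq)) ?_ ?_ ?_ ?_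
    · intro q hq hq'
      rcases Finset.mem_union.1 (spt_sub _ hq) with h1 | h1
      · exact absurd h1 hq'
      · exact ⟨((hS'm q).1 h1).1, ((hS'm q).1 h1).2.2⟩
    · have h1 : 7 ∉ spt S y.1 := fun h7 => h7S (spt_sub _ h7)
      rw [← nq_zero, nq_prod (by norm_num) (hpr y) h1]
      exact (hker 7 (Finset.mem_insert_self _ _)).1 h1
    · intro p hp hpR h7 hpJ
      have h1 : p ∈ S' := (hS'm p).2 ⟨hp, hpR, h7⟩
      rw [← nq_zero, nq_prod (Nat.prime_of_mem_primeFactors hp) (hpr y) hpJ]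
      exact (hker p (Finset.mem_insert_of_mem h1)).1 hpJ
    · intro p hpJ hpR
      have h1 : p ∈ S' := by
        rcases Finset.mem_union.1 (spt_sub _ hpJ) with h1 | h1
        · exact absurd h1 hpR
        · exact h1
      obtain ⟨k1, k2, k3⟩ := (hS'm p).1 h1
      have hpp := Nat.prime_of_mem_primeFactors k1
      have h2 := (hker p (Finset.mem_insert_of_mem h1)).2 hpJ
      have h3 : nq p p = 0 := by
        rw [nq_zero, ZMod.natCast_self]
        exact ⟨0, by ring⟩
      rw [← Finset.add_sum_erase (spt S y.1) (fun j => nq p j) hpJ, h3, zero_add] at h2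
      have h4 : nq p (∏ q ∈ (spt S y.1).erase p, q) = ∑ q ∈ (spt S y.1).erase p, nq p q :=
        nq_prod hpp (fun l hl => hpr y l (Finset.mem_of_mem_erase hl)) (Finset.notMem_erase _ _)
      have h5 : ¬ p ∣ M / p := by
        intro h6
        have h7 : p * p ∣ M := by
          have h8 := mul_dvd_mul_left p h6
          rwa [Nat.mul_div_cancel' (Nat.dvd_of_mem_primeFactors k1)] at h8
        exact hpp.one_lt.ne' (Nat.isUnit_iff.1 (hM.1 p h7))
      have h6 : ¬ p ∣ ∏ q ∈ (spt S y.1).erase p, q :=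
        not_dvd_pr hpp (fun l hl => hpr y l (Finset.mem_of_mem_erase hl)) (Finset.notMem_erase _ _)
      rw [nq_mul hpp h5 h6, h4]
      have h8 : c p = n4 p + nq p (M / p) := rfl
      rw [h8] at h2
      generalize nq p (M / p) = u at h2 ⊢
      generalize ∑ q ∈ (spt S y.1).erase p, nq p q = w at h2 ⊢
      generalize n4 p = z at h2 ⊢
      revert u w z
      decide
  -- the numerical conditions
  have hM0 : (M : ℤ) ≠ 0 := Nat.cast_ne_zero.2 hM.1.ne_zero
  have hMF : (M : F) ≠ 0 := Nat.cast_ne_zero.2 hM.1.ne_zero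
  have hMR : (0 : ℝ) < M := by exact_mod_cast Nat.pos_of_ne_zero hM.1.ne_zero
  have hb : 112 * (M : ℤ) ^ 2 ≠ 0 := mul_ne_zero (by norm_num) (pow_ne_zero 2 hM0)
  have hab : (21 * (M : ℤ)) ^ 2 - 4 * (112 * (M : ℤ) ^ 2) ≠ 0 := by
    have e : (21 * (M : ℤ)) ^ 2 - 4 * (112 * (M : ℤ) ^ 2) = -7 * (M : ℤ) ^ 2 := by ring
    rw [e]
    exact mul_ne_zero (by norm_num) (pow_ne_zero 2 hM0)
  have eab : ((21 * (M : ℤ) : ℤ) : F) ^ 2 - 4 * ((112 * (M : ℤ) ^ 2 : ℤ) : F) =
      -7 * (M : F) ^ 2 := by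
    push_cast
    ring
  have nb : ¬ IsSquare ((112 * (M : ℤ) ^ 2 : ℤ) : F) := by
    rintro ⟨s, hs⟩
    apply seven_F h hd hind
    refine ⟨s / (4 * (M : F)), ?_⟩
    push_cast at hs
    field_simp
    linear_combination hs
  have nab : ¬ IsSquare (((21 * (M : ℤ) : ℤ) : F) ^ 2 - 4 * ((112 * (M : ℤ) ^ 2 : ℤ) : F)) := by
    rw [eab]
    apply neg_nsq φ
    rw [map_mul, map_neg, map_ofNat, map_pow, map_natCast]
    nlinarith [pow_pos hMR 2]
  obtain ⟨⟨e1⟩, ⟨e2⟩⟩ := isoW hM F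
  have hfW : Finite (WF F (21 * (M : ℤ)) (112 * (M : ℤ) ^ 2)).toAffine.Point :=
    Finite.of_equiv _ e1.toEquiv
  have hpos : ∀ y : V, ∏ q ∈ spt S y.1, q ≠ 0 := fun y =>
    Finset.prod_ne_zero_iff.2 fun q hq => (hpr y q hq).ne_zero
  obtain ⟨f, hfi, hf2⟩ := sha_inj F hb hab nb nab hfW
    (d := fun z : V ⧸ sqN F hS0 V => ((∏ q ∈ spt S (Quotient.out z : V).1, q : ℕ) : ℤ))
    (fun z => Nat.cast_ne_zero.2 (hpos _)) (fun z => (hloc _).1) (fun z => (hloc _).2)
    (by
      intro z w hzw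
      set y : V := Quotient.out z with hy
      set y' : V := Quotient.out w with hy'
      have hcast : ((((∏ q ∈ spt S y.1, q : ℕ) : ℤ) * ((∏ q ∈ spt S y'.1, q : ℕ) : ℤ) : ℤ) : F) =
          ((∏ q ∈ spt S (y + y').1, q : ℕ) : F) *
            ((∏ q ∈ spt S y.1 ∩ spt S y'.1, q : ℕ) : F) ^ 2 := by
        have h1 := prod_spt y.1 y'.1
        have h2 := congrArg (Nat.cast : ℕ → F) h1
        rw [Nat.cast_mul, Nat.cast_mul, Nat.cast_pow] at h2
        rw [Int.cast_mul, Int.cast_natCast, Int.cast_natCast]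
        exact h2
      have hg0 : ((∏ q ∈ spt S y.1 ∩ spt S y'.1, q : ℕ) : F) ≠ 0 := by
        rw [Nat.cast_ne_zero, Finset.prod_ne_zero_iff]
        intro q hq
        exact hS0 q (spt_sub _ (Finset.mem_inter.1 hq).1)
      constructor
      · rw [hcast]
        rintro ⟨s, hs⟩
        apply hzw
        have h3 : y + y' ∈ sqN F hS0 V := by
          rw [mem_sqN]
          refine ⟨s / ((∏ q ∈ spt S y.1 ∩ spt S y'.1, q : ℕ) : F), ?_⟩
          field_simp
          linear_combination hs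
        have h4 : -y + y' ∈ sqN F hS0 V := by
          have h5 : -y = y := Subtype.ext (neg_eq' y.1)
          rw [h5]
          exact h3
        have h6 : (QuotientAddGroup.mk y : V ⧸ sqN F hS0 V) = QuotientAddGroup.mk y' :=
          QuotientAddGroup.eq.2 h4
        have h7 : (QuotientAddGroup.mk y : V ⧸ sqN F hS0 V) = z := Quotient.out_eq z
        have h8 : (QuotientAddGroup.mk y' : V ⧸ sqN F hS0 V) = w := Quotient.out_eq w
        rw [h7, h8] at h6
        exact h6
      · rw [eab]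
        apply neg_nsq φ
        rw [map_mul, map_mul, map_intCast, map_neg, map_ofNat, map_pow, map_natCast]
        have h1 : (0 : ℝ) < ((((∏ q ∈ spt S y.1, q : ℕ) : ℤ) *
            ((∏ q ∈ spt S y'.1, q : ℕ) : ℤ) : ℤ) : ℝ) := by
          rw [Int.cast_mul, Int.cast_natCast, Int.cast_natCast]
          exact mul_pos (by exact_mod_cast Nat.pos_of_ne_zero (hpos y))
            (by exact_mod_cast Nat.pos_of_ne_zero (hpos y'))
        have h2 : (-7 : ℝ) * (M : ℝ) ^ 2 < 0 := by nlinarith [pow_pos hMR 2]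
        exact mul_neg_of_pos_of_neg h1 h2)
  have hfinV : Finite (V ⧸ sqN F hS0 V) := inferInstance
  obtain ⟨g⟩ : Nonempty (Fin (2 ^ m) ↪ V ⧸ sqN F hS0 V) := by
    rw [← Fintype.card_fin (2 ^ m), ← Nat.card_eq_fintype_card] at hcq
    have := Fintype.ofFinite (V ⧸ sqN F hS0 V)
    rw [Nat.card_eq_fintype_card, Nat.card_eq_fintype_card] at hcq
    exact Function.Embedding.nonempty_of_card_le hcq
  refine ⟨fun i => e2.symm (f (g i)), fun i j hij => g.injective (hfi (e2.symm.injective hij)),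
    fun i => ?_⟩
  rw [← map_nsmul, two_nsmul, hf2, map_zero]

end

end Pool.Agent.V7H80.MQ
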