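import Pool.Agent.V7H80.MQ.Gal

/-!
# Splitting of primes in multiquadratic fields
-/

set_option autoImplicit false
set_option linter.unusedSectionVars false

open NumberField IsDedekindDomain

namespace Pool.Agent.V7H80.MQ

/-! ### Square classes -/

section classes

variable {n : ℕ}

/-- `1` if `p` divides `d i` -/
def mm (d : Fin n → ℕ) (p : ℕ) (i : Fin n) : ZMod 2 := if p ∣ d i then 1 else 0

/-- the primes which divide an odd number of the `d i`, `i ∈ T` -/
def U (d : Fin n → ℕ) (T : Finset (Fin n)) : Finset ℕ :=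
  (Finset.univ.biUnion fun i => (d i).primeFactors).filter fun p => ∑ i ∈ T, mm d p i = 1

lemma mem_U {d : Fin n → ℕ} (hd0 : ∀ i, d i ≠ 0) {T : Finset (Fin n)} {p : ℕ} (hp : p.Prime) :
    p ∈ U d T ↔ ∑ i ∈ T, mm d p i = 1 := by
  unfold U
  rw [Finset.mem_filter]
  refine ⟨fun h => h.2, fun h => ⟨?_, h⟩⟩
  rw [Finset.mem_biUnion]
  by_contra hcon
  push Not at hcon
  have h1 : ∑ i ∈ T, mm d p i = 0 := Finset.sum_eq_zero fun i _ => by
    unfold mm
    rw [if_neg]
    intro hd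
    exact hcon i (Finset.mem_univ _) (Nat.mem_primeFactors.2 ⟨hp, hd, hd0 i⟩)
  rw [h1] at h
  exact absurd h (by decide)

lemma U_prime {d : Fin n → ℕ} {T : Finset (Fin n)} {p : ℕ} (h : p ∈ U d T) : p.Prime := by
  obtain ⟨i, -, hi⟩ := Finset.mem_biUnion.1 (Finset.mem_filter.1 h).1
  exact Nat.prime_of_mem_primeFactors hi

lemma U_mod {d : Fin n → ℕ} (hd : ∀ i, ∀ q ∈ (d i).primeFactors, q % 4 = 1)
    {T : Finset (Fin n)} {p : ℕ} (h : p ∈ U d T) : p % 4 = 1 := by
  obtain ⟨i, -, hi⟩ := Finset.mem_biUnion.1 (Finset.mem_filter.1 h).1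
  exact hd i p hi

lemma prod_sd {α M : Type*} [DecidableEq α] [CommMonoid M] (f : α → M) (A B : Finset α) :
    (∏ a ∈ A, f a) * ∏ a ∈ B, f a = (∏ a ∈ symmDiff A B, f a) * (∏ a ∈ A ∩ B, f a) ^ 2 := by
  have h1 : ∏ a ∈ A, f a = (∏ a ∈ A \ B, f a) * ∏ a ∈ A ∩ B, f a := by
    rw [← Finset.sdiff_inter_self_left A B, Finset.prod_sdiff Finset.inter_subset_left]
  have h2 : ∏ a ∈ B, f a = (∏ a ∈ B \ A, f a) * ∏ a ∈ A ∩ B, f a := by
    have : B \ A = B \ (A ∩ B) := by
      ext a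
      simp only [Finset.mem_sdiff, Finset.mem_inter]
      tauto
    rw [this, Finset.prod_sdiff Finset.inter_subset_right]
  have h3 : ∏ a ∈ symmDiff A B, f a = (∏ a ∈ A \ B, f a) * ∏ a ∈ B \ A, f a := by
    have h4 : symmDiff A B = (A \ B) ∪ (B \ A) := rfl
    rw [h4, Finset.prod_union]
    rw [Finset.disjoint_left]
    intro a ha hb
    exact (Finset.mem_sdiff.1 ha).2 (Finset.mem_sdiff.1 hb).1
  rw [h1, h2, h3, pow_two]
  exact mul_mul_mul_comm _ _ _ _

lemma U_insert {d : Fin n → ℕ} (hd0 : ∀ i, d i ≠ 0) {T : Finset (Fin n)} {a : Fin n} (ha : a ∉ T) :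
    U d (insert a T) = symmDiff (d a).primeFactors (U d T) := by
  ext p
  rw [Finset.mem_symmDiff]
  have key : p.Prime → (p ∈ U d (insert a T) ↔
      (p ∈ (d a).primeFactors ∧ p ∉ U d T ∨ p ∈ U d T ∧ p ∉ (d a).primeFactors)) := by
    intro hp
    rw [mem_U hd0 hp, mem_U hd0 hp, Finset.sum_insert ha, Nat.mem_primeFactors]
    have hz : ∀ b : ZMod 2, b = 0 ∨ b = 1 := by decide
    unfold mm
    by_cases h : p ∣ d a
    · rw [if_pos h]
      rcases hz (∑ i ∈ T, if p ∣ d i then (1 : ZMod 2) else 0) with h1 | h1 <;> rw [h1]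
      · simp [h, hp, hd0]
      · have : (1 : ZMod 2) + 1 = 0 := by decide
        rw [this]
        simp [h, hp, hd0]
    · rw [if_neg h, zero_add]
      simp [h]
  by_cases hp : p.Prime
  · exact key hp
  · constructor
    · intro h
      exact absurd (U_prime h) hp
    · rintro (h | h)
      · exact absurd (Nat.prime_of_mem_primeFactors h.1) hp
      · exact absurd (U_prime h.1) hp

/-- the squarefree part -/
lemma exists_g {d : Fin n → ℕ} (hd : ∀ i, Squarefree (d i)) (T : Finset (Fin n)) :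
    ∃ g : ℕ, g ≠ 0 ∧ ∏ i ∈ T, d i = (∏ q ∈ U d T, q) * g ^ 2 := by
  classical
  have hd0 : ∀ i, d i ≠ 0 := fun i => (hd i).ne_zero
  induction T using Finset.induction_on with
  | empty =>
    refine ⟨1, one_ne_zero, ?_⟩
    have : U d ∅ = ∅ := by
      unfold U
      rw [Finset.filter_eq_empty_iff]
      intro p _
      rw [Finset.sum_empty]
      decide
    rw [this]
    simp
  | insert a T ha ih =>
    obtain ⟨g, hg, e⟩ := ih
    have h1 := prod_sd (fun q : ℕ => q) (d a).primeFactors (U d T)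
    rw [Nat.prod_primeFactors_of_squarefree (hd a)] at h1
    refine ⟨(∏ q ∈ (d a).primeFactors ∩ U d T, q) * g, mul_ne_zero ?_ hg, ?_⟩
    · exact Finset.prod_ne_zero_iff.2 fun q hq => (U_prime (Finset.mem_inter.1 hq).2).ne_zero
    · rw [Finset.prod_insert ha, e, U_insert hd0 ha, mul_pow, ← mul_assoc, ← mul_assoc, ← h1]

lemma prod_mod4 {S : Finset ℕ} (hS : ∀ q ∈ S, q % 4 = 1) : (∏ q ∈ S, q) % 4 = 1 := by
  classical
  induction S using Finset.induction_on with
  | empty => rfl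
  | insert q S hq ih =>
    rw [Finset.prod_insert hq, Nat.mul_mod, hS q (Finset.mem_insert_self _ _),
      ih fun p hp => hS p (Finset.mem_insert_of_mem hp)]

end classes

/-! ### The square roots -/

section roots

variable {F : Type} [Field F] [NumberField F] {n : ℕ} {d : Fin n → ℕ} {x : Fin n → F}

/-- the square root of the squarefree part, and for the prime two the integer `(1 + r) / 2` -/
theorem exists_r (h : Gen d x) (hd : ∀ i, Squarefree (d i))
    (hd4 : ∀ i, ∀ q ∈ (d i).primeFactors, q % 4 = 1) (T : Finset (Fin n)) :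
    ∃ (r t : 𝓞 F) (k : ℕ), r ^ 2 = ((∏ q ∈ U d T, q : ℕ) : 𝓞 F) ∧ 2 * t = 1 + r ∧
      ∏ q ∈ U d T, q = 1 + 4 * k ∧ t ^ 2 = t + (k : 𝓞 F) ∧
      ∀ (σ : Gal(F/ℚ)) (a : Fin n → ZMod 2), (∀ i, σ (x i) = (-1) ^ (a i).val * x i) →
        σ • r = (-1) ^ (∑ i ∈ T, a i).val * r := by
  obtain ⟨g, hg, e⟩ := exists_g hd T
  have hgF : (g : F) ≠ 0 := by exact_mod_cast hg
  set s : ℕ := ∏ q ∈ U d T, q with hs
  set R : F := (∏ i ∈ T, x i) / g with hR
  have hR2 : R ^ 2 = (s : F) := by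
    rw [hR, div_pow, ← Finset.prod_pow, Finset.prod_congr rfl fun i _ => h.sq i, ← Nat.cast_prod, e]
    push_cast
    field_simp
  have hs4 : s % 4 = 1 := prod_mod4 fun q hq => U_mod hd4 hq
  obtain ⟨k, hk⟩ : ∃ k, s = 1 + 4 * k := ⟨s / 4, by omega⟩
  have hRi : IsIntegral ℤ R := by
    refine IsIntegral.of_pow (n := 2) (by norm_num) ?_
    rw [hR2]
    exact_mod_cast (isIntegral_algebraMap (R := ℤ) (A := F) (x := (s : ℤ)))
  have hTi : IsIntegral ℤ ((1 + R) / 2) := by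
    refine ⟨Polynomial.X ^ 2 - Polynomial.X - Polynomial.C (k : ℤ), by monicity!, ?_⟩
    simp only [Polynomial.eval₂_sub, Polynomial.eval₂_pow, Polynomial.eval₂_X, Polynomial.eval₂_C]
    have hk' : (s : F) = 1 + 4 * k := by rw [hk]; push_cast; ring
    rw [hk'] at hR2
    have e2 : (algebraMap ℤ F) (k : ℤ) = (k : F) := by simp
    rw [e2]
    linear_combination (1 / 4 : F) * hR2
  have inj := FaithfulSMul.algebraMap_injective (𝓞 F) F
  obtain ⟨r, hr⟩ : ∃ r : 𝓞 F, algebraMap (𝓞 F) F r = R := ⟨⟨R, hRi⟩, rfl⟩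
  obtain ⟨t, ht⟩ : ∃ t : 𝓞 F, algebraMap (𝓞 F) F t = (1 + R) / 2 := ⟨⟨(1 + R) / 2, hTi⟩, rfl⟩
  refine ⟨r, t, k, inj ?_, inj ?_, hk, inj ?_, fun σ a ha => inj ?_⟩
  · rw [map_pow, hr, map_natCast]
    exact hR2
  · rw [map_mul, map_add, map_ofNat, map_one, hr, ht]
    ring
  · rw [map_pow, map_add, map_natCast, ht]
    have hk' : (s : F) = 1 + 4 * k := by rw [hk]; push_cast; ring
    rw [hk'] at hR2
    linear_combination (1 / 4 : F) * hR2
  · have e1 : algebraMap (𝓞 F) F (σ • r) = σ (algebraMap (𝓞 F) F r) := rfl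
    rw [e1, map_mul, map_pow, map_neg, map_one, hr, hR, map_div₀, map_prod, map_natCast,
      Finset.prod_congr rfl fun i _ => ha i, Finset.prod_mul_distrib, neg_pow_sum]
    ring

end roots

end Pool.Agent.V7H80.MQ
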