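import Pool.Agent.V7H80.MQ.ShaF
import Pool.Agent.V7H80.MQ.Few

/-!
# The Tate-Shafarevich groups over multiquadratic fields: one field, the law, towers
-/

set_option autoImplicit false
set_option linter.unusedSectionVars false

open NumberField IsDedekindDomain WeierstrassCurve Filter Topology

namespace Pool.Agent.V7H80.MQ

open Pool.Agent.TH841.NF.D (Sha)
open Pool.Agent.Results.MP_92892c_nt.FullClassTwoPartX49 (Family RankZeroShaTwo num)
open Pool.Agent.Results.MP_03e5d0_nt.FullClassX49 (tw c)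
open scoped Classical

/-- the set of the primes in terms of the product -/
lemma RR_prod {n : ℕ} {d : Fin n → ℕ} (hd : ∀ i, Family (d i)) :
    RR d = (∏ i, d i).primeFactors := by
  ext p
  rw [mem_RR]
  constructor
  · rintro ⟨i, hi⟩
    rw [Nat.mem_primeFactors] at hi ⊢
    refine ⟨hi.1, hi.2.1.trans (Finset.dvd_prod_of_mem d (Finset.mem_univ i)), ?_⟩
    exact Finset.prod_ne_zero_iff.2 fun j _ => (hd j).1.ne_zero
  · intro hp
    rw [Nat.mem_primeFactors] at hp
    obtain ⟨i, -, hi⟩ := (Prime.dvd_finsetProd_iff hp.1.prime _).1 hp.2.1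
    exact ⟨i, Nat.mem_primeFactors.2 ⟨hp.1, hi, (hd i).1.ne_zero⟩⟩

/-- **One field.** -/
theorem sha_main {F : Type} [Field F] [NumberField F] {n : ℕ} {d : Fin n → ℕ} {x : Fin n → F}
    {M : ℕ} (hM : Family M) (hd : ∀ i, Family (d i)) (hind : Indep d) (hg : Good M d)
    (h : Gen d x) : Module.finrank ℚ F = 2 ^ n ∧ IsTotallyReal F ∧
      Finite (EM F M).toAffine.Point ∧ {y : Sha (EM F M) | ∃ k : ℕ, 2 ^ k • y = 0}.Finite ∧
      (∀ (k : ℕ) (y : Sha (EM F M)), 2 ^ k • y = 0 → 2 ^ n • y = 0) ∧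
      2 ^ ((∏ i, d i).primeFactors.card - (n + 1)) ≤ Nat.card {y : Sha (EM F M) // 2 • y = 0} := by
  obtain ⟨h1, h2, h3⟩ := main hM hd hind hg h
  have h4 : ∀ (k : ℕ) (y : Sha (EM F M)), 2 ^ k • y = 0 → 2 ^ n • y = 0 := by
    intro k y hy
    have := h3.sha k y hy
    rwa [h1] at this
  have h5 := sha_two_fin hM F
  refine ⟨h1, h2, h3.fin, sha_fin hM F h4, h4, ?_⟩
  rw [← RR_prod hd]
  set m := (RR d).card - (n + 1) with hm
  by_cases hc : n + 1 ≤ (RR d).card
  · obtain ⟨f, hf1, hf2⟩ := sha_low hM hd hind h h3.fin (m := m) (by omega)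
    have h6 := Nat.card_le_card_of_injective
      (fun i : Fin (2 ^ m) => (⟨f i, hf2 i⟩ : {y : Sha (EM F M) // 2 • y = 0}))
      (fun i j hij => hf1 (congrArg Subtype.val hij))
    rwa [Nat.card_fin] at h6
  · have h6 : m = 0 := by omega
    rw [h6, pow_zero]
    have : Nonempty {y : Sha (EM F M) // 2 • y = 0} := ⟨⟨0, smul_zero _⟩⟩
    exact Nat.card_pos

/-- **The law.** -/
theorem law_gen {n : ℕ} {d : Fin n → ℕ} {M : ℕ} (hM : Family M) (hd : ∀ i, Family (d i))
    (hind : Indep d) (hgood : Good M d) (P : ℕ → Prop) (k : ℕ)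
    (hP : ∀ D, Family D → Indep (ext d D) → Good M (ext d D) → k ≤ D.primeFactors.card → P D) :
    Tendsto (fun X : ℕ => (num (fun D => Indep (ext d D) ∧ Good M (ext d D) ∧ P D) X : ℝ) /
      (num (fun _ => True) X : ℝ)) atTop (𝓝 (c ^ 2 ^ n)) := by
  have h1 := law_ext hM hd hind hgood
  have h2 := law_many h1 k
  refine tendsto_of_tendsto_of_tendsto_of_le_of_le h2 h1 (fun X => ?_) (fun X => ?_)
  · exact div_le_div_of_nonneg_right (Nat.cast_le.2 (num_mono
      (Q := fun D => (Indep (ext d D) ∧ Good M (ext d D)) ∧ k ≤ D.primeFactors.card)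
      (R := fun D => Indep (ext d D) ∧ Good M (ext d D) ∧ P D)
      (fun D hD h3 => ⟨h3.1.1, h3.1.2, hP D hD h3.1.1 h3.1.2 h3.2⟩) X)) (Nat.cast_nonneg _)
  · exact div_le_div_of_nonneg_right (Nat.cast_le.2 (num_mono
      (Q := fun D => Indep (ext d D) ∧ Good M (ext d D) ∧ P D)
      (R := fun D => Indep (ext d D) ∧ Good M (ext d D))
      (fun D hD h3 => ⟨h3.1, h3.2.1⟩) X)) (Nat.cast_nonneg _)

/-- the law for the twists -/
theorem law_tw {n : ℕ} {d : Fin n → ℕ} {M : ℕ} (hM : Family M) (hd : ∀ i, Family (d i))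
    (hind : Indep d) (P : ℕ → Prop) (hP : ∀ D, Family D → Good (tw M D) d → P D) :
    Tendsto (fun X : ℕ => (num (fun D => Good (tw M D) d ∧ P D) X : ℝ) /
      (num (fun _ => True) X : ℝ)) atTop (𝓝 (c ^ 2 ^ n)) := by
  obtain ⟨h1, -⟩ := law_field hM hd hind
  have h2 : ∀ X, num (fun D => Good (tw M D) d) X = num (fun D => Good (tw M D) d ∧ P D) X :=
    fun X => num_congr (fun D hD => ⟨fun h => ⟨h, hP D hD h⟩, fun h => h.1⟩) X
  simp only [h2] at h1
  exact h1

/-- the states of the construction -/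
structure St2 {n : ℕ} (d : Fin n → ℕ) (A : Finset ℕ) : Prop where
  fA : ∀ M ∈ A, Family M
  fd : ∀ i, Family (d i)
  ind : Indep d
  good : ∀ M ∈ A, Good M d

theorem St2.step {n : ℕ} {d : Fin n → ℕ} {A : Finset ℕ} (h : St2 d A) (k : ℕ) :
    ∃ (D : ℕ) (A' : Finset ℕ), A ⊂ A' ∧ k ≤ D.primeFactors.card ∧ St2 (ext d D) A' := by
  obtain ⟨D, hD, hDB, hk, hg⟩ := exists_D' (T := A.biUnion fun M => cur M d) (by
    intro N hN
    obtain ⟨M, hM, hN⟩ := Finset.mem_biUnion.1 hN
    exact cur_fam (h.fA M hM) h.fd N hN)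
    ((Finset.univ : Finset (Finset (Fin n))).image (dT d)) k
  have hgood : ∀ M ∈ A, Good M (ext d D) := by
    intro M hM
    rw [good_ext hD (h.fA M hM)]
    refine ⟨h.good M hM, ?_⟩
    rw [good_cur (h.fA M hM) hD h.fd]
    exact fun N hN => hg N (Finset.mem_biUnion.2 ⟨M, hM, hN⟩)
  have hf := ext_fam h.fd hD
  obtain ⟨M', hM', hM'A, hg'⟩ := exists_D
    (T := (Finset.univ : Finset (Finset (Fin (n + 1)))).image (dT (ext d D))) (by
      intro N hN
      obtain ⟨T, -, rfl⟩ := Finset.mem_image.1 hN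
      exact fam_dT hf T) A
  refine ⟨D, insert M' A, Finset.ssubset_insert hM'A, hk, ?_, hf, ?_, ?_⟩
  · intro M hM
    rcases Finset.mem_insert.1 hM with rfl | hM
    · exact hM'
    · exact h.fA M hM
  · rw [indep_ext h.fd h.ind hD]
    exact hDB
  · intro M hM
    rcases Finset.mem_insert.1 hM with rfl | hM
    · rw [good_iff hM' hf]
      intro T
      rw [tw_comm' hM' (fam_dT hf T)]
      exact hg' _ (Finset.mem_image.2 ⟨T, Finset.mem_univ _, rfl⟩)
    · exact hgood M hM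

/-- **The towers.** -/
theorem tow_seq {A : Finset ℕ} (hA : ∀ M ∈ A, Family M ∧ RankZeroShaTwo M) (g : ℕ → ℕ) :
    ∃ (𝓜 : Set ℕ) (D : ℕ → ℕ), (A : Set ℕ) ⊆ 𝓜 ∧ 𝓜.Infinite ∧ (∀ M ∈ 𝓜, Family M) ∧
      (∀ i, Family (D i) ∧ g i ≤ (D i).primeFactors.card) ∧
      ∀ m : ℕ, Indep (fun i : Fin m => D i) ∧ ∀ M ∈ 𝓜, Good M (fun i : Fin m => D i) := by
  have h0 : St2 (fun i : Fin 0 => i.elim0) A := by
    refine ⟨fun M hM => (hA M hM).1, fun i => i.elim0, ?_, ?_⟩
    · rintro T ⟨i, -⟩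
      exact i.elim0
    · intro M hM
      rw [good_iff (hA M hM).1 (fun i => i.elim0)]
      intro T
      have hT : T = ∅ := Finset.eq_empty_of_forall_notMem fun i => i.elim0
      rw [hT, dT_empty (fun i => i.elim0), tw_one' (hA M hM).1]
      exact (hA M hM).2
  have hstep : ∀ (m : ℕ) (z : {z : (Fin m → ℕ) × Finset ℕ // St2 z.1 z.2}),
      ∃ (D : ℕ) (A' : Finset ℕ), z.1.2 ⊂ A' ∧ g m ≤ D.primeFactors.card ∧
        St2 (ext z.1.1 D) A' := fun m z => z.2.step (g m)
  choose Df Af a1 a2 a3 using hstep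
  let s : ∀ m : ℕ, {z : (Fin m → ℕ) × Finset ℕ // St2 z.1 z.2} := fun m =>
    Nat.rec ⟨(fun i : Fin 0 => i.elim0, A), h0⟩
      (fun m z => ⟨(ext z.1.1 (Df m z), Af m z), a3 m z⟩) m
  have hs0 : (s 0).1.2 = A := rfl
  have hs1 : ∀ m, (s (m + 1)).1.1 = ext (s m).1.1 (Df m (s m)) := fun m => rfl
  have hs2 : ∀ m, (s (m + 1)).1.2 = Af m (s m) := fun m => rfl
  have hsD : ∀ m, (s m).1.1 = fun i : Fin m => Df i (s i) := by
    intro m
    induction m with
    | zero => exact funext fun i => i.elim0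
    | succ m ih =>
      rw [hs1, ih]
      funext i
      rcases Fin.eq_castSucc_or_eq_last i with ⟨j, rfl⟩ | rfl
      · exact Fin.snoc_castSucc (α := fun _ => ℕ) _ _ j
      · exact Fin.snoc_last (α := fun _ => ℕ) _ _
  have mA : StrictMono fun m => (s m).1.2 := strictMono_nat_of_lt_succ fun m => by
    simp only [hs2]
    exact a1 m (s m)
  have hfam : ∀ m, Family (Df m (s m)) := by
    intro m
    have h1 := (s (m + 1)).2.fd (Fin.last m)
    rw [hsD] at h1
    exact h1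
  have hgd : ∀ (m : ℕ) (M : ℕ), Family M → Good M (s (m + 1)).1.1 → Good M (s m).1.1 := by
    intro m M hM h
    rw [hs1] at h
    exact ((good_ext (hfam m) hM).1 h).1
  have hgd' : ∀ (k m : ℕ) (M : ℕ), Family M → Good M (s (m + k)).1.1 → Good M (s m).1.1 := by
    intro k
    induction k with
    | zero => exact fun m M _ h => h
    | succ k ih => exact fun m M hM h => ih m M hM (hgd (m + k) M hM h)
  refine ⟨⋃ m, ((s m).1.2 : Set ℕ), fun m => Df m (s m), ?_, ?_, ?_, fun i => ⟨hfam i, a2 i _⟩,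
    fun m => ⟨?_, ?_⟩⟩
  · rw [← hs0]
    exact Set.subset_iUnion (fun m => ((s m).1.2 : Set ℕ)) 0
  · intro hfin
    have h1 : ∀ m, (s m).1.2 ⊆ hfin.toFinset := by
      intro m a ha
      rw [Set.Finite.mem_toFinset]
      exact Set.mem_iUnion.2 ⟨m, ha⟩
    have h2 : ∀ m, m ≤ ((s m).1.2).card := by
      intro m
      induction m with
      | zero => exact Nat.zero_le _
      | succ m ih =>
        have h4 : ((s m).1.2).card < ((s (m + 1)).1.2).card :=
          Finset.card_lt_card (mA (Nat.lt_succ_self m))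
        omega
    have h3 := (h2 (hfin.toFinset.card + 1)).trans (Finset.card_le_card (h1 _))
    omega
  · intro M hM
    obtain ⟨m, hm⟩ := Set.mem_iUnion.1 hM
    exact (s m).2.fA M hm
  · rw [← hsD m]
    exact (s m).2.ind
  · intro M hM
    obtain ⟨l, hl⟩ := Set.mem_iUnion.1 hM
    rw [← hsD m]
    refine hgd' l m M ((s l).2.fA M hl) ?_
    exact (s (m + l)).2.good M (mA.monotone (Nat.le_add_left l m) hl)

end Pool.Agent.V7H80.MQ
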